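import Mathlib
import Pool.Agent.Lib.MP_7ab245_nt.TrE.Defs

/-! Definitions for the lower bound of the Mahler measure in terms of a decomposition of the
truncated logarithm into a part of small energy and a part of small mean. -/

set_option autoImplicit false

open Polynomial Finset

namespace Pool.Agent.Lib.MP_7ab245_nt.LgE

open Pool.Agent.Lib.MP_7ab245_nt.Len
open Pool.Agent.Lib.MP_7ab245_nt.L1
open Pool.Agent.Lib.MP_7ab245_nt.TrE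

/-- the polynomial `∑_{1 ≤ k < N} c_k z^k` -/
noncomputable def SP (c : ℕ → ℂ) (N : ℕ) (z : ℂ) : ℂ := ∑ k ∈ Finset.Ico 1 N, c k * z ^ k

/-- the coefficients of the smoothed function -/
noncomputable def smc (s : ℝ) (c : ℕ → ℂ) : ℕ → ℂ := fun k => (Real.exp (-(k * s)) : ℂ) * c k

/-- `QQ` minus the terms of order at least `m` of `t` -/
noncomputable def QT {n : ℕ} (α : Fin n → ℂ) (t : ℕ → ℂ) (m N : ℕ) (z : ℂ) : ℂ :=
  QQ α m z - ∑ k ∈ Finset.Ico m N, t k * z ^ (k - m)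

/-- the assumptions on the two coefficient sequences -/
structure Dat {n : ℕ} (α : Fin n → ℂ) (c r : ℕ → ℂ) (m N : ℕ) (F : ℝ) : Prop where
  hn : 0 < n
  hα : ∀ l, α l ≠ 0
  hh1 : hh α ≤ 1
  hm : 1 ≤ m
  hmN : m ≤ N
  hF1 : 1 ≤ F
  hnF : (n : ℝ) ≤ m * F
  hDL : DL c N ≤ m * F ^ 2
  hpw : ∀ k ∈ Finset.Ico 1 m, c k + r k = pw α k
  hSc : Real.circleAverage (fun ζ => ‖SP c N ζ‖ ^ 2) 0 1 ≤ (m * F) ^ 2
  hSr : Real.circleAverage (fun ζ => ‖SP r N ζ‖) 0 1 ≤ m * F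
  hr : Real.circleAverage (fun ζ => |LL r N ζ|) 0 1 ≤ F

/-- majorant of `log (|QT| / (m * F))` on the unit circle -/
noncomputable def WB {n : ℕ} (α : Fin n → ℂ) (c r : ℕ → ℂ) (m N : ℕ) (F : ℝ) (ζ : ℂ) : ℝ :=
  Real.log (5 * max ‖RR (fun l => Len.refl (α l)) ζ‖ (1 / 2)) +
    PN α (fun _ => 1) ζ / (m * F) +
    (‖SP c N ζ‖ + ‖SP r N ζ‖) / (m * F)

/-- the function whose Poisson integral controls `QT`, `Lam` and `LL r N` -/
noncomputable def WG {n : ℕ} (α : Fin n → ℂ) (c r : ℕ → ℂ) (m N : ℕ) (F : ℝ) (ζ : ℂ) : ℝ :=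
  WB α c r m N F ζ + (21 * PN α (fun l => Real.log ‖α l‖) ζ + |LL r N ζ| / F)

/-- bad scales above the angle `θ` -/
def BadG {n : ℕ} (α : Fin n → ℂ) (c r : ℕ → ℂ) (m N : ℕ) (F : ℝ) (i : ℕ) (θ : ℝ) : Prop :=
  (2 : ℝ) ^ i / 8 ≤ PP (WG α c r m N F) (pt ((2 : ℝ) ^ i / m) θ) ∨
    (2 : ℝ) ^ i / 4 < SS α ((2 : ℝ) ^ i / m) θ

end Pool.Agent.Lib.MP_7ab245_nt.LgE
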