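import Mathlib
import Pool.Agent.Lib.MP_7ab245_nt.LgE.Defs
import Pool.Agent.Lib.MP_7ab245_nt.TrE.PsiAlg

/-! Algebraic identities for `QT`. -/

set_option autoImplicit false

open Polynomial Finset

namespace Pool.Agent.Lib.MP_7ab245_nt.LgE

open Pool.Agent.Lib.MP_7ab245_nt.Len
open Pool.Agent.Lib.MP_7ab245_nt.L1
open Pool.Agent.Lib.MP_7ab245_nt.TrE

private lemma algT_ico (f : ℕ → ℂ) (m N : ℕ) (hm : 1 ≤ m) (hmN : m ≤ N) :
    ∑ k ∈ Finset.Ico 1 N, f k = ∑ k ∈ Finset.Ico 1 m, f k + ∑ k ∈ Finset.Ico m N, f k :=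
  (Finset.sum_Ico_consecutive f hm hmN).symm

theorem geom_identT {n : ℕ} (α : Fin n → ℂ) (t : ℕ → ℂ) (m N : ℕ) (hm : 1 ≤ m) (hmN : m ≤ N)
    (ht : ∀ k ∈ Finset.Ico 1 m, t k = pw α k) (z : ℂ)
    (h : ∀ l, 1 - z * starRingEnd ℂ (α l) ≠ 0) :
    z ^ m * QT α t m N z = ∑ l, z * starRingEnd ℂ (α l) / (1 - z * starRingEnd ℂ (α l)) -
      SP t N z := by
  have h1 := geom_ident α m hm z h
  have h2 : ∑ k ∈ Finset.Ico 1 m, pw α k * z ^ k = ∑ k ∈ Finset.Ico 1 m, t k * z ^ k :=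
    Finset.sum_congr rfl fun k hk => by rw [ht k hk]
  have h3 : z ^ m * ∑ k ∈ Finset.Ico m N, t k * z ^ (k - m) =
      ∑ k ∈ Finset.Ico m N, t k * z ^ k := by
    rw [Finset.mul_sum]
    refine Finset.sum_congr rfl fun k hk => ?_
    have hk1 : m ≤ k := (Finset.mem_Ico.1 hk).1
    have e : z ^ k = z ^ m * z ^ (k - m) := by
      rw [← pow_add]
      congr 1
      omega
    rw [e]
    ring
  unfold QT SP
  rw [mul_sub, h1, h3, h2, algT_ico (fun k => t k * z ^ k) m N hm hmN]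
  ring

theorem QT_circle {n : ℕ} (hn : 0 < n) (α : Fin n → ℂ) (t : ℕ → ℂ) (m N : ℕ) (hm : 1 ≤ m)
    (hmN : m ≤ N) (ht : ∀ k ∈ Finset.Ico 1 m, t k = pw α k) (ζ : ℂ)
    (hζ : ‖ζ‖ = 1) (h : ∀ l, 1 - ζ * starRingEnd ℂ (α l) ≠ 0) :
    ‖QT α t m N ζ‖ ≤ n * ‖RR (fun l => Len.refl (α l)) ζ - 1‖ + PN α (fun _ => 1) ζ +
      ‖SP t N ζ‖ := by
  have h1 := geom_identT α t m N hm hmN ht ζ h
  have h2 := geom_ident α 1 le_rfl ζ h
  rw [Finset.Ico_self, Finset.sum_empty, sub_zero] at h2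
  have h3 := QQ_circle hn α 1 le_rfl ζ hζ h
  rw [Finset.Ico_self, Finset.sum_empty, norm_zero, add_zero] at h3
  have h4 : ‖QT α t m N ζ‖ = ‖ζ ^ m * QT α t m N ζ‖ := by
    rw [norm_mul, norm_pow, hζ, one_pow, one_mul]
  have h5 : ‖ζ ^ 1 * QQ α 1 ζ‖ = ‖QQ α 1 ζ‖ := by
    rw [norm_mul, norm_pow, hζ, one_pow, one_mul]
  rw [h4, h1, ← h2]
  refine (norm_sub_le _ _).trans ?_
  rw [h5]
  linarith

end Pool.Agent.Lib.MP_7ab245_nt.LgE
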