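import Mathlib
import Pool.Agent.Lib.MP_7ab245_nt.TrE.CountL2

/-! The sum of the first good scales. -/

set_option autoImplicit false

open Polynomial Finset

namespace Pool.Agent.Lib.MP_7ab245_nt.LgE

open Pool.Agent.Lib.MP_7ab245_nt.Len
open Pool.Agent.Lib.MP_7ab245_nt.L1
open Pool.Agent.Lib.MP_7ab245_nt.TrE

private theorem cf2_lvlW_nonneg (W : ℂ → ℝ) (c s : ℝ) : 0 ≤ lvlW W c s := by
  unfold lvlW
  refine mul_nonneg (by positivity) ?_
  refine intervalIntegral.integral_nonneg (by positivity) fun θ _ => ?_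
  split_ifs <;> norm_num

private theorem cf2_trunc (c : ℕ → ℂ) (N : ℕ) (W : ℂ → ℝ) (hWi : CircleIntegrable W 0 1)
    (a σ b : ℝ) (hσ : 0 < σ) (hb : 0 < b) :
    (2 * Real.pi)⁻¹ * ∫ θ in (0 : ℝ)..(2 * Real.pi),
        (if a ≤ PP W (pt σ θ) then
          |LL c N (pt σ θ) - LL c N (pt (2 * σ) θ)| else 0) ≤
      1 / 2 * (b * lvlW W a σ + b⁻¹ * ((2 * Real.pi)⁻¹ * ∫ θ in (0 : ℝ)..(2 * Real.pi),
        (LL c N (pt σ θ) - LL c N (pt (2 * σ) θ)) ^ 2)) := by
  have hpi := Real.pi_pos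
  have hcP : Continuous fun θ => PP W (pt σ θ) := continuous_PP_pt W hWi σ hσ
  have hptc : ∀ s : ℝ, Continuous (pt s) := fun s => by unfold pt; fun_prop
  have hLc : Continuous fun θ : ℝ => LL c N (pt σ θ) - LL c N (pt (2 * σ) θ) :=
    ((continuous_LL c N).comp (hptc _)).sub ((continuous_LL c N).comp (hptc _))
  have hI1 : IntervalIntegrable
      (fun θ : ℝ => (if a ≤ PP W (pt σ θ) then (1 : ℝ) else 0))
      MeasureTheory.volume 0 (2 * Real.pi) := by
    refine (intervalIntegrable_const (c := (1 : ℝ))).mono_fun'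
      (Measurable.ite (measurableSet_le measurable_const hcP.measurable)
        measurable_const measurable_const).aestronglyMeasurable ?_
    refine Filter.Eventually.of_forall fun θ => ?_
    show ‖(if a ≤ PP W (pt σ θ) then (1 : ℝ) else 0)‖ ≤ 1
    split_ifs <;> simp
  have hI2 : IntervalIntegrable
      (fun θ : ℝ => (if a ≤ PP W (pt σ θ) then
        |LL c N (pt σ θ) - LL c N (pt (2 * σ) θ)| else 0))
      MeasureTheory.volume 0 (2 * Real.pi) := by
    refine (hLc.abs.intervalIntegrable 0 (2 * Real.pi)).mono_fun'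
      (Measurable.ite (measurableSet_le measurable_const hcP.measurable)
        hLc.abs.measurable measurable_const).aestronglyMeasurable ?_
    refine Filter.Eventually.of_forall fun θ => ?_
    show ‖(if a ≤ PP W (pt σ θ) then
        |LL c N (pt σ θ) - LL c N (pt (2 * σ) θ)| else 0)‖ ≤ _
    split_ifs
    · rw [Real.norm_eq_abs, abs_abs]
    · simp
  have hI3 : IntervalIntegrable
      (fun θ : ℝ => (LL c N (pt σ θ) - LL c N (pt (2 * σ) θ)) ^ 2)
      MeasureTheory.volume 0 (2 * Real.pi) := (hLc.pow 2).intervalIntegrable _ _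
  have hint : ∫ θ in (0 : ℝ)..(2 * Real.pi), (if a ≤ PP W (pt σ θ) then
        |LL c N (pt σ θ) - LL c N (pt (2 * σ) θ)| else 0) ≤
      ∫ θ in (0 : ℝ)..(2 * Real.pi),
        (b / 2 * (if a ≤ PP W (pt σ θ) then (1 : ℝ) else 0) +
        b⁻¹ / 2 * (LL c N (pt σ θ) - LL c N (pt (2 * σ) θ)) ^ 2) := by
    apply intervalIntegral.integral_mono_on (by positivity) hI2
      ((hI1.const_mul _).add (hI3.const_mul _))
    intro θ _
    set u := LL c N (pt σ θ) - LL c N (pt (2 * σ) θ) with hu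
    split_ifs
    · rw [mul_one]
      have h1 : 0 ≤ (b - |u|) ^ 2 := sq_nonneg _
      have h2 : |u| ^ 2 = u ^ 2 := sq_abs u
      have h3 : |u| = b⁻¹ / 2 * (2 * b * |u|) := by field_simp
      have h4 : b / 2 = b⁻¹ / 2 * b ^ 2 := by field_simp
      rw [h3, h4, ← mul_add]
      refine mul_le_mul_of_nonneg_left ?_ (by positivity)
      nlinarith
    · positivity
  rw [intervalIntegral.integral_add (hI1.const_mul _) (hI3.const_mul _),
    intervalIntegral.integral_const_mul, intervalIntegral.integral_const_mul] at hint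
  unfold lvlW
  calc _ ≤ (2 * Real.pi)⁻¹ * (b / 2 * (∫ θ in (0 : ℝ)..(2 * Real.pi),
        (if a ≤ PP W (pt σ θ) then (1 : ℝ) else 0)) +
        b⁻¹ / 2 * ∫ θ in (0 : ℝ)..(2 * Real.pi),
          (LL c N (pt σ θ) - LL c N (pt (2 * σ) θ)) ^ 2) :=
        mul_le_mul_of_nonneg_left hint (by positivity)
    _ = _ := by ring

theorem count_mainF {m : ℕ} (hm : 0 < m) (y : Fin m → ℂ) (hy : ∀ l, ‖y l‖ ≤ 1)
    (h0 : ∀ l, y l ≠ 0) (c : ℕ → ℂ) (N : ℕ)
    (W : ℂ → ℝ) (hWi : CircleIntegrable W 0 1)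
    (hWV : ∀ ζ : ℂ, ‖ζ‖ = 1 → |VV y 0 ζ - LL c N ζ| ≤ W ζ) (μ : ℝ) (hμ : 1 ≤ μ) :
    ∑ l, (2 : ℝ) ^ (JJ W m (y l)) ≤
      4000 * m * (1 + μ * Real.circleAverage W 0 1 + DL c N / (m * μ) +
        ∑ l, -Real.log ‖y l‖) := by
  classical
  have hμ0 : 0 < μ := by linarith
  have hW0 : ∀ ζ : ℂ, ‖ζ‖ = 1 → 0 ≤ W ζ := fun ζ hζ => (abs_nonneg _).trans (hWV ζ hζ)
  have hm' : (0 : ℝ) < m := by exact_mod_cast hm
  set a : ℝ := Real.circleAverage W 0 1 with ha
  have ha0 : 0 ≤ a := (PhiW_nonneg W 1 1).trans (PhiW_le W hWi hW0 1 1 zero_le_one one_pos)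
  have hD0 : 0 ≤ DL c N := DL_nonneg c N
  have hδ : ∀ l, 0 ≤ -Real.log ‖y l‖ := fun l => by
    rw [neg_nonneg]
    exact Real.log_nonpos (norm_nonneg _) (hy l)
  -- the sets of points at a given scale
  set Z : ℕ → Finset (Fin m) := fun i => univ.filter fun l =>
    Real.exp (-((2 : ℝ) ^ i / m)) ≤ ‖y l‖ ∧ m * ((2 : ℝ) ^ i / m) < PP W (pt ((2 : ℝ) ^ i / m)
      (y l).arg) ∧ PP W (pt (2 * ((2 : ℝ) ^ i / m)) (y l).arg) ≤ 2 * (m * ((2 : ℝ) ^ i / m)) with hZ
  set T : ℕ → Finset (Fin m) := fun i => if (2 : ℝ) ^ i / m ≤ Real.pi then Z i else ∅ with hT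
  set Ψ : ℕ → ℝ := fun i => PhiW W ((2 : ℝ) ^ i / 6) ((2 : ℝ) ^ i / (2 * m)) with hΨ
  set q : ℕ → ℝ := fun i => ((2 : ℝ) ^ i)⁻¹ * ((2 * Real.pi)⁻¹ *
      ∫ θ in (0 : ℝ)..(2 * Real.pi),
        (LL c N (pt ((2 : ℝ) ^ i / m) θ) - LL c N (pt (2 * ((2 : ℝ) ^ i / m)) θ)) ^ 2) with hq
  have hq0 : ∀ i, 0 ≤ q i := by
    intro i
    simp only [hq]
    refine mul_nonneg (by positivity) (mul_nonneg (by positivity) ?_)
    exact intervalIntegral.integral_nonneg (by positivity) fun θ _ => sq_nonneg _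
  have hstep : ∀ i, (2 : ℝ) ^ i * ((T i).card : ℝ) ≤
      1872 * m * μ * (Ψ i - Ψ (i + 1)) + 12 * m * μ⁻¹ * q i := by
    intro i
    have h1 := lvlW_le W hWi ((2 : ℝ) ^ i / 6) ((2 : ℝ) ^ i / (2 * m)) (by positivity)
      (by positivity)
    have e1 : 2 * ((2 : ℝ) ^ i / 6) = (2 : ℝ) ^ (i + 1) / 6 := by ring
    have e2 : 2 * ((2 : ℝ) ^ i / (2 * m)) = (2 : ℝ) ^ (i + 1) / (2 * m) := by ring
    rw [e1, e2] at h1
    have e3 : (2 : ℝ) ^ (i + 1) / 6 = m * ((2 : ℝ) ^ i / m) / 3 := by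
      field_simp; ring
    have e4 : (2 : ℝ) ^ (i + 1) / (2 * m) = (2 : ℝ) ^ i / m := by
      field_simp; ring
    have e5 : m * ((2 : ℝ) ^ i / m) = (2 : ℝ) ^ i := by field_simp
    have h1' : (2 : ℝ) ^ i / 6 * lvlW W (m * ((2 : ℝ) ^ i / m) / 3) ((2 : ℝ) ^ i / m) ≤
        Ψ i - Ψ (i + 1) := by
      rw [← e3, ← e4]
      exact h1
    set lv : ℝ := lvlW W (m * ((2 : ℝ) ^ i / m) / 3) ((2 : ℝ) ^ i / m) with hlv
    have hlv0 : 0 ≤ lv := cf2_lvlW_nonneg _ _ _
    have h2 : (2 : ℝ) ^ i * ((T i).card : ℝ) ≤ 312 * m * μ * ((2 : ℝ) ^ i * lv) +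
        12 * m * μ⁻¹ * q i := by
      by_cases hpi : (2 : ℝ) ^ i / m ≤ Real.pi
      · have h3 := count_scaleL y hy h0 c N W hWi hWV ((2 : ℝ) ^ i / m) (by positivity) hpi
        have h4 := cf2_trunc c N W hWi (m * ((2 : ℝ) ^ i / m) / 3) ((2 : ℝ) ^ i / m)
          (μ * (2 : ℝ) ^ i) (by positivity) (by positivity)
        have h5 : (T i) = Z i := by simp only [hT, if_pos hpi]
        rw [h5]
        have h6 : m * ((2 : ℝ) ^ i / m) * ((Z i).card : ℝ) = (2 : ℝ) ^ i * ((Z i).card : ℝ) := by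
          rw [e5]
        rw [← h6]
        refine h3.trans ?_
        rw [← hlv] at h4 ⊢
        rw [show m * ((2 : ℝ) ^ i / m) * lv = (2 : ℝ) ^ i * lv by rw [e5]]
        have h7 := mul_le_mul_of_nonneg_left h4 (show 0 ≤ 24 * (m : ℝ) by positivity)
        have h9 : 300 * m * ((2 : ℝ) ^ i * lv) ≤ 300 * m * μ * ((2 : ℝ) ^ i * lv) := by
          have h10 : 0 ≤ 300 * m * ((2 : ℝ) ^ i * lv) := by positivity
          nlinarith
        calc _ ≤ 300 * m * μ * ((2 : ℝ) ^ i * lv) + 24 * m * (1 / 2 * (μ * (2 : ℝ) ^ i * lv +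
              (μ * (2 : ℝ) ^ i)⁻¹ * ((2 * Real.pi)⁻¹ * ∫ θ in (0 : ℝ)..(2 * Real.pi),
              (LL c N (pt ((2 : ℝ) ^ i / m) θ) -
                LL c N (pt (2 * ((2 : ℝ) ^ i / m)) θ)) ^ 2))) := by linarith
          _ = 312 * m * μ * ((2 : ℝ) ^ i * lv) + 12 * m * μ⁻¹ * q i := by
              simp only [hq]
              rw [mul_inv]
              ring
      · have h5 : (T i) = ∅ := by simp only [hT, if_neg hpi]
        rw [h5, card_empty, Nat.cast_zero, mul_zero]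
        have := hq0 i
        positivity
    have h8 : 312 * m * μ * ((2 : ℝ) ^ i * lv) ≤ 1872 * m * μ * (Ψ i - Ψ (i + 1)) := by
      calc 312 * m * μ * ((2 : ℝ) ^ i * lv) = 1872 * m * μ * ((2 : ℝ) ^ i / 6 * lv) := by ring
        _ ≤ _ := mul_le_mul_of_nonneg_left h1' (by positivity)
    linarith
  -- pointwise bound
  obtain ⟨I, hI⟩ : ∃ I : ℕ, ∀ l, JJ W m (y l) ≤ I :=
    ⟨∑ l, JJ W m (y l), fun l => single_le_sum (f := fun l => JJ W m (y l))
      (fun _ _ => Nat.zero_le _) (mem_univ l)⟩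
  have hpoint : ∀ l, (2 : ℝ) ^ (JJ W m (y l)) ≤ 1 + 6 * a + 2 * m * (-Real.log ‖y l‖)
      + 2 * ∑ i ∈ range I, (2 : ℝ) ^ i * (if l ∈ T i then 1 else 0) := by
    intro l
    have hs0 : 0 ≤ ∑ i ∈ range I, (2 : ℝ) ^ i * (if l ∈ T i then (1 : ℝ) else 0) := by
      refine sum_nonneg fun i _ => mul_nonneg (by positivity) ?_
      split_ifs <;> norm_num
    have hd := hδ l
    have hmd : 0 ≤ 2 * m * (-Real.log ‖y l‖) := mul_nonneg (by positivity) hd
    rcases Nat.eq_zero_or_pos (JJ W m (y l)) with hz | hz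
    · rw [hz, pow_zero]
      linarith
    · obtain ⟨i, hi⟩ : ∃ i, JJ W m (y l) = i + 1 := ⟨JJ W m (y l) - 1, by omega⟩
      have hp := JJ_pred W hWi hW0 m hm (y l) i hi
      have hq := JJ_spec W hWi hW0 m hm (y l) (i + 1) hi.le
      rw [hi, pow_succ]
      by_cases hα : (2 : ℝ) ^ i / m ≤ Real.pi
      · by_cases hβ : Real.exp (-((2 : ℝ) ^ i / m)) ≤ ‖y l‖
        · have hlT : l ∈ T i := by
            simp only [hT, if_pos hα, hZ, mem_filter, mem_univ, true_and]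
            have e1 : m * ((2 : ℝ) ^ i / m) = (2 : ℝ) ^ i := by field_simp
            have e2 : 2 * ((2 : ℝ) ^ i / m) = (2 : ℝ) ^ (i + 1) / m := by ring
            rw [e1, e2]
            refine ⟨hβ, hp, ?_⟩
            rw [← pow_succ']
            exact hq
          have hiI : i ∈ range I := by
            rw [mem_range]
            have := hI l
            omega
          have h3 : (2 : ℝ) ^ i * (if l ∈ T i then (1 : ℝ) else 0) ≤
              ∑ i ∈ range I, (2 : ℝ) ^ i * (if l ∈ T i then (1 : ℝ) else 0) := by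
            refine single_le_sum (f := fun i => (2 : ℝ) ^ i * (if l ∈ T i then (1 : ℝ) else 0))
              (fun i _ => mul_nonneg (by positivity) ?_) hiI
            split_ifs <;> norm_num
          rw [if_pos hlT, mul_one] at h3
          linarith
        · rw [not_le] at hβ
          have h4 : (2 : ℝ) ^ i / m < -Real.log ‖y l‖ := by
            have h5 := Real.log_lt_log (norm_pos_iff.2 (h0 l)) hβ
            rw [Real.log_exp] at h5
            linarith
          rw [div_lt_iff₀ hm'] at h4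
          nlinarith
      · rw [not_le] at hα
        have h6 := PP_large W hWi hW0 ((2 : ℝ) ^ i / m) (y l).arg
          (by linarith [Real.pi_gt_three])
        rw [← ha] at h6
        linarith
  have hsumq : ∑ i ∈ range I, q i ≤ DL c N / m := dyadic_sum c N m I hm
  calc ∑ l, (2 : ℝ) ^ (JJ W m (y l))
      ≤ ∑ l, (1 + 6 * a + 2 * m * (-Real.log ‖y l‖)
        + 2 * ∑ i ∈ range I, (2 : ℝ) ^ i * (if l ∈ T i then 1 else 0)) :=
        sum_le_sum fun l _ => hpoint l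
    _ = m * (1 + 6 * a) + 2 * m * (∑ l, -Real.log ‖y l‖)
        + 2 * ∑ i ∈ range I, (2 : ℝ) ^ i * ((T i).card : ℝ) := by
        rw [sum_add_distrib, sum_add_distrib, ← mul_sum, ← mul_sum, sum_comm]
        simp only [sum_const, card_univ, Fintype.card_fin, nsmul_eq_mul]
        congr 2
        refine sum_congr rfl fun i _ => ?_
        rw [← mul_sum]
        congr 1
        rw [sum_ite_mem, univ_inter]
        simp
    _ ≤ m * (1 + 6 * a) + 2 * m * (∑ l, -Real.log ‖y l‖)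
        + 2 * ∑ i ∈ range I, (1872 * m * μ * (Ψ i - Ψ (i + 1)) + 12 * m * μ⁻¹ * q i) := by
        have := sum_le_sum (s := range I) fun i _ => hstep i
        linarith
    _ = m * (1 + 6 * a) + 2 * m * (∑ l, -Real.log ‖y l‖) + 3744 * m * μ * (Ψ 0 - Ψ I) +
        24 * m * μ⁻¹ * ∑ i ∈ range I, q i := by
        rw [sum_add_distrib, ← mul_sum, ← mul_sum, sum_range_sub']
        ring
    _ ≤ m * (1 + 6 * a) + 2 * m * (∑ l, -Real.log ‖y l‖) + 3744 * m * μ * a +
        24 * m * μ⁻¹ * (DL c N / m) := by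
        have h7 : Ψ 0 ≤ a := PhiW_le W hWi hW0 _ _ (by positivity) (by positivity)
        have h8 : 0 ≤ Ψ I := PhiW_nonneg _ _ _
        have h9 : 3744 * (m : ℝ) * μ * (Ψ 0 - Ψ I) ≤ 3744 * m * μ * a :=
          mul_le_mul_of_nonneg_left (by linarith) (by positivity)
        have h10 : 24 * (m : ℝ) * μ⁻¹ * ∑ i ∈ range I, q i ≤ 24 * m * μ⁻¹ * (DL c N / m) :=
          mul_le_mul_of_nonneg_left hsumq (by positivity)
        linarith
    _ ≤ 4000 * m * (1 + μ * a + DL c N / (m * μ) + ∑ l, -Real.log ‖y l‖) := by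
        have hS : 0 ≤ ∑ l, -Real.log ‖y l‖ := sum_nonneg fun l _ => hδ l
        have e7 : μ⁻¹ * (DL c N / m) = DL c N / (m * μ) := by field_simp
        have hDm : 0 ≤ DL c N / (m * μ) := by positivity
        have e8 : 24 * (m : ℝ) * μ⁻¹ * (DL c N / m) = 24 * (m * (DL c N / (m * μ))) := by
          rw [← e7]; ring
        have e9 : (m : ℝ) * a ≤ m * (μ * a) := by
          refine mul_le_mul_of_nonneg_left ?_ hm'.le
          nlinarith
        rw [e8]
        have e10 := mul_nonneg hm'.le hS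
        have e11 := mul_nonneg hm'.le hDm
        have e12 : 0 ≤ (m : ℝ) * (μ * a) := by positivity
        linarith

end Pool.Agent.Lib.MP_7ab245_nt.LgE
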