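import Mathlib

/-! The function `X + a / log (2 + a / X)`. -/

set_option autoImplicit false

namespace Pool.Agent.Lib.MP_7ab245_nt.LgE

/-- `X + a / log (2 + a / X)` -/
noncomputable def EE (X a : ℝ) : ℝ := X + a / Real.log (2 + a / X)

private lemma ee_log_pos {r : ℝ} (hr : 0 ≤ r) : 0 < Real.log (2 + r) :=
  Real.log_pos (by linarith)

private lemma ee_log_le {s : ℝ} (hs : 0 ≤ s) : Real.log (2 + s ^ 2) ≤ 1 + s := by
  rw [Real.log_le_iff_le_exp (by positivity)]
  have h1 := Real.quadratic_le_exp_of_nonneg (x := (1 + s) / 2) (by linarith)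
  have h2 : Real.exp (1 + s) = Real.exp ((1 + s) / 2) ^ 2 := by
    rw [← Real.exp_nat_mul]
    congr 1
    push_cast
    ring
  rw [h2]
  have h3 : 0 ≤ 1 + (1 + s) / 2 + ((1 + s) / 2) ^ 2 / 2 := by positivity
  have h4 := pow_le_pow_left₀ h3 h1 2
  refine le_trans ?_ h4
  nlinarith [pow_nonneg hs 3, pow_nonneg hs 4, sq_nonneg (s - 1), mul_nonneg hs (sq_nonneg (s - 1))]

private lemma ee_bern {r s : ℝ} (hr : 0 < r) (hrs : r ≤ s) :
    r / Real.log (2 + r) ≤ s / Real.log (2 + s) := by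
  have hs : 0 < s := hr.trans_le hrs
  rw [div_le_div_iff₀ (ee_log_pos hr.le) (ee_log_pos hs.le)]
  have h1 : 1 ≤ s / r := (one_le_div hr).2 hrs
  have h2 := one_add_mul_self_le_rpow_one_add (s := 1 + r) (by linarith) h1
  have h3 : 2 + s ≤ (2 + r) ^ (s / r) := by
    have h4 : s / r * (1 + r) = s / r + s := by field_simp
    rw [h4] at h2
    have h5 : (1 : ℝ) + (1 + r) = 2 + r := by ring
    rw [h5] at h2
    linarith
  have h6 := Real.log_le_log (by linarith) h3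
  rw [Real.log_rpow (by linarith)] at h6
  have h7 := mul_le_mul_of_nonneg_left h6 hr.le
  have h8 : r * (s / r * Real.log (2 + r)) = s * Real.log (2 + r) := by field_simp
  linarith

theorem EE_smul (t X a : ℝ) (ht : 0 < t) : EE (t * X) (t * a) = t * EE X a := by
  unfold EE
  rw [mul_div_mul_left _ _ ht.ne', mul_add, mul_div_assoc]

private lemma ee_second {X a : ℝ} (hX : 0 < X) (ha : 0 ≤ a) : 0 ≤ a / Real.log (2 + a / X) :=
  div_nonneg ha (ee_log_pos (by positivity)).le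

private lemma ee_ratio {r r' a : ℝ} (hr : 0 ≤ r) (hrr : r ≤ r') (ha : 0 ≤ a) :
    a / Real.log (2 + r') ≤ a / Real.log (2 + r) :=
  div_le_div_of_nonneg_left ha (ee_log_pos hr) (Real.log_le_log (by linarith) (by linarith))

theorem EE_mono (X X' a a' : ℝ) (hX : 0 < X) (hXX : X ≤ X') (ha : 0 ≤ a) (haa : a ≤ a') :
    EE X a ≤ EE X' a' := by
  have hX' : 0 < X' := hX.trans_le hXX
  have h1 : EE X a ≤ EE X' a := by
    unfold EE
    have h2 : a / X' ≤ a / X := div_le_div_of_nonneg_left ha hX hXX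
    have h3 := ee_ratio (div_nonneg ha hX'.le) h2 ha
    linarith
  refine h1.trans ?_
  unfold EE
  rcases ha.eq_or_lt with h0 | h0
  · rw [← h0]
    have := ee_second hX' (ha.trans haa)
    simp only [zero_div, add_zero]
    linarith
  · have h4 : a / X' ≤ a' / X' := div_le_div_of_nonneg_right haa hX'.le
    have h5 := ee_bern (by positivity : 0 < a / X') h4
    have h6 := mul_le_mul_of_nonneg_left h5 hX'.le
    have e1 : X' * (a / X' / Real.log (2 + a / X')) = a / Real.log (2 + a / X') := by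
      field_simp
    have e2 : X' * (a' / X' / Real.log (2 + a' / X')) = a' / Real.log (2 + a' / X') := by
      field_simp
    rw [e1, e2] at h6
    linarith

theorem le_EE (X a : ℝ) (hX : 0 < X) (ha : 0 ≤ a) : X ≤ EE X a := by
  unfold EE
  linarith [ee_second hX ha]

/-- `1 + s ^ 2 / log (2 + s ^ 2)` dominates `s` -/
private lemma ee_s {s : ℝ} (hs : 0 ≤ s) : s - 1 ≤ s ^ 2 / Real.log (2 + s ^ 2) := by
  have h0 : 0 < Real.log (2 + s ^ 2) := ee_log_pos (sq_nonneg s)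
  rw [le_div_iff₀ h0]
  rcases le_or_gt s 1 with h | h
  · nlinarith [sq_nonneg s]
  · have := mul_le_mul_of_nonneg_left (ee_log_le hs) (by linarith : 0 ≤ s - 1)
    nlinarith

private lemma ee_eq {X a : ℝ} (hX : 0 < X) (ha : 0 ≤ a) :
    EE X a = X * (1 + Real.sqrt (a / X) ^ 2 / Real.log (2 + Real.sqrt (a / X) ^ 2)) := by
  unfold EE
  rw [Real.sq_sqrt (div_nonneg ha hX.le)]
  field_simp

private lemma ee_sqrt_mul {X a : ℝ} (hX : 0 < X) (ha : 0 ≤ a) :
    Real.sqrt (X * a) = X * Real.sqrt (a / X) := by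
  have h1 : X * a = X ^ 2 * (a / X) := by field_simp
  rw [h1, Real.sqrt_mul (sq_nonneg X), Real.sqrt_sq hX.le]

theorem ratio_le_EE_sq (X a : ℝ) (hX : 1 ≤ X) (ha : 0 ≤ a) : a / X ≤ EE X a ^ 2 := by
  have hX0 : 0 < X := by linarith
  set s := Real.sqrt (a / X) with hs
  have hs0 : 0 ≤ s := Real.sqrt_nonneg _
  have h1 : a / X = s ^ 2 := (Real.sq_sqrt (div_nonneg ha hX0.le)).symm
  rw [h1, ee_eq hX0 ha, ← hs]
  have h2 := ee_s hs0
  have h3 : 0 ≤ s ^ 2 / Real.log (2 + s ^ 2) :=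
    div_nonneg (sq_nonneg s) (ee_log_pos (sq_nonneg s)).le
  apply pow_le_pow_left₀ hs0
  nlinarith

theorem sqrt_le_EE (X a : ℝ) (hX : 0 < X) (ha : 0 ≤ a) : X + Real.sqrt (X * a) ≤ 3 * EE X a := by
  set s := Real.sqrt (a / X) with hs
  have hs0 : 0 ≤ s := Real.sqrt_nonneg _
  rw [ee_eq hX ha, ee_sqrt_mul hX ha, ← hs]
  have h2 := ee_s hs0
  have h3 : 0 ≤ s ^ 2 / Real.log (2 + s ^ 2) :=
    div_nonneg (sq_nonneg s) (ee_log_pos (sq_nonneg s)).le
  have h4 : 1 + s ≤ 3 * (1 + s ^ 2 / Real.log (2 + s ^ 2)) := by linarith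
  have h5 := mul_le_mul_of_nonneg_left h4 hX.le
  nlinarith

theorem EE_sqrt (X a : ℝ) (hX : 0 < X) (ha : 0 ≤ a) :
    EE (X + Real.sqrt (X * a)) a ≤ 20 * EE X a := by
  have h1 := sqrt_le_EE X a hX ha
  have h0 := le_EE X a hX ha
  set s := Real.sqrt (a / X) with hs
  have hs0 : 0 ≤ s := Real.sqrt_nonneg _
  have hr : a / X = s ^ 2 := (Real.sq_sqrt (div_nonneg ha hX.le)).symm
  have h2 : a / (X + Real.sqrt (X * a)) = s ^ 2 / (1 + s) := by
    rw [ee_sqrt_mul hX ha, ← hs, ← hr]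
    field_simp
  have h3 : Real.log (2 + s ^ 2) ≤ 4 * Real.log (2 + s ^ 2 / (1 + s)) := by
    have h4 : 2 + s ^ 2 ≤ (2 + s ^ 2 / (1 + s)) ^ 4 := by
      have h5 : s - 1 ≤ s ^ 2 / (1 + s) := by
        rw [le_div_iff₀ (by linarith)]
        nlinarith
      have h6 : 0 ≤ s ^ 2 / (1 + s) := by positivity
      rcases le_or_gt s 1 with h | h
      · have h7 : (2 : ℝ) ^ 4 ≤ (2 + s ^ 2 / (1 + s)) ^ 4 :=
          pow_le_pow_left₀ (by norm_num) (by linarith) 4
        nlinarith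
      · have h7 : (s + 1) ^ 4 ≤ (2 + s ^ 2 / (1 + s)) ^ 4 :=
          pow_le_pow_left₀ (by linarith) (by linarith) 4
        refine le_trans ?_ h7
        nlinarith [pow_pos (by linarith : (0 : ℝ) < s) 3, pow_pos (by linarith : (0 : ℝ) < s) 4]
    have h8 := Real.log_le_log (by positivity) h4
    rw [Real.log_pow] at h8
    push_cast at h8
    exact h8
  unfold EE at h0 h1 ⊢
  rw [h2]
  rw [hr] at h0 h1 ⊢
  have h9 : 0 < Real.log (2 + s ^ 2) := ee_log_pos (sq_nonneg s)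
  have h10 : 0 < Real.log (2 + s ^ 2 / (1 + s)) := ee_log_pos (by positivity)
  have h11 : a / Real.log (2 + s ^ 2 / (1 + s)) ≤ 4 * (a / Real.log (2 + s ^ 2)) := by
    rw [← mul_div_assoc, div_le_div_iff₀ h10 h9]
    nlinarith
  have h12 : 0 ≤ a / Real.log (2 + s ^ 2) := div_nonneg ha h9.le
  linarith

theorem EE_shrink (t X a : ℝ) (hX : 0 < X) (ha : 0 ≤ a) (ht : 0 < t) (ht1 : t ≤ 1) :
    t * EE X (a / t) ≤ EE X a := by
  unfold EE
  have h1 : a / X ≤ a / t / X := by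
    apply div_le_div_of_nonneg_right _ hX.le
    rw [le_div_iff₀ ht]
    nlinarith
  have h2 := ee_ratio (div_nonneg ha hX.le) h1 ha
  have h3 : t * (X + a / t / Real.log (2 + a / t / X)) =
      t * X + a / Real.log (2 + a / t / X) := by
    rw [mul_add, ← mul_div_assoc, mul_div_cancel₀ _ ht.ne']
  rw [h3]
  nlinarith

/-- the bound used for the energy of the smoothed points -/
theorem energy_choice (X a : ℝ) (hX : 0 < X) (ha : 0 ≤ a) :
    1 / Real.log (2 + Real.sqrt (Real.sqrt (a / X))) *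
      (a + (2 + Real.sqrt (Real.sqrt (a / X))) * (X + Real.sqrt (X * a))) ≤ 100 * EE X a := by
  set s := Real.sqrt (a / X) with hs
  set q := Real.sqrt s with hq
  have hs0 : 0 ≤ s := Real.sqrt_nonneg _
  have hq0 : 0 ≤ q := Real.sqrt_nonneg _
  have hr : a / X = s ^ 2 := (Real.sq_sqrt (div_nonneg ha hX.le)).symm
  have hsq : s = q ^ 2 := (Real.sq_sqrt hs0).symm
  have ha' : a = X * q ^ 4 := by
    have : a = X * (a / X) := by field_simp
    rw [this, hr, hsq]
    ring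
  have hr4 : a / X = q ^ 4 := by rw [hr, hsq]; ring
  rw [ee_sqrt_mul hX ha, ← hs]
  unfold EE
  rw [hr4, hsq]
  have hl : 0 < Real.log (2 + q) := ee_log_pos hq0
  have hl4 : 0 < Real.log (2 + q ^ 4) := ee_log_pos (by positivity)
  have h1 : Real.log (2 + q ^ 4) ≤ 4 * Real.log (2 + q) := by
    have h2 : 2 + q ^ 4 ≤ (2 + q) ^ 4 := by
      nlinarith [pow_nonneg hq0 2, pow_nonneg hq0 3]
    have h8 := Real.log_le_log (by positivity) h2
    rw [Real.log_pow] at h8
    push_cast at h8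
    exact h8
  have h3 : (2 + q) * (1 + q ^ 2) ≤ 8 * (1 + q ^ 4) := by
    nlinarith [sq_nonneg (q ^ 2 - 1), sq_nonneg (q - 1), sq_nonneg (q ^ 2 - q), pow_nonneg hq0 2,
      pow_nonneg hq0 3, pow_nonneg hq0 4]
  have h4 : a + (2 + q) * (X + X * q ^ 2) ≤ X * (9 * q ^ 4 + 8) := by
    have h5 := mul_le_mul_of_nonneg_left h3 hX.le
    rw [ha']
    nlinarith
  have h6 : 1 / Real.log (2 + q) * (a + (2 + q) * (X + X * q ^ 2)) ≤
      1 / Real.log (2 + q) * (X * (9 * q ^ 4 + 8)) :=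
    mul_le_mul_of_nonneg_left h4 (by positivity)
  refine h6.trans ?_
  have h7 : X * q ^ 4 / Real.log (2 + q) ≤ 4 * (X * q ^ 4 / Real.log (2 + q ^ 4)) := by
    rw [← mul_div_assoc, div_le_div_iff₀ hl hl4]
    have : 0 ≤ X * q ^ 4 := by positivity
    nlinarith
  have h8 : X / Real.log (2 + q) ≤ 2 * X := by
    rw [div_le_iff₀ hl]
    have h9 : 1 / 2 ≤ Real.log (2 + q) := by
      have := Real.log_two_gt_d9
      have := Real.log_le_log (by norm_num : (0 : ℝ) < 2) (by linarith : (2 : ℝ) ≤ 2 + q)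
      linarith
    nlinarith
  have h9 : 1 / Real.log (2 + q) * (X * (9 * q ^ 4 + 8)) =
      9 * (X * q ^ 4 / Real.log (2 + q)) + 8 * (X / Real.log (2 + q)) := by
    field_simp
  rw [h9, ha']
  have h10 : 0 ≤ X * q ^ 4 / Real.log (2 + q ^ 4) := by positivity
  nlinarith

end Pool.Agent.Lib.MP_7ab245_nt.LgE
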