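import Mathlib
import Pool.Agent.Lib.MP_7ab245_nt.TrE.EnergyL

/-! The energy of the smoothed points. -/

set_option autoImplicit false

open Polynomial Finset

namespace Pool.Agent.Lib.MP_7ab245_nt.LgE

open Pool.Agent.Lib.MP_7ab245_nt.Len
open Pool.Agent.Lib.MP_7ab245_nt.L1
open Pool.Agent.Lib.MP_7ab245_nt.TrE

private theorem energyL_PP_good {m : ℕ} (hm : 0 < m) (W : ℂ → ℝ) (hWi : CircleIntegrable W 0 1)
    (hW0 : ∀ ζ : ℂ, ‖ζ‖ = 1 → 0 ≤ W ζ) (z : ℂ) (τ : ℝ)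
    (hτ : (2 : ℝ) ^ (JJ W m z) / m ≤ τ) : PP W (pt τ z.arg) ≤ m * τ := by
  have hm' : (0 : ℝ) < m := by exact_mod_cast hm
  have h1 := PP_radial_le W hWi hW0 ((2 : ℝ) ^ (JJ W m z) / m) τ z.arg (by positivity) hτ
  have h2 := JJ_spec W hWi hW0 m hm z _ le_rfl
  have hτ0 : 0 < τ := lt_of_lt_of_le (by positivity) hτ
  calc PP W (pt τ z.arg) ≤ τ / ((2 : ℝ) ^ (JJ W m z) / m) *
        PP W (pt ((2 : ℝ) ^ (JJ W m z) / m) z.arg) := h1
    _ ≤ τ / ((2 : ℝ) ^ (JJ W m z) / m) * (2 : ℝ) ^ (JJ W m z) := by gcongr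
    _ = m * τ := by field_simp

private theorem energyL_IE_nonneg {ι : Type} [Fintype ι] (x : ι → ℂ) (hx : ∀ i, ‖x i‖ < 1) :
    0 ≤ IE x x := by
  have h := sum_LL_sq_le x hx (fun _ => 1) 2
  have h1 : DL (fun _ => (1 : ℂ)) 2 = 1 := by
    unfold DL
    have : Finset.Ico 1 2 = {1} := rfl
    rw [this, Finset.sum_singleton]
    norm_num
  rw [h1, one_mul] at h
  exact (sq_nonneg _).trans h

private theorem energyL_row {m : ℕ} (y : Fin m → ℂ) (hy : ∀ l, ‖y l‖ ≤ 1)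
    (h0 : ∀ l, y l ≠ 0) (τ : Fin m → ℝ) (hτ : ∀ l, 0 < τ l) (hτδ : ∀ l, -Real.log ‖y l‖ ≤ τ l) :
    IE (fun l => pt (τ l) (y l).arg) (fun l => pt (τ l) (y l).arg) ≤
      ∑ l, VV y 0 (pt (τ l) (y l).arg) + m * ∑ l, (τ l - -Real.log ‖y l‖) := by
  have hX : ∀ l, ‖pt (τ l) (y l).arg‖ < 1 := fun l => norm_pt_lt (hτ l) _
  have heq : ∀ l, pt (τ l) (y l).arg =
      (Real.exp (-(τ l - -Real.log ‖y l‖)) : ℂ) * y l := by
    intro l
    rw [← P5.pt_eq (τ l - -Real.log ‖y l‖) (h0 l)]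
    congr 1
    ring
  have hrow : ∀ l, ∑ l', ker 0 (pt (τ l) (y l).arg) (pt (τ l') (y l').arg) ≤
      VV y 0 (pt (τ l) (y l).arg) + ∑ l', (τ l' - -Real.log ‖y l'‖) := by
    intro l
    have h1 : ∀ l', ker 0 (pt (τ l) (y l).arg) (pt (τ l') (y l').arg) ≤
        -Real.log ‖1 - pt (τ l) (y l).arg * starRingEnd ℂ (y l')‖ + (τ l' - -Real.log ‖y l'‖) := by
      intro l'
      rw [ker_zero_symm]
      have h2 : y l' * starRingEnd ℂ (pt (τ l) (y l).arg) ≠ 1 := by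
        intro h3
        have h4 : ‖y l' * starRingEnd ℂ (pt (τ l) (y l).arg)‖ = 1 := by rw [h3, norm_one]
        rw [norm_mul, RCLike.norm_conj] at h4
        have h5 := hX l
        have h6 := hy l'
        nlinarith [norm_nonneg (y l'), norm_nonneg (pt (τ l) (y l).arg)]
      have h3 := ker_zero_le_add (τ l' - -Real.log ‖y l'‖) (y l') (pt (τ l) (y l).arg)
        (by linarith [hτδ l']) (hy l') (hX l).le h2
      rw [ker_zero_symm (y l') (pt (τ l) (y l).arg), ker_zero_eq (pt (τ l) (y l).arg) (y l')] at h3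
      rw [heq l']
      exact h3
    calc ∑ l', ker 0 (pt (τ l) (y l).arg) (pt (τ l') (y l').arg)
        ≤ ∑ l', (-Real.log ‖1 - pt (τ l) (y l).arg * starRingEnd ℂ (y l')‖ +
            (τ l' - -Real.log ‖y l'‖)) :=
          sum_le_sum fun l' _ => h1 l'
      _ = VV y 0 (pt (τ l) (y l).arg) + ∑ l', (τ l' - -Real.log ‖y l'‖) := by
          unfold VV
          rw [sum_add_distrib, sum_neg_distrib, zero_sub]
  unfold IE
  calc ∑ l, ∑ l', ker 0 (pt (τ l) (y l).arg) (pt (τ l') (y l').arg)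
      ≤ ∑ l, (VV y 0 (pt (τ l) (y l).arg) + ∑ l', (τ l' - -Real.log ‖y l'‖)) :=
        sum_le_sum fun l _ => hrow l
    _ = ∑ l, VV y 0 (pt (τ l) (y l).arg) + m * ∑ l, (τ l - -Real.log ‖y l‖) := by
        rw [sum_add_distrib, sum_const, card_univ, Fintype.card_fin, nsmul_eq_mul]

theorem energy_mainF {m : ℕ} (hm : 0 < m) (y : Fin m → ℂ) (hy : ∀ l, ‖y l‖ ≤ 1)
    (h0 : ∀ l, y l ≠ 0) (c : ℕ → ℂ) (N : ℕ)
    (W : ℂ → ℝ) (hWi : CircleIntegrable W 0 1)
    (hWV : ∀ ζ : ℂ, ‖ζ‖ = 1 → |VV y 0 ζ - LL c N ζ| ≤ W ζ)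
    (B : ℝ) (hB : 1 ≤ B) (s : ℂ → ℝ) (hs : ∀ z, s z = (2 : ℝ) ^ (JJ W m z) / (m * B))
    (lam : ℝ) (hlam : 2 ≤ lam) (R : ℝ)
    (hR : R = ∑ l, (2 : ℝ) ^ (JJ W m (y l)) + m * ∑ l, s (y l) + m * ∑ l, -Real.log ‖y l‖) :
    IE (fun l => sm s (y l)) (fun l => sm s (y l)) ≤
      DL c N + 4 * R + Real.log B / Real.log lam * (DL c N + 5 * lam * R) := by
  have hW0 : ∀ ζ : ℂ, ‖ζ‖ = 1 → 0 ≤ W ζ := fun ζ hζ => (abs_nonneg _).trans (hWV ζ hζ)
  have hm' : (0 : ℝ) < m := by exact_mod_cast hm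
  have hB0 : 0 < B := by linarith
  have hlB : 0 ≤ Real.log B := Real.log_nonneg hB
  have hspos : ∀ z, 0 < s z := fun z => by rw [hs]; positivity
  have hδ : ∀ l, 0 ≤ -Real.log ‖y l‖ := fun l => by
    rw [neg_nonneg]
    exact Real.log_nonpos (norm_nonneg _) (hy l)
  have hD : 0 ≤ DL c N := DL_nonneg c N
  set s' : Fin m → ℝ := fun l => s (y l) + -Real.log ‖y l‖ with hs'
  have hs'0 : ∀ l, 0 < s' l := fun l => by
    have := hspos (y l)
    have := hδ l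
    simp only [hs']
    linarith
  set τ : Fin m → ℝ := fun l => max ((2 : ℝ) ^ (JJ W m (y l)) / m) (s' l) with hτ
  have hτ1 : ∀ l, (2 : ℝ) ^ (JJ W m (y l)) / m ≤ τ l := fun l => le_max_left _ _
  have hτ2 : ∀ l, s' l ≤ τ l := fun l => le_max_right _ _
  have hτ0 : ∀ l, 0 < τ l := fun l => (hs'0 l).trans_le (hτ2 l)
  have hs'δ : ∀ l, -Real.log ‖y l‖ ≤ s' l := fun l => by
    simp only [hs']
    linarith [hspos (y l)]
  have hτδ : ∀ l, -Real.log ‖y l‖ ≤ τ l := fun l => (hs'δ l).trans (hτ2 l)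
  -- abbreviations
  set Y : Fin m → ℂ := fun l => pt (τ l) (y l).arg with hY
  set Y' : Fin m → ℂ := fun l => pt (lam * τ l) (y l).arg with hY'
  set X : Fin m → ℂ := fun l => pt (s' l) (y l).arg with hX
  have hYn : ∀ l, ‖Y l‖ < 1 := fun l => norm_pt_lt (hτ0 l) _
  have hY'n : ∀ l, ‖Y' l‖ < 1 := fun l => norm_pt_lt (by have := hτ0 l; positivity) _
  set S : ℝ := m * ∑ l, τ l with hS
  have hsumτ : 0 ≤ ∑ l, τ l := sum_nonneg fun l _ => (hτ0 l).le
  have hS0 : 0 ≤ S := by positivity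
  have hsumδ : 0 ≤ ∑ l, -Real.log ‖y l‖ := sum_nonneg fun l _ => hδ l
  have hmδ : 0 ≤ (m : ℝ) * ∑ l, -Real.log ‖y l‖ := by positivity
  -- (a)
  have ha : ∀ l, VV y 0 (Y l) ≤ LL c N (Y l) + m * τ l := by
    intro l
    have h1 := abs_sub_le_PP y hy c N W hWi hWV (Y l) (hYn l)
    have h2 := energyL_PP_good hm W hWi hW0 (y l) (τ l) (hτ1 l)
    have h3 := (abs_le.1 h1).2
    have h4 : PP W (Y l) ≤ m * τ l := h2
    linarith
  -- (b)
  have hb : IE Y Y ≤ ∑ l, VV y 0 (Y l) + S := by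
    have h1 := energyL_row y hy h0 τ hτ0 hτδ
    rw [sum_sub_distrib, mul_sub] at h1
    linarith
  -- (c)
  set q : ℝ := IE Y Y with hq
  have hq0 : 0 ≤ q := energyL_IE_nonneg Y hYn
  have hcs := sum_LL_sq_le Y hYn c N
  have hLq : ∑ l, LL c N (Y l) ≤ (DL c N + q) / 2 := by
    refine (abs_le_of_sq_le_sq' ?_ (by positivity)).2
    have : DL c N * q ≤ ((DL c N + q) / 2) ^ 2 := by nlinarith [sq_nonneg (DL c N - q)]
    exact hcs.trans this
  have hVY : ∑ l, VV y 0 (Y l) ≤ ∑ l, LL c N (Y l) + S := by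
    calc ∑ l, VV y 0 (Y l) ≤ ∑ l, (LL c N (Y l) + m * τ l) := sum_le_sum fun l _ => ha l
      _ = ∑ l, LL c N (Y l) + S := by rw [sum_add_distrib, ← mul_sum]
  have hqle : q ≤ DL c N + 4 * S := by linarith
  have hVY2 : ∑ l, VV y 0 (Y l) ≤ DL c N + 3 * S := by linarith
  -- (d)
  have hlam0 : 0 < lam := by linarith
  have hd : -∑ l, VV y 0 (Y' l) ≤ lam * S := by
    have h1 := energyL_row y hy h0 (fun l => lam * τ l) (fun l => by have := hτ0 l; positivity)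
      (fun l => by nlinarith [hτ0 l, hτδ l])
    have h2 : 0 ≤ IE Y' Y' := energyL_IE_nonneg Y' hY'n
    rw [sum_sub_distrib, mul_sub, ← mul_sum] at h1
    have h3 : (m : ℝ) * (lam * ∑ l, τ l) = lam * S := by rw [hS]; ring
    rw [h3] at h1
    have h4 : IE Y' Y' ≤ ∑ l, VV y 0 (Y' l) + (lam * S - m * ∑ l, -Real.log ‖y l‖) := h1
    linarith
  -- (e)
  have hll : 0 < Real.log lam := Real.log_pos (by linarith)
  have he : 1 / 2 * Real.log lam * ∑ l, τ l * KK y (Y l) ≤ DL c N + 3 * lam * S := by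
    have h1 : ∀ l, 1 / 2 * Real.log lam * (τ l * KK y (Y l)) ≤
        VV y 0 (Y l) - VV y 0 (Y' l) + (lam - 1) * (m * τ l / 2) := by
      intro l
      have h2 := VV_sub_ge y hy 0 (τ l) (lam * τ l) (y l).arg (hτ0 l) (by nlinarith [hτ0 l])
      have e1 : lam * τ l / τ l = lam := by
        have := (hτ0 l).ne'
        field_simp
      rw [e1] at h2
      have h3 : 1 / 2 * (τ l * KK y (Y l)) * Real.log lam - m * (lam * τ l - τ l) / 2 ≤
        VV y 0 (Y l) - VV y 0 (Y' l) := h2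
      linarith
    have h2 := sum_le_sum fun l (_ : l ∈ (univ : Finset (Fin m))) => h1 l
    rw [← mul_sum, sum_add_distrib, sum_sub_distrib] at h2
    have h3 : ∑ l, (lam - 1) * ((m : ℝ) * τ l / 2) = (lam - 1) * (S / 2) := by
      rw [hS, ← mul_sum]
      congr 1
      rw [mul_sum, sum_div]
    rw [h3] at h2
    have h4 : 2 * S ≤ lam * S := mul_le_mul_of_nonneg_right hlam hS0
    linarith
  -- (f)
  have hKK : ∀ l, 0 ≤ τ l * KK y (Y l) := fun l =>
    mul_nonneg (hτ0 l).le (KK_nonneg y hy (τ l) _ (hτ0 l))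
  have hf : ∀ l, VV y 0 (X l) ≤ VV y 0 (Y l) + 1 / 2 * Real.log B * (τ l * KK y (Y l)) := by
    intro l
    have hle := VV_sub_le y hy 0 (s' l) (τ l) (y l).arg (hs'0 l) (hτ2 l)
    have hlr : Real.log (τ l / s' l) ≤ Real.log B := by
      have h0' := hs'0 l
      refine Real.log_le_log (div_pos (hτ0 l) h0') ?_
      rw [div_le_iff₀ h0']
      have h3 : B * s (y l) = (2 : ℝ) ^ (JJ W m (y l)) / m := by
        rw [hs]; field_simp
      have h4 := hδ l
      have h5 : s' l = s (y l) + -Real.log ‖y l‖ := rfl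
      refine max_le ?_ ?_
      · rw [h5, mul_add, h3]
        have : 0 ≤ B * -Real.log ‖y l‖ := mul_nonneg hB0.le h4
        linarith
      · nlinarith
    have h6 : 1 / 2 * (τ l * KK y (Y l)) * Real.log (τ l / s' l) ≤
        1 / 2 * (τ l * KK y (Y l)) * Real.log B :=
      mul_le_mul_of_nonneg_left hlr (by have := hKK l; positivity)
    have h7 : VV y 0 (X l) - VV y 0 (Y l) ≤
        1 / 2 * (τ l * KK y (Y l)) * Real.log (τ l / s' l) := hle
    linarith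
  have hVX : ∑ l, VV y 0 (X l) ≤ ∑ l, VV y 0 (Y l) +
      1 / 2 * Real.log B * ∑ l, τ l * KK y (Y l) := by
    calc ∑ l, VV y 0 (X l) ≤ ∑ l, (VV y 0 (Y l) + 1 / 2 * Real.log B * (τ l * KK y (Y l))) :=
          sum_le_sum fun l _ => hf l
      _ = _ := by rw [sum_add_distrib, ← mul_sum]
  -- (g)
  have hsm : (fun l => sm s (y l)) = X := by
    funext l
    have := P5.pt_eq (s (y l)) (h0 l)
    simp only [hX, hs']
    rw [this]
    rfl
  have hg : IE X X ≤ ∑ l, VV y 0 (X l) + m * ∑ l, s (y l) := by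
    have h1 := energyL_row y hy h0 s' hs'0 hs'δ
    have h2 : ∑ l, (s' l - -Real.log ‖y l‖) = ∑ l, s (y l) := by
      refine sum_congr rfl fun l _ => ?_
      simp only [hs']
      ring
    rw [h2] at h1
    exact h1
  rw [hsm]
  have hSR : S ≤ ∑ l, (2 : ℝ) ^ (JJ W m (y l)) + m * ∑ l, s (y l) +
      m * ∑ l, -Real.log ‖y l‖ := by
    have h1 : ∀ l, τ l ≤ (2 : ℝ) ^ (JJ W m (y l)) / m + s (y l) + -Real.log ‖y l‖ := by
      intro l
      have h2 : (0 : ℝ) ≤ (2 : ℝ) ^ (JJ W m (y l)) / m := by positivity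
      have h3 := hs'0 l
      have h5 : s' l = s (y l) + -Real.log ‖y l‖ := rfl
      exact max_le (by linarith) (by linarith)
    have h2 := sum_le_sum fun l (_ : l ∈ (univ : Finset (Fin m))) => h1 l
    rw [sum_add_distrib, sum_add_distrib, ← sum_div] at h2
    have h3 := mul_le_mul_of_nonneg_left h2 hm'.le
    calc S ≤ m * ((∑ l, (2 : ℝ) ^ (JJ W m (y l))) / m + ∑ l, s (y l) + ∑ l, -Real.log ‖y l‖) := h3
      _ = _ := by field_simp
  have hS2 : 0 ≤ (m : ℝ) * ∑ l, s (y l) := mul_nonneg hm'.le (sum_nonneg fun l _ => (hspos _).le)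
  have hS1 : 0 ≤ ∑ l, (2 : ℝ) ^ (JJ W m (y l)) := sum_nonneg fun l _ => by positivity
  rw [← hR] at hSR
  have hR0 : 0 ≤ R := hS0.trans hSR
  have hsR : (m : ℝ) * ∑ l, s (y l) ≤ R := by rw [hR]; linarith
  have hK2 : 1 / 2 * Real.log B * ∑ l, τ l * KK y (Y l) ≤
      Real.log B / Real.log lam * (DL c N + 3 * lam * S) := by
    have h1 : 1 / 2 * Real.log B * ∑ l, τ l * KK y (Y l) =
        Real.log B / Real.log lam * (1 / 2 * Real.log lam * ∑ l, τ l * KK y (Y l)) := by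
      field_simp
    rw [h1]
    exact mul_le_mul_of_nonneg_left he (by positivity)
  have h3 : Real.log B / Real.log lam * (DL c N + 3 * lam * S) ≤
      Real.log B / Real.log lam * (DL c N + 5 * lam * R) := by
    apply mul_le_mul_of_nonneg_left _ (by positivity)
    have h4 : lam * S ≤ lam * R := mul_le_mul_of_nonneg_left hSR hlam0.le
    have h5 : 0 ≤ lam * R := by positivity
    linarith
  linarith

end Pool.Agent.Lib.MP_7ab245_nt.LgE
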