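import Mathlib
import Pool.Agent.Lib.MP_7ab245_nt.LgE.EE
import Pool.Agent.Lib.MP_7ab245_nt.LgE.CountF
import Pool.Agent.Lib.MP_7ab245_nt.LgE.EnergyF
import Pool.Agent.Lib.MP_7ab245_nt.TrE.AnaL

/-! Choice of the smoothing of the points. -/

set_option autoImplicit false

open Polynomial Finset

namespace Pool.Agent.Lib.MP_7ab245_nt.LgE

open Pool.Agent.Lib.MP_7ab245_nt.Len
open Pool.Agent.Lib.MP_7ab245_nt.L1
open Pool.Agent.Lib.MP_7ab245_nt.TrE

/-- `|V - L|` summed over the rotations by the fourth roots of unity -/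
private noncomputable def anaF_W {m : ℕ} (y : Fin m → ℂ) (c : ℕ → ℂ) (N : ℕ) (ζ : ℂ) : ℝ :=
  ∑ k ∈ Finset.range 4, |VV y 0 (Complex.I ^ k * ζ) - LL c N (Complex.I ^ k * ζ)|

private theorem anaF_W_rot {m : ℕ} (y : Fin m → ℂ) (c : ℕ → ℂ) (N : ℕ) (ζ : ℂ) :
    anaF_W y c N (Complex.I * ζ) = anaF_W y c N ζ := by
  unfold anaF_W
  simp only [Finset.sum_range_succ, Finset.sum_range_zero, zero_add]
  have h0 : Complex.I ^ 0 * (Complex.I * ζ) = Complex.I ^ 1 * ζ := by ring
  have h1 : Complex.I ^ 1 * (Complex.I * ζ) = Complex.I ^ 2 * ζ := by ring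
  have h2 : Complex.I ^ 2 * (Complex.I * ζ) = Complex.I ^ 3 * ζ := by ring
  have h3 : Complex.I ^ 3 * (Complex.I * ζ) = Complex.I ^ 0 * ζ := by
    have : Complex.I ^ 3 * (Complex.I * ζ) = Complex.I ^ 4 * ζ := by ring
    rw [this, Complex.I_pow_four, pow_zero]
  rw [h0, h1, h2, h3]
  ring

private theorem anaF_W_neg {m : ℕ} (y : Fin m → ℂ) (c : ℕ → ℂ) (N : ℕ) (ζ : ℂ) :
    anaF_W y c N (-ζ) = anaF_W y c N ζ := by
  have h : -ζ = Complex.I * (Complex.I * ζ) := by
    rw [← mul_assoc, Complex.I_mul_I]; ring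
  rw [h, anaF_W_rot, anaF_W_rot]

private theorem anaF_le_W {m : ℕ} (y : Fin m → ℂ) (c : ℕ → ℂ) (N : ℕ) (ζ : ℂ) :
    |VV y 0 ζ - LL c N ζ| ≤ anaF_W y c N ζ := by
  unfold anaF_W
  have h := Finset.single_le_sum
    (f := fun k : ℕ => |VV y 0 (Complex.I ^ k * ζ) - LL c N (Complex.I ^ k * ζ)|)
    (s := Finset.range 4) (fun k _ => abs_nonneg _) (Finset.mem_range.mpr (show 0 < 4 by norm_num))
  simpa using h

private theorem anaF_W_nonneg {m : ℕ} (y : Fin m → ℂ) (c : ℕ → ℂ) (N : ℕ) (ζ : ℂ) :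
    0 ≤ anaF_W y c N ζ :=
  (abs_nonneg _).trans (anaF_le_W y c N ζ)

private theorem anaF_int_VV {m : ℕ} (y : Fin m → ℂ) (ω : ℂ) :
    CircleIntegrable (fun ζ => VV y 0 (ω * ζ)) 0 1 := by
  have h : (fun ζ => VV y 0 (ω * ζ)) = fun ζ => VV (fun l => starRingEnd ℂ ω * y l) 0 ζ := by
    funext ζ
    rw [ana_VV_rot]
  rw [h]
  exact circleIntegrable_VV _

private theorem anaF_int_abs {m : ℕ} (y : Fin m → ℂ) (c : ℕ → ℂ) (N : ℕ) (ω : ℂ) :
    CircleIntegrable (fun ζ => |VV y 0 (ω * ζ) - LL c N (ω * ζ)|) 0 1 := by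
  have h1 : CircleIntegrable (fun ζ => LL c N (ω * ζ)) 0 1 :=
    ((continuous_LL c N).comp (continuous_const.mul continuous_id)).continuousOn.circleIntegrable
      (by norm_num)
  exact ((anaF_int_VV y ω).sub h1).abs

private theorem anaF_int_W {m : ℕ} (y : Fin m → ℂ) (c : ℕ → ℂ) (N : ℕ) :
    CircleIntegrable (anaF_W y c N) 0 1 := by
  have h : anaF_W y c N = ∑ k ∈ Finset.range 4,
      fun ζ => |VV y 0 (Complex.I ^ k * ζ) - LL c N (Complex.I ^ k * ζ)| := by
    funext ζ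
    rw [Finset.sum_apply]
    rfl
  rw [h]
  exact CircleIntegrable.sum _ fun k _ => anaF_int_abs y c N _

private theorem anaF_average_W {m : ℕ} (y : Fin m → ℂ) (c : ℕ → ℂ) (N : ℕ) :
    Real.circleAverage (anaF_W y c N) 0 1 = 4 * kapL y c N := by
  have h : anaF_W y c N = ∑ k ∈ Finset.range 4,
      fun ζ => |VV y 0 (Complex.I ^ k * ζ) - LL c N (Complex.I ^ k * ζ)| := by
    funext ζ
    rw [Finset.sum_apply]
    rfl
  rw [h, Real.circleAverage_sum (fun k _ => anaF_int_abs y c N _)]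
  have h2 : ∀ k ∈ Finset.range 4, Real.circleAverage
      (fun ζ => |VV y 0 (Complex.I ^ k * ζ) - LL c N (Complex.I ^ k * ζ)|) 0 1 = kapL y c N := by
    intro k _
    exact ana_average_rot (fun ζ => |VV y 0 ζ - LL c N ζ|) k
  rw [Finset.sum_congr rfl h2]
  simp

private theorem anaF_mu (X a : ℝ) (hX : 0 < X) (ha : 0 ≤ a) :
    (1 + Real.sqrt (a / X)) * X = X + Real.sqrt (X * a) := by
  have h1 : Real.sqrt (a / X) * X = Real.sqrt (X * a) := by
    have h2 : Real.sqrt (X * a) = Real.sqrt (a / X * X ^ 2) := by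
      congr 1; field_simp
    rw [h2, Real.sqrt_mul (by positivity), Real.sqrt_sq hX.le]
  rw [add_mul, one_mul, h1]

private theorem anaF_div (X a : ℝ) (hX : 0 < X) (ha : 0 ≤ a) :
    a / (1 + Real.sqrt (a / X)) ≤ Real.sqrt (X * a) := by
  have hs : 0 ≤ Real.sqrt (a / X) := Real.sqrt_nonneg _
  rw [div_le_iff₀ (by positivity)]
  have h1 : Real.sqrt (X * a) * Real.sqrt (a / X) = a := by
    rw [← Real.sqrt_mul (by positivity)]
    have : X * a * (a / X) = a ^ 2 := by field_simp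
    rw [this, Real.sqrt_sq ha]
  rw [mul_add, mul_one, h1]
  linarith [Real.sqrt_nonneg (X * a)]

theorem analysis_mainF : ∃ C : ℝ, 1 ≤ C ∧ ∀ (m : ℕ) (y : Fin m → ℂ), 0 < m →
    (∀ l, ‖y l‖ ≤ 1) → (∀ l, y l ≠ 0) → ∀ (c : ℕ → ℂ) (N : ℕ) (X a : ℝ),
    1 + kapL y c N + ∑ l, -Real.log ‖y l‖ ≤ X → DL c N / m ≤ a →
    ∀ B : ℝ, 1 ≤ B → a / X ≤ B ^ 2 →
    ∃ s : ℂ → ℝ, (∀ z, 0 < s z) ∧ (∀ z, s (Complex.I * z) = s z) ∧
      ∑ l, s (y l) ≤ C * EE X a / B ∧
      (∀ ρ : Fin m → ℂ, (∀ l, ρ l ^ 2 = y l) → ∑ l, s (ρ l) ≤ C * EE X a / B) ∧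
      IE (fun l => sm s (y l)) (fun l => sm s (y l)) ≤ C * m * EE X a * (1 + Real.log B) := by
  refine ⟨100000000, by norm_num, ?_⟩
  intro m y hm hy h0 c N X a hXK hDa B hB haB
  set W : ℂ → ℝ := anaF_W y c N with hW
  set W' : ℂ → ℝ := fun ζ => W ζ + TT W ζ with hW'
  have hWi : CircleIntegrable W 0 1 := anaF_int_W y c N
  have hWn : ∀ ζ : ℂ, ‖ζ‖ = 1 → W (-ζ) = W ζ := fun ζ _ => anaF_W_neg y c N ζ
  have hTi : CircleIntegrable (TT W) 0 1 := circleIntegrable_TT W hWi hWn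
  have hWi' : CircleIntegrable W' 0 1 := hWi.add hTi
  have hW0 : ∀ ζ : ℂ, 0 ≤ W ζ := anaF_W_nonneg y c N
  have hT0 : ∀ ζ : ℂ, 0 ≤ TT W ζ := fun ζ => mul_nonneg (by norm_num) (hW0 _)
  have hWV : ∀ ζ : ℂ, ‖ζ‖ = 1 → |VV y 0 ζ - LL c N ζ| ≤ W ζ := fun ζ _ => anaF_le_W y c N ζ
  have hWV' : ∀ ζ : ℂ, ‖ζ‖ = 1 → |VV y 0 ζ - LL c N ζ| ≤ W' ζ := fun ζ _ =>
    (anaF_le_W y c N ζ).trans (le_add_of_nonneg_right (hT0 ζ))
  have hmean : Real.circleAverage W' 0 1 = 12 * kapL y c N := by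
    have h1 : Real.circleAverage W' 0 1 =
        Real.circleAverage W 0 1 + Real.circleAverage (TT W) 0 1 :=
      Real.circleAverage_add hWi hTi
    rw [h1, circleAverage_TT W hWi hWn, anaF_average_W]
    ring
  set δ : ℝ := ∑ l, -Real.log ‖y l‖ with hδ
  have hδ0 : 0 ≤ δ := Finset.sum_nonneg fun l _ => by
    have := Real.log_nonpos (norm_nonneg (y l)) (hy l)
    linarith
  have hk0 : 0 ≤ kapL y c N := kapL_nonneg y c N
  have hm0 : (0 : ℝ) < m := by exact_mod_cast hm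
  have hD0 : 0 ≤ DL c N := DL_nonneg c N
  have hDm0 : 0 ≤ DL c N / m := by positivity
  have ha0 : 0 ≤ a := hDm0.trans hDa
  have hX1 : 1 ≤ X := by linarith
  have hX0 : 0 < X := by linarith
  set E : ℝ := EE X a with hE
  have hXE : X ≤ E := le_EE X a hX0 ha0
  have hE0 : 0 < E := by linarith
  set q : ℝ := Real.sqrt (a / X) with hq
  have hq0 : 0 ≤ q := Real.sqrt_nonneg _
  set S : ℝ := X + Real.sqrt (X * a) with hS
  have hSE : S ≤ 3 * E := sqrt_le_EE X a hX0 ha0
  have hsq0 : 0 ≤ Real.sqrt (X * a) := Real.sqrt_nonneg _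
  have hXS : X ≤ S := by linarith
  have hS0 : 0 < S := by linarith
  have hμ : (1 : ℝ) ≤ 1 + q := by linarith
  have hμ0 : (0 : ℝ) < 1 + q := by linarith
  have hcount := count_mainF hm y hy h0 c N W' hWi' hWV' (1 + q) hμ
  rw [hmean] at hcount
  have hB0 : (0 : ℝ) < B := by linarith
  have hcount' : ∑ l, (2 : ℝ) ^ (JJ W' m (y l)) ≤ 52000 * m * S := by
    refine hcount.trans ?_
    have h1 : (1 + q) * X = S := anaF_mu X a hX0 ha0
    have h2 : DL c N / (m * (1 + q)) ≤ Real.sqrt (X * a) := by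
      calc DL c N / (m * (1 + q)) = DL c N / m / (1 + q) := by rw [div_div]
        _ ≤ a / (1 + q) := div_le_div_of_nonneg_right hDa hμ0.le
        _ ≤ _ := anaF_div X a hX0 ha0
    have h3 : 1 + (1 + q) * (12 * kapL y c N) + δ ≤ 12 * S := by
      rw [← h1]
      have h4 : 1 + kapL y c N + δ ≤ X := hXK
      have h5 : (1 + q) * (1 + kapL y c N + δ) ≤ (1 + q) * X :=
        mul_le_mul_of_nonneg_left h4 hμ0.le
      have h6 : 1 + (1 + q) * (12 * kapL y c N) + δ ≤ 12 * ((1 + q) * (1 + kapL y c N + δ)) := by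
        nlinarith [mul_nonneg hq0 hδ0, mul_nonneg hq0 hk0]
      linarith
    have h7 : 1 + (1 + q) * (12 * kapL y c N) + DL c N / (m * (1 + q)) + δ ≤ 13 * S := by
      linarith
    calc 4000 * (m : ℝ) * (1 + (1 + q) * (12 * kapL y c N) + DL c N / (m * (1 + q)) + δ)
        ≤ 4000 * (m : ℝ) * (13 * S) := mul_le_mul_of_nonneg_left h7 (by positivity)
      _ = 52000 * m * S := by ring
  have hJ1 : ∀ l, JJ W m (y l) ≤ JJ W' m (y l) := fun l =>
    ana_JJ_le W W' hWi hWi' (fun ζ _ => hW0 ζ) (fun ζ _ => le_add_of_nonneg_right (hT0 ζ)) m hm _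
  have hJ2 : ∀ ρ : ℂ, ρ ≠ 0 → JJ W m ρ ≤ JJ W' m (ρ ^ 2) := fun ρ hρ =>
    ana_JJ_sq W W' hWi hWi' (fun ζ _ => hW0 ζ) hWn
      (fun ζ _ => le_add_of_nonneg_left (hW0 ζ)) m hm ρ hρ
  have hsumJ : ∀ g : Fin m → ℕ, (∀ l, g l ≤ JJ W' m (y l)) →
      ∑ l, (2 : ℝ) ^ (g l) ≤ 52000 * m * S := by
    intro g hg
    refine le_trans (Finset.sum_le_sum fun l _ => ?_) hcount'
    exact pow_le_pow_right₀ (by norm_num) (hg l)
  have hsum : ∀ g : Fin m → ℕ, (∀ l, g l ≤ JJ W' m (y l)) →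
      ∑ l, (2 : ℝ) ^ (g l) / (m * B) ≤ 52000 * S / B := by
    intro g hg
    rw [← Finset.sum_div, div_le_div_iff₀ (by positivity) hB0]
    have := hsumJ g hg
    nlinarith
  have hlog : 0 ≤ Real.log B := Real.log_nonneg hB
  have hC : 52000 * S / B ≤ 100000000 * E / B := by
    apply div_le_div_of_nonneg_right _ hB0.le
    nlinarith
  refine ⟨fun z => (2 : ℝ) ^ (JJ W m z) / (m * B), ?_, ?_, ?_, ?_, ?_⟩
  · intro z; positivity
  · intro z
    simp only
    rw [ana_JJ_rot W (fun ζ _ => anaF_W_rot y c N ζ) m hm z]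
  · exact (hsum _ hJ1).trans hC
  · intro ρ hρ
    refine (hsum (fun l => JJ W m (ρ l)) fun l => ?_).trans hC
    have h1 : ρ l ≠ 0 := by
      intro h
      apply h0 l
      rw [← hρ l, h]
      norm_num
    have := hJ2 (ρ l) h1
    rwa [hρ l] at this
  · set lam : ℝ := 2 + Real.sqrt (Real.sqrt (a / X)) with hlam
    have hlam2 : 2 ≤ lam := by
      have := Real.sqrt_nonneg (Real.sqrt (a / X))
      linarith
    have hloglam : 0 < Real.log lam := Real.log_pos (by linarith)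
    set R : ℝ := ∑ l, (2 : ℝ) ^ (JJ W m (y l)) +
      m * ∑ l, (2 : ℝ) ^ (JJ W m (y l)) / (m * B) + m * ∑ l, -Real.log ‖y l‖ with hR
    have h1 := energy_mainF hm y hy h0 c N W hWi hWV B hB
      (fun z => (2 : ℝ) ^ (JJ W m z) / (m * B)) (fun z => rfl) lam hlam2 R hR
    refine h1.trans ?_
    have h2 := hsumJ _ hJ1
    have h3 : (m : ℝ) * ∑ l, (2 : ℝ) ^ (JJ W m (y l)) / (m * B) ≤ 52000 * m * S := by
      have h4 := hsum _ hJ1
      have h5 : 52000 * S / B ≤ 52000 * S := div_le_self (by positivity) hB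
      calc (m : ℝ) * ∑ l, (2 : ℝ) ^ (JJ W m (y l)) / (m * B)
          ≤ m * (52000 * S) := mul_le_mul_of_nonneg_left (h4.trans h5) hm0.le
        _ = 52000 * m * S := by ring
    have h4 : (m : ℝ) * ∑ l, -Real.log ‖y l‖ ≤ m * S := by
      refine mul_le_mul_of_nonneg_left ?_ hm0.le
      have : δ ≤ X := by linarith
      linarith
    have hRS : R ≤ 104001 * (m * S) := by
      rw [hR]; linarith
    have h6 : DL c N ≤ m * a := by
      have h7 : DL c N = m * (DL c N / m) := by field_simp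
      rw [h7]
      exact mul_le_mul_of_nonneg_left hDa hm0.le
    -- the energy term with the logarithm
    have h8 : Real.log B / Real.log lam * (DL c N + 5 * lam * R) ≤
        52000500 * (m * E) * Real.log B := by
      have h9 := energy_choice X a hX0 ha0
      rw [← hlam, ← hS, ← hE] at h9
      have h10 : DL c N + 5 * lam * R ≤ 520005 * m * (a + lam * S) := by
        have h11 : 5 * lam * R ≤ 5 * lam * (104001 * (m * S)) :=
          mul_le_mul_of_nonneg_left hRS (by positivity)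
        have h12 : 0 ≤ (m : ℝ) * a := by positivity
        nlinarith
      calc Real.log B / Real.log lam * (DL c N + 5 * lam * R)
          ≤ Real.log B / Real.log lam * (520005 * m * (a + lam * S)) :=
            mul_le_mul_of_nonneg_left h10 (by positivity)
        _ = 520005 * m * Real.log B * (1 / Real.log lam * (a + lam * S)) := by ring
        _ ≤ 520005 * m * Real.log B * (100 * E) :=
            mul_le_mul_of_nonneg_left h9 (by positivity)
        _ = 52000500 * (m * E) * Real.log B := by ring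
    -- the energy of `c`
    have h13 : DL c N ≤ (m * E) * (2 + 2 * Real.log B) := by
      have hr0 : 0 ≤ a / X := by positivity
      have hlr : 0 < Real.log (2 + a / X) := Real.log_pos (by linarith)
      have h14 : a / Real.log (2 + a / X) ≤ E := by
        rw [hE]; unfold EE; linarith
      have h15 : a ≤ E * Real.log (2 + a / X) := by
        rwa [div_le_iff₀ hlr] at h14
      have h16 : Real.log (2 + a / X) ≤ 2 + 2 * Real.log B := by
        have h17 : 2 + a / X ≤ 3 * B ^ 2 := by nlinarith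
        calc Real.log (2 + a / X) ≤ Real.log (3 * B ^ 2) :=
              Real.log_le_log (by positivity) h17
          _ = Real.log 3 + 2 * Real.log B := by
              rw [Real.log_mul (by norm_num) (by positivity), Real.log_pow]; norm_num
          _ ≤ 2 + 2 * Real.log B := by
              have := Real.log_le_sub_one_of_pos (show (0 : ℝ) < 3 by norm_num)
              linarith
      calc DL c N ≤ m * a := h6
        _ ≤ m * (E * Real.log (2 + a / X)) := mul_le_mul_of_nonneg_left h15 hm0.le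
        _ ≤ m * (E * (2 + 2 * Real.log B)) := by
            refine mul_le_mul_of_nonneg_left ?_ hm0.le
            exact mul_le_mul_of_nonneg_left h16 hE0.le
        _ = (m * E) * (2 + 2 * Real.log B) := by ring
    have h18 : 4 * R ≤ 1248012 * (m * E) := by
      have : (m : ℝ) * S ≤ m * (3 * E) := mul_le_mul_of_nonneg_left hSE hm0.le
      linarith
    have hmE : 0 ≤ (m : ℝ) * E := by positivity
    have hmEl : 0 ≤ (m : ℝ) * E * Real.log B := by positivity
    calc DL c N + 4 * R + Real.log B / Real.log lam * (DL c N + 5 * lam * R)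
        ≤ (m * E) * (2 + 2 * Real.log B) + 1248012 * (m * E) +
          52000500 * (m * E) * Real.log B := by linarith
      _ ≤ 100000000 * m * E * (1 + Real.log B) := by nlinarith

end Pool.Agent.Lib.MP_7ab245_nt.LgE
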