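import Mathlib
import Pool.Agent.Lib.MP_7ab245_nt.LgE.Defs
import Pool.Agent.Lib.MP_7ab245_nt.TrE.PsiPJ

/-! A Poisson-Jensen inequality for `QT`. -/

set_option autoImplicit false

open Polynomial Finset

namespace Pool.Agent.Lib.MP_7ab245_nt.LgE

open Pool.Agent.Lib.MP_7ab245_nt.Len
open Pool.Agent.Lib.MP_7ab245_nt.L1
open Pool.Agent.Lib.MP_7ab245_nt.TrE

private theorem pj_exp_neg_VV {k : ℕ} (x : Fin k → ℂ) (z : ℂ)
    (h : ∀ j, 1 - z * starRingEnd ℂ (x j) ≠ 0) :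
    Real.exp (-(VV x 0 z)) = ∏ j, ‖1 - z * starRingEnd ℂ (x j)‖ := by
  unfold VV
  rw [zero_sub, neg_neg, Real.exp_sum]
  refine Finset.prod_congr rfl fun j _ => ?_
  rw [Real.exp_log (norm_pos_iff.2 (h j))]

private theorem pj_exp_VV {k : ℕ} (x : Fin k → ℂ) (z : ℂ)
    (h : ∀ j, 1 - z * starRingEnd ℂ (x j) ≠ 0) :
    Real.exp (VV x 0 z) * ∏ j, ‖1 - z * starRingEnd ℂ (x j)‖ = 1 := by
  rw [← pj_exp_neg_VV x z h, ← Real.exp_add]
  simp

private theorem pj_bad_finite {m : ℕ} (x : Fin m → ℂ) :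
    {ζ : ℂ | ∃ l, 1 - ζ * starRingEnd ℂ (x l) = 0}.Finite := by
  have h2 : {ζ : ℂ | ∃ l, 1 - ζ * starRingEnd ℂ (x l) = 0} ⊆
      Set.range (fun l => (starRingEnd ℂ (x l))⁻¹) := by
    rintro ζ ⟨l, hl⟩
    refine ⟨l, ?_⟩
    have h3 : ζ * starRingEnd ℂ (x l) = 1 := by linear_combination -hl
    exact (eq_inv_of_mul_eq_one_left h3).symm
  exact (Set.finite_range _).subset h2

private theorem pj_finite_codiscrete {S : Set ℂ} (hS : S.Finite) :
    Sᶜ ∈ Filter.codiscreteWithin (Metric.sphere (0 : ℂ) |1|) :=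
  Filter.codiscreteWithin_mono (Set.subset_univ _) hS.compl_mem_codiscrete

/-- monotonicity of the Poisson integral off a finite set -/
private theorem pj_PP_mono (W W' : ℂ → ℝ) (hWi : CircleIntegrable W 0 1) (hWi' : CircleIntegrable W' 0 1)
    (F : Set ℂ) (hF : F.Finite) (h : ∀ ζ : ℂ, ‖ζ‖ = 1 → ζ ∉ F → W ζ ≤ W' ζ) (z : ℂ) (hz : ‖z‖ < 1) :
    PP W z ≤ PP W' z := by
  classical
  set W'' : ℂ → ℝ := fun ζ => if ζ ∈ F then W ζ else W' ζ with hW''
  have hev : W' =ᶠ[Filter.codiscreteWithin (Metric.sphere (0 : ℂ) |1|)] W'' := by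
    filter_upwards [pj_finite_codiscrete hF] with ζ hζ
    rw [hW'']
    dsimp only
    rw [if_neg hζ]
  have hi : CircleIntegrable W'' 0 1 := CircleIntegrable.congr_codiscreteWithin hev hWi'
  have h1 : PP W z ≤ PP W'' z := by
    refine PP_mono W W'' hWi hi ?_ z hz
    intro ζ hζ
    rw [hW'']
    dsimp only
    split_ifs with hc
    · exact le_rfl
    · exact h ζ hζ hc
  have h2 : PP W'' z = PP W' z := by
    unfold PP
    refine Real.circleAverage_congr_codiscreteWithin ?_ one_ne_zero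
    filter_upwards [hev] with ζ hζ
    rw [hζ]
  rw [← h2]
  exact h1

private theorem pj_PP_const (c : ℝ) (z : ℂ) (hz : ‖z‖ < 1) : PP (fun _ => c) z = c := by
  have hz' : z ∈ Metric.ball (0 : ℂ) 1 := by simpa using hz
  have hh : InnerProductSpace.HarmonicOnNhd (fun _ : ℂ => c) (Metric.closedBall 0 1) := by
    intro ζ _
    exact InnerProductSpace.harmonicAt_const c
  exact hh.circleAverage_poissonKernel_smul hz'

private theorem pj_PP_neg (W : ℂ → ℝ) (z : ℂ) : PP (fun ζ => -W ζ) z = -PP W z := by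
  unfold PP
  have h4 : (fun ζ => poissonKernel 0 z ζ * (-W ζ)) =
      fun ζ => (-1 : ℝ) • (poissonKernel 0 z ζ * W ζ) := by
    funext ζ
    simp
  rw [h4, Real.circleAverage_fun_smul, smul_eq_mul, neg_one_mul]

/-- numerator of `QT` -/
private noncomputable def pj_T {n : ℕ} (α : Fin n → ℂ) (t : ℕ → ℂ) (m N : ℕ) : ℂ[X] :=
  (∑ l, Polynomial.C ((starRingEnd ℂ (α l)) ^ m) *
    ∏ j ∈ univ.erase l, (1 - X * Polynomial.C (starRingEnd ℂ (α j)))) -
  (∑ k ∈ Finset.Ico m N, Polynomial.C (t k) * X ^ (k - m)) *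
    ∏ j, (1 - X * Polynomial.C (starRingEnd ℂ (α j)))

private theorem pj_T_eval {n : ℕ} (α : Fin n → ℂ) (t : ℕ → ℂ) (m N : ℕ) (z : ℂ)
    (h : ∀ l, 1 - z * starRingEnd ℂ (α l) ≠ 0) :
    (pj_T α t m N).eval z = QT α t m N z * ∏ j, (1 - z * starRingEnd ℂ (α j)) := by
  unfold pj_T QT QQ
  rw [eval_sub, sub_mul, eval_finsetSum, eval_mul, eval_finsetSum, eval_prod]
  congr 1
  · rw [Finset.sum_mul]
    refine Finset.sum_congr rfl fun l _ => ?_
    rw [eval_mul, eval_C, eval_prod, ← Finset.mul_prod_erase univ _ (Finset.mem_univ l), ← mul_assoc,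
      div_mul_cancel₀ _ (h l)]
    congr 1
    refine Finset.prod_congr rfl fun j _ => ?_
    rw [eval_sub, eval_one, eval_mul, eval_X, eval_C]
  · congr 1
    · refine Finset.sum_congr rfl fun k _ => ?_
      rw [eval_mul, eval_C, eval_pow, eval_X]
    · refine Finset.prod_congr rfl fun j _ => ?_
      rw [eval_sub, eval_one, eval_mul, eval_X, eval_C]

private theorem pj_expLam {n : ℕ} (α : Fin n → ℂ) (t : ℕ → ℂ) (m N : ℕ) (z : ℂ)
    (h : ∀ l, 1 - z * starRingEnd ℂ (α l) ≠ 0) :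
    ‖QT α t m N z‖ * Real.exp (-(Lam α z)) =
      ‖(pj_T α t m N).eval z‖ * Real.exp (VV (fun l => Len.refl (α l)) 0 z - hh α) := by
  rw [pj_T_eval α t m N z h, norm_mul, norm_prod, ← pj_exp_neg_VV α z h, mul_assoc, ← Real.exp_add]
  congr 2
  unfold Lam
  ring

theorem QT_le_PP {n : ℕ} (α : Fin n → ℂ) (hα : ∀ l, α l ≠ 0) (t : ℕ → ℂ) (m N : ℕ) (W : ℂ → ℝ)
    (hWi : CircleIntegrable W 0 1) (K : ℝ) (hK : 0 < K)
    (hW : ∀ ζ : ℂ, ‖ζ‖ = 1 → (∀ l, 1 - ζ * starRingEnd ℂ (α l) ≠ 0) →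
      ‖QT α t m N ζ‖ ≤ K * Real.exp (W ζ)) (z : ℂ) (hz : ‖z‖ < 1)
    (h : ∀ l, 1 - z * starRingEnd ℂ (α l) ≠ 0) :
    ‖QT α t m N z‖ * Real.exp (-(Lam α z)) ≤ K * Real.exp (PP W z) := by
  classical
  rw [pj_expLam α t m N z h]
  by_cases hT : pj_T α t m N = 0
  · rw [hT, eval_zero, norm_zero, zero_mul]
    positivity
  obtain ⟨k, x, C, hx, hC, hle, hfin⟩ := poly_potential (pj_T α t m N) hT
  set y : Fin n → ℂ := fun l => Len.refl (α l) with hy
  have hy1 : ∀ l, ‖y l‖ ≤ 1 := fun l => norm_refl_le _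
  set G : ℂ → ℝ := fun ζ => (Real.log C - hh α) + (-(VV x 0 ζ) + VV y 0 ζ) with hG
  have hix := circleIntegrable_VV x
  have hiy := circleIntegrable_VV y
  have hixn : CircleIntegrable (fun ζ => -(VV x 0 ζ)) 0 1 := hix.neg
  have hi2 : CircleIntegrable (fun ζ => -(VV x 0 ζ) + VV y 0 ζ) 0 1 := hixn.add hiy
  have hiG : CircleIntegrable G 0 1 := (circleIntegrable_const _ _ _).add hi2
  have hPG : PP G z = G z := by
    rw [hG, PP_add (fun _ => Real.log C - hh α) _ (circleIntegrable_const _ _ _) hi2 z hz,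
      pj_PP_const _ z hz, PP_add _ _ hixn hiy z hz, pj_PP_neg, ← VV_eq_PP x hx z hz,
      ← VV_eq_PP y hy1 z hz]
  have hiW : CircleIntegrable (fun ζ => Real.log K + W ζ) 0 1 := (circleIntegrable_const _ _ _).add hWi
  have hPW : PP (fun ζ => Real.log K + W ζ) z = Real.log K + PP W z := by
    rw [PP_add (fun _ => Real.log K) _ (circleIntegrable_const _ _ _) hWi z hz, pj_PP_const _ z hz]
  have hmono : PP G z ≤ PP (fun ζ => Real.log K + W ζ) z := by
    refine pj_PP_mono G _ hiG hiW _ ((hfin.union (pj_bad_finite α))) ?_ z hz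
    intro ζ hζ hF
    rw [Set.mem_union, not_or] at hF
    have h1 : ∀ l, 1 - ζ * starRingEnd ℂ (α l) ≠ 0 := by
      intro l hl
      exact hF.2 ⟨l, hl⟩
    have h2 : ‖(pj_T α t m N).eval ζ‖ = C * Real.exp (-(VV x 0 ζ)) := by
      by_contra hne
      exact hF.1 ⟨hζ, hne⟩
    have h3 := pj_expLam α t m N ζ h1
    rw [Lam_circle α ζ hζ h1, neg_zero, Real.exp_zero, mul_one, h2] at h3
    have h4 : Real.exp (G ζ) = ‖QT α t m N ζ‖ := by
      rw [h3, hG]
      dsimp only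
      rw [show Real.log C - hh α + (-(VV x 0 ζ) + VV y 0 ζ) = Real.log C + (-(VV x 0 ζ) + (VV y 0 ζ - hh α)) by ring,
        Real.exp_add, Real.exp_log hC, Real.exp_add]
      ring
    have h5 : Real.exp (G ζ) ≤ Real.exp (Real.log K + W ζ) := by
      rw [h4, Real.exp_add, Real.exp_log hK]
      exact hW ζ hζ h1
    exact Real.exp_le_exp.1 h5
  rw [hPG, hPW] at hmono
  calc ‖(pj_T α t m N).eval z‖ * Real.exp (VV y 0 z - hh α)
      ≤ (C * Real.exp (-(VV x 0 z))) * Real.exp (VV y 0 z - hh α) := by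
        apply mul_le_mul_of_nonneg_right (hle z hz) (Real.exp_pos _).le
    _ = Real.exp (G z) := by
        rw [hG]
        dsimp only
        rw [show Real.log C - hh α + (-(VV x 0 z) + VV y 0 z) = Real.log C + (-(VV x 0 z) + (VV y 0 z - hh α)) by ring,
          Real.exp_add, Real.exp_log hC, Real.exp_add]
        ring
    _ ≤ Real.exp (Real.log K + PP W z) := Real.exp_le_exp.2 hmono
    _ = K * Real.exp (PP W z) := by rw [Real.exp_add, Real.exp_log hK]

end Pool.Agent.Lib.MP_7ab245_nt.LgE
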