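import Mathlib
import Pool.Agent.Lib.MP_7ab245_nt.LgE.AlgT
import Pool.Agent.Lib.MP_7ab245_nt.LgE.PJT
import Pool.Agent.Lib.MP_7ab245_nt.TrE.PsiW

/-! The function `WG` controls `QT`, `Lam` and `LL r N`. -/

set_option autoImplicit false

open Polynomial Finset

namespace Pool.Agent.Lib.MP_7ab245_nt.LgE

open Pool.Agent.Lib.MP_7ab245_nt.Len
open Pool.Agent.Lib.MP_7ab245_nt.L1
open Pool.Agent.Lib.MP_7ab245_nt.TrE

private theorem wt_cont_SP (c : ℕ → ℂ) (N : ℕ) : Continuous (fun ζ : ℂ => ‖SP c N ζ‖) := by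
  unfold SP
  fun_prop

private theorem wt_int_SP (c : ℕ → ℂ) (N : ℕ) : CircleIntegrable (fun ζ : ℂ => ‖SP c N ζ‖) 0 1 :=
  (wt_cont_SP c N).continuousOn.circleIntegrable (by norm_num)

private theorem wt_int_SP_sq (c : ℕ → ℂ) (N : ℕ) :
    CircleIntegrable (fun ζ : ℂ => ‖SP c N ζ‖ ^ 2) 0 1 :=
  ((wt_cont_SP c N).pow 2).continuousOn.circleIntegrable (by norm_num)

private theorem wt_int_absLL (c : ℕ → ℂ) (N : ℕ) : CircleIntegrable (fun ζ => |LL c N ζ|) 0 1 :=
  (continuous_LL c N).abs.continuousOn.circleIntegrable (by norm_num)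

private theorem wt_div {f : ℂ → ℝ} (hf : CircleIntegrable f 0 1) (c : ℝ) :
    CircleIntegrable (fun ζ => f ζ / c) 0 1 := by
  unfold CircleIntegrable at hf ⊢
  exact hf.div_const c

private theorem wt_smul {f : ℂ → ℝ} (hf : CircleIntegrable f 0 1) (c : ℝ) :
    CircleIntegrable (fun ζ => c * f ζ) 0 1 := by
  unfold CircleIntegrable at hf ⊢
  exact hf.const_mul c

private theorem wt_avg_div (f : ℂ → ℝ) (c : ℝ) :
    Real.circleAverage (fun ζ => f ζ / c) 0 1 = Real.circleAverage f 0 1 / c := by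
  have : (fun ζ => f ζ / c) = fun ζ => c⁻¹ • f ζ := by
    funext ζ
    rw [smul_eq_mul, div_eq_inv_mul]
  rw [this, Real.circleAverage_fun_smul, smul_eq_mul, div_eq_inv_mul]

private theorem wt_int_S {n : ℕ} (α : Fin n → ℂ) (c r : ℕ → ℂ) (m N : ℕ) (F : ℝ) :
    CircleIntegrable (fun ζ => (‖SP c N ζ‖ + ‖SP r N ζ‖) / (m * F)) 0 1 :=
  wt_div ((wt_int_SP c N).add (wt_int_SP r N)) _

theorem circleIntegrable_WB {n : ℕ} (hn : 0 < n) (α : Fin n → ℂ) (c r : ℕ → ℂ) (m N : ℕ) (F : ℝ) :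
    CircleIntegrable (WB α c r m N F) 0 1 := by
  have h1 := circleIntegrable_log_RR hn (fun l => Len.refl (α l)) (fun l => norm_refl_le (α l))
  have h2 := wt_div (circleIntegrable_PN α (fun _ => 1)) (m * F)
  exact (h1.add h2).add (wt_int_S α c r m N F)

private theorem wt_int_rest {n : ℕ} (α : Fin n → ℂ) (r : ℕ → ℂ) (N : ℕ) (F : ℝ) :
    CircleIntegrable (fun ζ => 21 * PN α (fun l => Real.log ‖α l‖) ζ + |LL r N ζ| / F) 0 1 :=
  (wt_smul (circleIntegrable_PN α _) 21).add (wt_div (wt_int_absLL r N) F)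

theorem circleIntegrable_WG {n : ℕ} (hn : 0 < n) (α : Fin n → ℂ) (c r : ℕ → ℂ) (m N : ℕ) (F : ℝ) :
    CircleIntegrable (WG α c r m N F) 0 1 :=
  (circleIntegrable_WB hn α c r m N F).add (wt_int_rest α r N F)

private theorem wt_PNlog_nonneg {n : ℕ} (α : Fin n → ℂ) (ζ : ℂ) (hζ : ‖ζ‖ = 1) :
    0 ≤ PN α (fun l => Real.log ‖α l‖) ζ :=
  PN_nonneg α _ (fun l hl => (Real.log_pos hl).le) ζ hζ

theorem WB_nonneg {n : ℕ} {α : Fin n → ℂ} {c r : ℕ → ℂ} {m N : ℕ} {F : ℝ}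
    (h : Dat α c r m N F) (ζ : ℂ) (hζ : ‖ζ‖ = 1) : 0 ≤ WB α c r m N F ζ := by
  have hF : 0 ≤ F := by have := h.hF1; linarith
  have h1 : 0 ≤ Real.log (5 * max ‖RR (fun l => Len.refl (α l)) ζ‖ (1 / 2)) := by
    apply Real.log_nonneg
    have := le_max_right ‖RR (fun l => Len.refl (α l)) ζ‖ (1 / 2)
    linarith
  have h2 := PN_nonneg α (fun _ => 1) (fun _ _ => zero_le_one) ζ hζ
  have h3 : 0 ≤ PN α (fun _ => 1) ζ / (m * F) := by positivity
  have h4 : 0 ≤ (‖SP c N ζ‖ + ‖SP r N ζ‖) / (m * F) := by positivity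
  unfold WB
  linarith

theorem WG_nonneg {n : ℕ} {α : Fin n → ℂ} {c r : ℕ → ℂ} {m N : ℕ} {F : ℝ}
    (h : Dat α c r m N F) (ζ : ℂ) (hζ : ‖ζ‖ = 1) : 0 ≤ WG α c r m N F ζ := by
  have hF : 0 ≤ F := by have := h.hF1; linarith
  have h1 := WB_nonneg h ζ hζ
  have h2 := wt_PNlog_nonneg α ζ hζ
  have h3 : 0 ≤ |LL r N ζ| / F := by positivity
  unfold WG
  linarith

private theorem wt_sum_log {n : ℕ} (α : Fin n → ℂ) :
    ∑ l ∈ univ.filter (fun l => 1 < ‖α l‖), Real.log ‖α l‖ = hh α := by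
  rw [hh, Finset.sum_filter]
  refine Finset.sum_congr rfl fun l _ => ?_
  split_ifs with h
  · rw [Real.posLog_eq_log (by rw [abs_of_nonneg (norm_nonneg _)]; exact h.le)]
  · rw [(Real.posLog_eq_zero_iff _).mpr
      (by rw [abs_of_nonneg (norm_nonneg _)]; exact not_lt.mp h)]

theorem circleAverage_WG {n : ℕ} {α : Fin n → ℂ} {c r : ℕ → ℂ} {m N : ℕ} {F : ℝ}
    (h : Dat α c r m N F) : Real.circleAverage (WG α c r m N F) 0 1 ≤ 27 := by
  have hn := h.hn
  have hF : 0 < F := by have := h.hF1; linarith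
  have hn0 : (0 : ℝ) < n := by exact_mod_cast hn
  have hm0 : (0 : ℝ) < m := by exact_mod_cast h.hm
  have hmF : 0 < (m : ℝ) * F := by positivity
  have h1 := circleIntegrable_log_RR hn (fun l => Len.refl (α l)) (fun l => norm_refl_le (α l))
  have h2 := wt_div (circleIntegrable_PN α (fun _ => 1)) (m * F)
  have hc := wt_div (wt_int_SP c N) (m * F)
  have hr := wt_div (wt_int_SP r N) (m * F)
  have hA1 := circleAverage_log_RR hn (fun l => Len.refl (α l)) (fun l => norm_refl_le (α l))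
  have hA2 : Real.circleAverage (fun ζ => PN α (fun _ => 1) ζ / (m * F)) 0 1 ≤ 1 := by
    rw [wt_avg_div, circleAverage_PN, Finset.sum_const, nsmul_eq_mul, mul_one,
      div_le_one hmF]
    have : ((univ.filter (fun l => 1 < ‖α l‖)).card : ℝ) ≤ n := by
      have h4 : (univ.filter (fun l => 1 < ‖α l‖)).card ≤ n := by
        refine (Finset.card_filter_le _ _).trans ?_
        simp
      exact_mod_cast h4
    have := h.hnF
    linarith
  have hA3 : Real.circleAverage (fun ζ : ℂ => ‖SP c N ζ‖ / (m * F)) 0 1 ≤ 1 := by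
    have h4 : Real.circleAverage (fun ζ : ℂ => ‖SP c N ζ‖ / (m * F)) 0 1 ≤
        Real.circleAverage (fun ζ : ℂ =>
          ‖SP c N ζ‖ ^ 2 / (2 * (m * F) ^ 2) + 1 / 2) 0 1 := by
      refine Real.circleAverage_mono hc ((wt_div (wt_int_SP_sq c N) _).add
        (circleIntegrable_const _ _ _)) fun ζ _ => ?_
      set x := ‖SP c N ζ‖ with hx
      have h5 : x ^ 2 / (2 * (m * F) ^ 2) + 1 / 2 - x / (m * F) =
          (x / (m * F) - 1) ^ 2 / 2 := by
        field_simp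
        ring
      have h6 : 0 ≤ (x / (m * F) - 1) ^ 2 / 2 := by positivity
      linarith
    have h5 : Real.circleAverage (fun ζ : ℂ =>
          ‖SP c N ζ‖ ^ 2 / (2 * (m * F) ^ 2) + 1 / 2) 0 1 =
        Real.circleAverage (fun ζ : ℂ => ‖SP c N ζ‖ ^ 2) 0 1 /
          (2 * (m * F) ^ 2) + 1 / 2 := by
      rw [Real.circleAverage_fun_add (wt_div (wt_int_SP_sq c N) _) (circleIntegrable_const _ _ _),
        wt_avg_div, Real.circleAverage_const]
    rw [h5] at h4
    refine h4.trans ?_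
    have h7 : Real.circleAverage (fun ζ : ℂ => ‖SP c N ζ‖ ^ 2) 0 1 /
          (2 * (m * F) ^ 2) ≤ 1 / 2 := by
      rw [div_le_iff₀ (by positivity)]
      refine h.hSc.trans (le_of_eq ?_)
      ring
    linarith
  have hA4 : Real.circleAverage (fun ζ : ℂ => ‖SP r N ζ‖ / (m * F)) 0 1 ≤ 1 := by
    rw [wt_avg_div, div_le_one hmF]
    exact h.hSr
  have hA5 : Real.circleAverage (fun ζ => |LL r N ζ| / F) 0 1 ≤ 1 := by
    rw [wt_avg_div, div_le_one hF]
    exact h.hr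
  have hA6 : Real.circleAverage (fun ζ => 21 * PN α (fun l => Real.log ‖α l‖) ζ) 0 1 ≤ 21 := by
    have h3 : (fun ζ => 21 * PN α (fun l => Real.log ‖α l‖) ζ) =
        fun ζ => (21 : ℝ) • PN α (fun l => Real.log ‖α l‖) ζ := rfl
    rw [h3, Real.circleAverage_fun_smul, smul_eq_mul, circleAverage_PN, wt_sum_log]
    have := h.hh1
    linarith
  have hS : Real.circleAverage (fun ζ => (‖SP c N ζ‖ + ‖SP r N ζ‖) / (m * F)) 0 1 ≤ 2 := by
    have h3 : (fun ζ => (‖SP c N ζ‖ + ‖SP r N ζ‖) / (m * F)) =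
        fun ζ => ‖SP c N ζ‖ / (m * F) + ‖SP r N ζ‖ / (m * F) := by
      funext ζ
      rw [add_div]
    rw [h3, Real.circleAverage_fun_add hc hr]
    linarith
  have hWB : Real.circleAverage (WB α c r m N F) 0 1 =
      Real.circleAverage (fun ζ => Real.log (5 * max ‖RR (fun l => Len.refl (α l)) ζ‖ (1 / 2))) 0 1 +
      Real.circleAverage (fun ζ => PN α (fun _ => 1) ζ / (m * F)) 0 1 +
      Real.circleAverage (fun ζ => (‖SP c N ζ‖ + ‖SP r N ζ‖) / (m * F)) 0 1 := by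
    have h12 : CircleIntegrable (fun ζ => Real.log (5 * max ‖RR (fun l => Len.refl (α l)) ζ‖
        (1 / 2)) + PN α (fun _ => 1) ζ / (m * F)) 0 1 := h1.add h2
    rw [← Real.circleAverage_fun_add h1 h2,
      ← Real.circleAverage_fun_add h12 (wt_int_S α c r m N F)]
    rfl
  have hWG : Real.circleAverage (WG α c r m N F) 0 1 =
      Real.circleAverage (WB α c r m N F) 0 1 +
      (Real.circleAverage (fun ζ => 21 * PN α (fun l => Real.log ‖α l‖) ζ) 0 1 +
      Real.circleAverage (fun ζ => |LL r N ζ| / F) 0 1) := by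
    rw [← Real.circleAverage_fun_add (wt_smul (circleIntegrable_PN α _) 21)
      (wt_div (wt_int_absLL r N) F),
      ← Real.circleAverage_fun_add (circleIntegrable_WB hn α c r m N F) (wt_int_rest α r N F)]
    rfl
  have hlog5 : Real.log 5 ≤ 2 := by
    have h8 : (5 : ℝ) ≤ Real.exp 2 := by
      have h9 := Real.exp_one_gt_d9
      have h10 : Real.exp 2 = Real.exp 1 * Real.exp 1 := by
        rw [← Real.exp_add]
        norm_num
      rw [h10]
      nlinarith
    have := Real.log_le_log (by norm_num) h8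
    rwa [Real.log_exp] at this
  rw [hWG, hWB, hA1]
  linarith

private theorem wt_refl_ne {a ζ : ℂ} (hζ : ‖ζ‖ = 1) (h : 1 - ζ * starRingEnd ℂ a ≠ 0) :
    1 - ζ * starRingEnd ℂ (Len.refl a) ≠ 0 := by
  rcases le_or_gt ‖a‖ 1 with h1 | h1
  · rwa [refl_of_le h1]
  · rw [refl_of_lt h1, map_inv₀, Complex.conj_conj]
    intro h2
    have h3 : ζ * a⁻¹ = 1 := (sub_eq_zero.mp h2).symm
    have h4 := congrArg norm h3
    rw [norm_mul, hζ, one_mul, norm_inv, norm_one, inv_eq_one] at h4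
    linarith

private theorem wt_SP_add (c r : ℕ → ℂ) (N : ℕ) (ζ : ℂ) :
    SP (fun k => c k + r k) N ζ = SP c N ζ + SP r N ζ := by
  unfold SP
  rw [← Finset.sum_add_distrib]
  exact Finset.sum_congr rfl fun k _ => by ring

theorem QT_le_WB {n : ℕ} {α : Fin n → ℂ} {c r : ℕ → ℂ} {m N : ℕ} {F : ℝ}
    (h : Dat α c r m N F) (ζ : ℂ) (hζ : ‖ζ‖ = 1) (h1 : ∀ l, 1 - ζ * starRingEnd ℂ (α l) ≠ 0) :
    ‖QT α (fun k => c k + r k) m N ζ‖ ≤ m * F * Real.exp (WB α c r m N F ζ) := by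
  have hn := h.hn
  have hF : 0 < F := by have := h.hF1; linarith
  have hn0 : (0 : ℝ) < n := by exact_mod_cast hn
  have hm0 : (0 : ℝ) < m := by exact_mod_cast h.hm
  have hmF : 0 < (m : ℝ) * F := by positivity
  have h2 := QT_circle hn α (fun k => c k + r k) m N h.hm h.hmN h.hpw ζ hζ h1
  have hR := half_le_norm_RR hn (fun l => Len.refl (α l)) (fun l => norm_refl_le (α l)) ζ hζ.le
    (fun l => wt_refl_ne hζ (h1 l))
  have hPN := PN_nonneg α (fun _ => 1) (fun _ _ => zero_le_one) ζ hζ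
  set R := ‖RR (fun l => Len.refl (α l)) ζ‖ with hRdef
  set a := PN α (fun _ => 1) ζ / (m * F) with ha
  set b := (‖SP c N ζ‖ + ‖SP r N ζ‖) / (m * F) with hb
  have ha0 : 0 ≤ a := by positivity
  have hb0 : 0 ≤ b := by positivity
  have h3 : ‖RR (fun l => Len.refl (α l)) ζ - 1‖ ≤ R + 1 := by
    refine (norm_sub_le _ _).trans ?_
    rw [norm_one]
  have h4 : ‖QT α (fun k => c k + r k) m N ζ‖ ≤ m * F * (R + 1 + a + b) := by
    refine h2.trans ?_
    have h4 : (n : ℝ) * ‖RR (fun l => Len.refl (α l)) ζ - 1‖ ≤ m * F * (R + 1) :=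
      mul_le_mul h.hnF h3 (norm_nonneg _) hmF.le
    have h5 : m * F * a = PN α (fun _ => 1) ζ := by
      rw [ha]
      field_simp
    have h6 : m * F * b = ‖SP c N ζ‖ + ‖SP r N ζ‖ := by
      rw [hb]
      field_simp
    have h7 : m * F * (R + 1 + a + b) = m * F * (R + 1) + m * F * a +
        m * F * b := by ring
    have h8 : ‖SP (fun k => c k + r k) N ζ‖ ≤ ‖SP c N ζ‖ + ‖SP r N ζ‖ := by
      rw [wt_SP_add]
      exact norm_add_le _ _
    rw [h7, h5, h6]
    linarith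
  refine h4.trans (mul_le_mul_of_nonneg_left ?_ hmF.le)
  have h4 : WB α c r m N F ζ = Real.log (5 * R) + (a + b) := by
    unfold WB
    rw [← hRdef, max_eq_left hR]
    ring
  rw [h4, Real.exp_add, Real.exp_log (by linarith)]
  have h5 := Real.add_one_le_exp (a + b)
  have h6 : 5 * R * (a + b + 1) ≤ 5 * R * Real.exp (a + b) :=
    mul_le_mul_of_nonneg_left h5 (by linarith)
  have h7 : R * a ≥ 1 / 2 * a := mul_le_mul_of_nonneg_right hR ha0
  have h8 : R * b ≥ 1 / 2 * b := mul_le_mul_of_nonneg_right hR hb0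
  nlinarith

private theorem wt_PP_smul (W : ℂ → ℝ) (c : ℝ) (z : ℂ) :
    PP (fun ζ => c * W ζ) z = c * PP W z := by
  unfold PP
  have h4 : (fun ζ => poissonKernel 0 z ζ * (c * W ζ)) =
      fun ζ => c • (poissonKernel 0 z ζ * W ζ) := by
    funext ζ
    rw [smul_eq_mul]
    ring
  rw [h4, Real.circleAverage_fun_smul, smul_eq_mul]

private theorem wt_pt_lt (s θ : ℝ) (hs : 0 < s) : ‖pt s θ‖ < 1 := by
  rw [pt, Complex.norm_exp]
  have : (((-s : ℝ) : ℂ) + (θ : ℂ) * Complex.I).re = -s := by simp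
  rw [this, ← Real.exp_zero]
  exact Real.exp_lt_exp.mpr (by linarith)

theorem WG_bound {n : ℕ} {α : Fin n → ℂ} {c r : ℕ → ℂ} {m N : ℕ} {F : ℝ}
    (h : Dat α c r m N F) (t s θ : ℝ) (ht : 0 < t) (hts : t ≤ s) (hst : s ≤ 2 * t)
    (hθ : Gen α θ) :
    ‖QT α (fun k => c k + r k) m N (pt s θ)‖ ≤ m * F *
      Real.exp (2 * PP (WG α c r m N F) (pt t θ) + SS α t θ) ∧
    Lam α (pt s θ) ≤ 2 * PP (WG α c r m N F) (pt t θ) + SS α t θ := by
  have hn := h.hn
  have hF : 0 < F := by have := h.hF1; linarith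
  have hn0 : (0 : ℝ) < n := by exact_mod_cast hn
  have hm0 : (0 : ℝ) < m := by exact_mod_cast h.hm
  have hmF : 0 < (m : ℝ) * F := by positivity
  have hs : 0 < s := by linarith
  have hz := wt_pt_lt s θ hs
  have hzt := wt_pt_lt t θ ht
  have hWBi := circleIntegrable_WB hn α c r m N F
  have hPNi := circleIntegrable_PN α (fun l => Real.log ‖α l‖)
  have hLLi := wt_div (wt_int_absLL r N) F
  have h1 := QT_le_PP α h.hα (fun k => c k + r k) m N (WB α c r m N F) hWBi (m * F) hmF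
    (fun ζ hζ h' => QT_le_WB h ζ hζ h') (pt s θ) hz (fun l => Gen_ne α h.hα θ hθ s l)
  have h2 := Lam_le_SS α h.hα h.hh1 t s θ ht hts hst hθ
  have h3 : PP (WG α c r m N F) (pt s θ) = PP (WB α c r m N F) (pt s θ) +
      (21 * PP (PN α (fun l => Real.log ‖α l‖)) (pt s θ) +
        PP (fun ζ => |LL r N ζ| / F) (pt s θ)) := by
    rw [← wt_PP_smul, ← PP_add _ _ (wt_smul hPNi 21) hLLi _ hz,
      ← PP_add _ _ hWBi (wt_int_rest α r N F) _ hz]
    rfl
  have hWBn : 0 ≤ PP (WB α c r m N F) (pt s θ) :=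
    PP_nonneg _ (fun ζ hζ => WB_nonneg h ζ hζ) _ hz
  have hLn : 0 ≤ PP (fun ζ => |LL r N ζ| / F) (pt s θ) :=
    PP_nonneg _ (fun ζ _ => by positivity) _ hz
  have hPn : 0 ≤ PP (PN α (fun l => Real.log ‖α l‖)) (pt s θ) :=
    PP_nonneg _ (fun ζ hζ => wt_PNlog_nonneg α ζ hζ) _ hz
  have hrad := PP_radial_le (WG α c r m N F) (circleIntegrable_WG hn α c r m N F)
    (fun ζ hζ => WG_nonneg h ζ hζ) t s θ ht hts
  have hWGt : 0 ≤ PP (WG α c r m N F) (pt t θ) :=
    PP_nonneg _ (fun ζ hζ => WG_nonneg h ζ hζ) _ hzt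
  have h4 : PP (WG α c r m N F) (pt s θ) ≤ 2 * PP (WG α c r m N F) (pt t θ) := by
    refine hrad.trans (mul_le_mul_of_nonneg_right ?_ hWGt)
    rw [div_le_iff₀ ht]
    exact hst
  constructor
  · have h5 : ‖QT α (fun k => c k + r k) m N (pt s θ)‖ =
        ‖QT α (fun k => c k + r k) m N (pt s θ)‖ * Real.exp (-(Lam α (pt s θ))) *
        Real.exp (Lam α (pt s θ)) := by
      rw [mul_assoc, ← Real.exp_add, neg_add_cancel, Real.exp_zero, mul_one]
    rw [h5]
    refine (mul_le_mul_of_nonneg_right h1 (Real.exp_pos _).le).trans ?_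
    rw [mul_assoc, ← Real.exp_add]
    refine mul_le_mul_of_nonneg_left (Real.exp_le_exp.mpr ?_) hmF.le
    linarith
  · linarith

theorem LL_le_WG {n : ℕ} {α : Fin n → ℂ} {c r : ℕ → ℂ} {m N : ℕ} {F : ℝ}
    (h : Dat α c r m N F) (t θ : ℝ) (ht : 0 < t) :
    |LL r N (pt t θ)| ≤ F * PP (WG α c r m N F) (pt t θ) := by
  have hn := h.hn
  have hF : 0 < F := by have := h.hF1; linarith
  have hz := wt_pt_lt t θ ht
  have hLi := wt_int_absLL r N
  have hWGi := circleIntegrable_WG hn α c r m N F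
  have h0 : |LL r N (pt t θ)| ≤ PP (fun ζ => |LL r N ζ|) (pt t θ) := by
    rw [abs_le]
    constructor
    · have h1 := PP_mono (fun ζ => (-1) * LL r N ζ) (fun ζ => |LL r N ζ|)
        (wt_smul (circleIntegrable_LL r N) (-1)) hLi (fun ζ _ => by
          have := neg_le_abs (LL r N ζ)
          linarith) (pt t θ) hz
      rw [wt_PP_smul, ← LL_eq_PP r N _ hz] at h1
      linarith
    · have h1 := PP_mono (LL r N) (fun ζ => |LL r N ζ|) (circleIntegrable_LL r N) hLi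
        (fun ζ _ => le_abs_self _) (pt t θ) hz
      rw [← LL_eq_PP r N _ hz] at h1
      exact h1
  refine h0.trans ?_
  rw [← wt_PP_smul]
  refine PP_mono _ _ hLi (wt_smul hWGi F) (fun ζ hζ => ?_) _ hz
  have h1 := WB_nonneg h ζ hζ
  have h2 := wt_PNlog_nonneg α ζ hζ
  have h3 : WG α c r m N F ζ ≥ |LL r N ζ| / F := by
    unfold WG
    linarith
  have h4 : F * (|LL r N ζ| / F) = |LL r N ζ| := by
    field_simp
  calc |LL r N ζ| = F * (|LL r N ζ| / F) := h4.symm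
    _ ≤ F * WG α c r m N F ζ := mul_le_mul_of_nonneg_left h3 hF.le

end Pool.Agent.Lib.MP_7ab245_nt.LgE
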