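import Mathlib
import Pool.Agent.Lib.MP_7ab245_nt.LgE.WT
import Pool.Agent.Lib.MP_7ab245_nt.LgE.RayT
import Pool.Agent.Lib.MP_7ab245_nt.TrE.PsiPoint

/-! The pointwise bound. -/

set_option autoImplicit false

open Polynomial Finset

namespace Pool.Agent.Lib.MP_7ab245_nt.LgE

open Pool.Agent.Lib.MP_7ab245_nt.Len
open Pool.Agent.Lib.MP_7ab245_nt.L1
open Pool.Agent.Lib.MP_7ab245_nt.TrE

/-- from some scale on nothing is bad -/
theorem exists_not_badG {n : ℕ} {α : Fin n → ℂ} {c r : ℕ → ℂ} {m N : ℕ} {F : ℝ}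
    (h : Dat α c r m N F) : ∃ I : ℕ, ∀ i, I ≤ i → ∀ θ : ℝ, ¬ BadG α c r m N F i θ := by
  have hd := h
  have hm' : (0 : ℝ) < m := by exact_mod_cast h.hm
  obtain ⟨I, hI⟩ := pow_unbounded_of_one_lt (2 * (m : ℝ) + 700) (show (1 : ℝ) < 2 by norm_num)
  refine ⟨I, fun i hi θ hbad => ?_⟩
  have h1 : (2 : ℝ) ^ I ≤ (2 : ℝ) ^ i := pow_le_pow_right₀ (by norm_num) hi
  have h2 : 2 * (m : ℝ) + 700 < 2 ^ i := hI.trans_le h1
  have h3 : (2 : ℝ) ≤ (2 : ℝ) ^ i / m := by
    rw [le_div_iff₀ hm']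
    linarith
  rcases hbad with h | h
  · have h4 := PP_large (WG α c r m N F) (circleIntegrable_WG hd.hn α c r m N F) (WG_nonneg hd)
      ((2 : ℝ) ^ i / m) θ (by linarith)
    have h5 := circleAverage_WG hd
    linarith
  · rw [SS_large α _ θ (by linarith [hd.hh1])] at h
    linarith

private theorem pointT_tele (L : ℝ → ℝ) (m : ℝ) (k : ℕ) :
    L (1 / m) - L ((2 : ℝ) ^ k / m) =
      ∑ j ∈ Finset.range k, (L ((2 : ℝ) ^ j / m) - L (2 * ((2 : ℝ) ^ j / m))) := by
  induction k with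
  | zero => simp
  | succ k ih =>
    rw [Finset.sum_range_succ, ← ih]
    have : 2 * ((2 : ℝ) ^ k / m) = (2 : ℝ) ^ (k + 1) / m := by ring
    rw [this]
    ring

private theorem pointT_geom (k : ℕ) : ∑ j ∈ Finset.range k, (2 : ℝ) ^ j ≤ 2 ^ k := by
  have := geom_sum_eq (show (2 : ℝ) ≠ 1 by norm_num) k
  rw [this]
  linarith

open Classical in
theorem pointG_bound {n : ℕ} {α : Fin n → ℂ} {c r : ℕ → ℂ} {m N : ℕ} {F : ℝ}
    (h : Dat α c r m N F) (I : ℕ) (hI : ∀ i, I ≤ i → ∀ θ : ℝ, ¬ BadG α c r m N F i θ)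
    (θ : ℝ) (hθ : Gen α θ) :
    -(VV (fun l => Len.refl (α l)) 0 (pt 0 θ) - LL c N (pt 0 θ)) ≤
      2 * F + |LL c N (pt 0 θ) - LL c N (pt (1 / m) θ)| +
      1 / (2 * F) * ∑ j ∈ Finset.range I,
        (LL c N (pt ((2 : ℝ) ^ j / m) θ) - LL c N (pt (2 * ((2 : ℝ) ^ j / m)) θ)) ^ 2 /
          (2 : ℝ) ^ j +
      3 * F * (1 + ∑ i ∈ Finset.range I, if BadG α c r m N F i θ then (2 : ℝ) ^ (i + 1) else 0) := by
  have hd := h
  have hα := h.hα
  have hm := h.hm
  have hmN := h.hmN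
  have hE1 : 1 ≤ F := h.hF1
  have hE2 : (n : ℝ) ≤ m * F := h.hnF
  have hm' : (0 : ℝ) < m := by exact_mod_cast h.hm
  have hn' : (0 : ℝ) < n := by exact_mod_cast h.hn
  clear h
  set L : ℝ → ℝ := fun s => LL c N (pt s θ) with hL
  set D : ℕ → ℝ := fun j => L ((2 : ℝ) ^ j / m) - L (2 * ((2 : ℝ) ^ j / m)) with hD
  -- the least good scale
  have hex : ∃ i, ∀ i', i ≤ i' → ¬ BadG α c r m N F i' θ := ⟨I, fun i hi => hI i hi θ⟩
  set k : ℕ := Nat.find hex with hk
  have hkspec : ∀ i', k ≤ i' → ¬ BadG α c r m N F i' θ := Nat.find_spec hex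
  have hkI : k ≤ I := Nat.find_min' hex fun i hi => hI i hi θ
  have h2k : (0 : ℝ) < 2 ^ k := by positivity
  set τ : ℝ := (2 : ℝ) ^ k / m with hτ
  have hτ0 : 0 < τ := by positivity
  -- good scales
  have hgood : ∀ i, k ≤ i → 2 * PP (WG α c r m N F) (pt ((2 : ℝ) ^ i / m) θ) +
      SS α ((2 : ℝ) ^ i / m) θ ≤ (2 : ℝ) ^ i / 2 := by
    intro i hi
    have h := hkspec i hi
    unfold BadG at h
    push Not at h
    linarith [h.1, h.2]
  have hE0 : 0 < F := by linarith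
  have hLr : |LL r N (pt τ θ)| ≤ F * (2 : ℝ) ^ k / 8 := by
    have h := hkspec k le_rfl
    unfold BadG at h
    push Not at h
    have h1 := LL_le_WG hd τ θ hτ0
    have h2 : F * PP (WG α c r m N F) (pt τ θ) ≤ F * ((2 : ℝ) ^ k / 8) :=
      mul_le_mul_of_nonneg_left h.1.le hE0.le
    linarith
  have hLadd : LL (fun k => c k + r k) N (pt τ θ) = L τ + LL r N (pt τ θ) := by
    rw [hL]
    unfold LL
    rw [← Complex.add_re, ← Finset.sum_add_distrib]
    congr 1
    refine Finset.sum_congr rfl fun k _ => ?_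
    ring
  have hray : |L τ + LL r N (pt τ θ) - VV α 0 (pt τ θ)| ≤ 2 * F := by
    have h := rayT_bound α (fun k => c k + r k) m N hm hmN hd.hpw θ τ (m * F) hτ0 (by positivity) (by
      intro s hs
      refine ⟨fun l => Gen_ne α hα θ hθ s l, ?_⟩
      have hms : (2 : ℝ) ^ k ≤ m * s := by
        rw [hτ, div_le_iff₀ hm'] at hs
        linarith
      have h1ms : 1 ≤ m * s := le_trans (one_le_pow₀ (by norm_num)) hms
      obtain ⟨i, hi1, hi2⟩ := exists_nat_pow_near h1ms (show (1 : ℝ) < 2 by norm_num)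
      have hki : k ≤ i := by
        by_contra hcon
        push Not at hcon
        have : (2 : ℝ) ^ (i + 1) ≤ 2 ^ k := pow_le_pow_right₀ (by norm_num) hcon
        linarith
      have hb := WG_bound hd ((2 : ℝ) ^ i / m) s θ (by positivity)
        (by rw [div_le_iff₀ hm']; linarith)
        (by
          have : 2 * ((2 : ℝ) ^ i / m) = (2 : ℝ) ^ (i + 1) / m := by ring
          rw [this, le_div_iff₀ hm']
          linarith) hθ
      refine hb.1.trans ?_
      apply mul_le_mul_of_nonneg_left _ (by positivity)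
      apply Real.exp_le_exp.mpr
      have := hgood i hki
      linarith)
    have e1 : 2 * (m * F) / m = 2 * F := by field_simp
    rw [e1, hLadd] at h
    exact h
  have hLam : Lam α (pt τ θ) ≤ (2 : ℝ) ^ k / 2 := by
    have hb := WG_bound hd τ τ θ hτ0 le_rfl (by linarith) hθ
    exact hb.2.trans (hgood k le_rfl)
  have hhh : 0 ≤ hh α := by
    unfold hh
    exact Finset.sum_nonneg fun i _ => Real.posLog_nonneg
  have hout := VV_outward (fun l => Len.refl (α l)) (fun l => norm_refl_le (α l)) τ θ hτ0.le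
    (fun l => Gen_ne_refl α hα θ hθ 0 l)
  have hVy : -(VV (fun l => Len.refl (α l)) 0 (pt τ θ)) ≤ (2 : ℝ) ^ k / 2 + 2 * F - L τ + F * (2 : ℝ) ^ k / 8 := by
    unfold Lam at hLam
    have h1 := (abs_le.mp hray).2
    have h2 := (abs_le.mp hLr).1
    linarith
  -- telescoping
  have htele := pointT_tele L m k
  have hDj : ∀ j, D j ≤ F * (2 : ℝ) ^ j / 2 + 1 / (2 * F) * (D j ^ 2 / (2 : ℝ) ^ j) := by
    intro j
    have ht0 : (0 : ℝ) < 2 ^ j := by positivity
    have h1 : F * (2 : ℝ) ^ j / 2 + 1 / (2 * F) * (D j ^ 2 / (2 : ℝ) ^ j) - D j =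
        (D j - F * (2 : ℝ) ^ j) ^ 2 / (2 * F * (2 : ℝ) ^ j) := by
      field_simp
      ring
    have h2 : 0 ≤ (D j - F * (2 : ℝ) ^ j) ^ 2 / (2 * F * (2 : ℝ) ^ j) := by positivity
    linarith
  have hsumD : ∑ j ∈ Finset.range k, D j ≤ F * 2 ^ k / 2 +
      1 / (2 * F) * ∑ j ∈ Finset.range I, D j ^ 2 / (2 : ℝ) ^ j := by
    calc ∑ j ∈ Finset.range k, D j ≤ ∑ j ∈ Finset.range k,
          (F * (2 : ℝ) ^ j / 2 + 1 / (2 * F) * (D j ^ 2 / (2 : ℝ) ^ j)) :=
          Finset.sum_le_sum fun j _ => hDj j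
      _ = F / 2 * (∑ j ∈ Finset.range k, (2 : ℝ) ^ j) +
          1 / (2 * F) * ∑ j ∈ Finset.range k, D j ^ 2 / (2 : ℝ) ^ j := by
          rw [Finset.sum_add_distrib, Finset.mul_sum, Finset.mul_sum]
          congr 1
          refine Finset.sum_congr rfl (fun j _ => ?_)
          ring
      _ ≤ F / 2 * 2 ^ k +
          1 / (2 * F) * ∑ j ∈ Finset.range I, D j ^ 2 / (2 : ℝ) ^ j := by
          gcongr
          · exact pointT_geom k
      _ = _ := by ring
  -- the number `2 ^ k`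
  have hpowk : (2 : ℝ) ^ k ≤ 1 + ∑ i ∈ Finset.range I,
      if BadG α c r m N F i θ then (2 : ℝ) ^ (i + 1) else 0 := by
    have hs0 : 0 ≤ ∑ i ∈ Finset.range I, if BadG α c r m N F i θ then (2 : ℝ) ^ (i + 1) else 0 := by
      refine Finset.sum_nonneg fun i _ => ?_
      split_ifs <;> positivity
    rcases Nat.eq_zero_or_pos k with h0 | h0
    · rw [h0, pow_zero]
      linarith
    · obtain ⟨j, hj⟩ : ∃ j, k = j + 1 := ⟨k - 1, by omega⟩
      have hbad : BadG α c r m N F j θ := by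
        by_contra hcon
        have h1 : k ≤ j := by
          refine Nat.find_min' hex fun i' hi' => ?_
          rcases Nat.eq_or_lt_of_le hi' with rfl | hlt
          · exact hcon
          · exact hkspec i' (by omega)
        omega
      have h2 : (if BadG α c r m N F j θ then (2 : ℝ) ^ (j + 1) else 0) ≤ ∑ i ∈ Finset.range I,
          if BadG α c r m N F i θ then (2 : ℝ) ^ (i + 1) else 0 := by
        refine Finset.single_le_sum (f := fun i => if BadG α c r m N F i θ then (2 : ℝ) ^ (i + 1) else 0)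
          (fun i _ => ?_) (Finset.mem_range.mpr (by omega))
        split_ifs <;> positivity
      rw [if_pos hbad, ← hj] at h2
      linarith
  have habs : L 0 - L (1 / m) ≤ |L 0 - L (1 / m)| := le_abs_self _
  have hnτ : n * τ ≤ F * 2 ^ k := by
    have h1 : (n : ℝ) / m ≤ F := by
      rw [div_le_iff₀ hm']
      linarith
    calc n * τ = n / m * 2 ^ k := by rw [hτ]; ring
      _ ≤ F * 2 ^ k := by gcongr
  have hEk : (2 : ℝ) ^ k / 2 ≤ F * 2 ^ k / 2 := by
    have : 1 * (2 : ℝ) ^ k ≤ F * 2 ^ k := by gcongr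
    linarith
  have hfin : 3 * F * (2 : ℝ) ^ k ≤ 3 * F * (1 + ∑ i ∈ Finset.range I,
      if BadG α c r m N F i θ then (2 : ℝ) ^ (i + 1) else 0) := by gcongr
  change -(VV (fun l => Len.refl (α l)) 0 (pt 0 θ) - L 0) ≤ 2 * F + |L 0 - L (1 / m)| +
    1 / (2 * F) * ∑ j ∈ Finset.range I, D j ^ 2 / (2 : ℝ) ^ j +
    3 * F * (1 + ∑ i ∈ Finset.range I, if BadG α c r m N F i θ then (2 : ℝ) ^ (i + 1) else 0)
  have htele' : L (1 / m) - L τ = ∑ j ∈ Finset.range k, D j := htele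
  linarith

end Pool.Agent.Lib.MP_7ab245_nt.LgE
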