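import Mathlib
import Pool.Agent.Lib.MP_7ab245_nt.LgE.Defs
import Pool.Agent.Lib.MP_7ab245_nt.TrE.Basic
import Pool.Agent.Lib.MP_7ab245_nt.TrE.Parseval

/-! Energies of smoothed harmonic polynomials. -/

set_option autoImplicit false

open Polynomial Finset

namespace Pool.Agent.Lib.MP_7ab245_nt.LgE

open Pool.Agent.Lib.MP_7ab245_nt.Len
open Pool.Agent.Lib.MP_7ab245_nt.L1
open Pool.Agent.Lib.MP_7ab245_nt.TrE

private theorem sm_exp (s : ℝ) (k : ℕ) :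
    (Real.exp (-(k * s)) : ℂ) = (Real.exp (-s) : ℂ) ^ k := by
  rw [← Complex.ofReal_pow, ← Real.exp_nat_mul]
  congr 2
  ring

private theorem sm_term (c : ℕ → ℂ) (s : ℝ) (z : ℂ) (k : ℕ) :
    smc s c k * z ^ k = c k * ((Real.exp (-s) : ℂ) * z) ^ k := by
  unfold smc
  rw [sm_exp, mul_pow]
  ring

private theorem sm_pt_zero (θ : ℝ) : pt 0 θ = circleMap 0 1 θ := by
  unfold pt circleMap
  simp

private theorem sm_pt (s θ : ℝ) : pt s θ = (Real.exp (-s) : ℂ) * pt 0 θ := by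
  unfold pt
  rw [Complex.ofReal_exp, ← Complex.exp_add]
  congr 1
  push_cast
  ring

theorem SP_smc (c : ℕ → ℂ) (N : ℕ) (s : ℝ) (z : ℂ) :
    SP (smc s c) N z = SP c N ((Real.exp (-s) : ℂ) * z) := by
  unfold SP
  exact Finset.sum_congr rfl fun k _ => sm_term c s z k

theorem LL_smc (c : ℕ → ℂ) (N : ℕ) (s : ℝ) (z : ℂ) :
    LL (smc s c) N z = LL c N ((Real.exp (-s) : ℂ) * z) := by
  unfold LL
  congr 1
  exact Finset.sum_congr rfl fun k _ => by rw [sm_term]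

theorem LL_smc_pt (c : ℕ → ℂ) (N : ℕ) (s θ : ℝ) :
    LL (smc s c) N (pt 0 θ) = LL c N (pt s θ) := by
  rw [LL_smc, ← sm_pt]

private theorem sm_norm (c : ℕ → ℂ) (s : ℝ) (k : ℕ) :
    ‖smc s c k‖ = Real.exp (-(k * s)) * ‖c k‖ := by
  unfold smc
  rw [norm_mul, Complex.norm_real, Real.norm_of_nonneg (Real.exp_pos _).le]

theorem DL_smc_le (c : ℕ → ℂ) (N : ℕ) (s : ℝ) (hs : 0 ≤ s) : DL (smc s c) N ≤ DL c N := by
  unfold DL
  refine Finset.sum_le_sum fun k _ => ?_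
  have h1 : Real.exp (-(k * s)) ≤ 1 := by
    rw [Real.exp_le_one_iff]
    have : (0 : ℝ) ≤ k * s := mul_nonneg (Nat.cast_nonneg k) hs
    linarith
  have h2 : ‖smc s c k‖ ≤ ‖c k‖ := by
    rw [sm_norm]
    exact mul_le_of_le_one_left (norm_nonneg _) h1
  gcongr

theorem avg_SP_sq_smooth (c : ℕ → ℂ) (N m : ℕ) (hm : 1 ≤ m) :
    Real.circleAverage (fun ζ => ‖SP (smc (1 / m) c) N ζ‖ ^ 2) 0 1 ≤ m * DL c N := by
  have hmR : (0 : ℝ) < m := by exact_mod_cast hm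
  have h1 : Real.circleAverage (fun ζ => ‖SP (smc (1 / m) c) N ζ‖ ^ 2) 0 1 =
      ∑ k ∈ Finset.Ico 1 N, ‖smc (1 / m) c k‖ ^ 2 := by
    rw [← avg_normSq]
    unfold Real.circleAverage SP
    rw [smul_eq_mul]
    congr 1
    refine intervalIntegral.integral_congr fun θ _ => ?_
    simp only [sm_pt_zero]
  rw [h1]
  unfold DL
  rw [Finset.mul_sum]
  refine Finset.sum_le_sum fun k hk => ?_
  have hk1 : 1 ≤ k := (Finset.mem_Ico.1 hk).1
  have hkR : (0 : ℝ) < k := by exact_mod_cast hk1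
  rw [sm_norm, mul_pow]
  have h2 : Real.exp (-(k * (1 / m))) ^ 2 ≤ m / k := by
    rw [← Real.exp_nat_mul]
    have h3 : ((2 : ℕ) : ℝ) * (-((k : ℝ) * (1 / m))) = -(2 * (k / m)) := by
      push_cast
      ring
    rw [h3, Real.exp_neg]
    have h4 : (k : ℝ) / m ≤ Real.exp (2 * (k / m)) := by
      have h5 := Real.add_one_le_exp (2 * ((k : ℝ) / m))
      have h6 : (0 : ℝ) < k / m := by positivity
      linarith
    rw [inv_le_comm₀ (Real.exp_pos _) (by positivity), inv_div]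
    exact h4
  calc Real.exp (-(k * (1 / m))) ^ 2 * ‖c k‖ ^ 2 ≤ m / k * ‖c k‖ ^ 2 := by gcongr
    _ = m * (‖c k‖ ^ 2 / k) := by ring

end Pool.Agent.Lib.MP_7ab245_nt.LgE
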