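import Mathlib
import Pool.Agent.Lib.MP_7ab245_nt.LgE.Defs
import Pool.Agent.Lib.MP_7ab245_nt.LgE.Smooth
import Pool.Agent.Lib.MP_7ab245_nt.TrE.PsiGreen
import Pool.Agent.Lib.MP_7ab245_nt.TrE.PsiRay
import Pool.Agent.Lib.MP_7ab245_nt.TrE.Parseval
import Pool.Agent.Lib.MP_7ab245_nt.Len.Pot3

/-! Reduction to smoothed data. -/

set_option autoImplicit false

open Polynomial Finset

namespace Pool.Agent.Lib.MP_7ab245_nt.LgE

open Pool.Agent.Lib.MP_7ab245_nt.Len
open Pool.Agent.Lib.MP_7ab245_nt.L1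
open Pool.Agent.Lib.MP_7ab245_nt.TrE

private theorem red_cm (θ : ℝ) : circleMap 0 1 θ = pt 0 θ := by
  unfold circleMap pt
  simp

private theorem red_Gen_ae {n : ℕ} (α : Fin n → ℂ) :
    ∀ᵐ θ ∂(MeasureTheory.volume.restrict (Set.Icc 0 (2 * Real.pi))), Gen α θ := by
  rw [MeasureTheory.ae_restrict_iff' measurableSet_Icc, MeasureTheory.ae_iff]
  have h := (Gen_cofinite α).measure_zero MeasureTheory.volume
  refine MeasureTheory.measure_mono_null ?_ h
  intro θ hθ
  have h1 : ¬ (θ ∈ Set.Icc 0 (2 * Real.pi) → Gen α θ) := hθ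
  rw [Classical.not_imp] at h1
  exact h1

/-- `kapL` as twice the mean of the positive part -/
private theorem red_kapL {n : ℕ} (y : Fin n → ℂ) (hy1 : ∀ l, ‖y l‖ ≤ 1) (c : ℕ → ℂ) (N : ℕ)
    (v : ℝ → ℝ) (hv : ∀ θ, v θ = -(VV y 0 (pt 0 θ) - LL c N (pt 0 θ))) :
    IntervalIntegrable v MeasureTheory.volume 0 (2 * Real.pi) ∧
    kapL y c N = 2 * ((2 * Real.pi)⁻¹ * ∫ θ in (0 : ℝ)..(2 * Real.pi), max (v θ) 0) := by
  have hvf : v = fun θ => -(VV y 0 (pt 0 θ) - LL c N (pt 0 θ)) := funext hv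
  have hvi : IntervalIntegrable v MeasureTheory.volume 0 (2 * Real.pi) := by
    have h := circleIntegrable_sub_LL y c N
    unfold CircleIntegrable at h
    simp only [red_cm] at h
    rw [hvf]
    exact h.neg
  have hv0 : ∫ θ in (0 : ℝ)..(2 * Real.pi), v θ = 0 := by
    have h1 := circleAverage_VV y hy1
    have h2 := circleAverage_LL c N
    have h3 := circleIntegrable_VV y
    have h4 := circleIntegrable_LL c N
    rw [Real.circleAverage_def, smul_eq_mul, mul_eq_zero] at h1 h2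
    have hne : ¬ (2 * Real.pi)⁻¹ = 0 := by positivity
    replace h1 := h1.resolve_left hne
    replace h2 := h2.resolve_left hne
    unfold CircleIntegrable at h3 h4
    simp only [red_cm] at h1 h2 h3 h4
    rw [hvf, intervalIntegral.integral_neg, intervalIntegral.integral_sub h3 h4, h1, h2]
    simp
  refine ⟨hvi, ?_⟩
  unfold kapL
  rw [Real.circleAverage_def, smul_eq_mul]
  simp only [red_cm]
  have h1 : ∀ θ, |VV y 0 (pt 0 θ) - LL c N (pt 0 θ)| = 2 * max (v θ) 0 - v θ := by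
    intro θ
    have h2 : VV y 0 (pt 0 θ) - LL c N (pt 0 θ) = -(v θ) := by rw [hv]; ring
    rw [h2, abs_neg]
    rcases le_total 0 (v θ) with h | h
    · rw [abs_of_nonneg h, max_eq_left h]; ring
    · rw [abs_of_nonpos h, max_eq_right h]; ring
  simp_rw [h1]
  have hmi : IntervalIntegrable (fun θ => max (v θ) 0) MeasureTheory.volume 0 (2 * Real.pi) := by
    rw [intervalIntegrable_iff] at hvi ⊢
    exact hvi.pos_part
  rw [intervalIntegral.integral_sub (hmi.const_mul 2) hvi, hv0,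
    intervalIntegral.integral_const_mul]
  ring

private theorem red_gr_nonneg (s δ x : ℝ) (hs : 0 < s) (hδ : 0 < δ) (hx : x < 1) :
    0 ≤ gr s δ x := by
  unfold gr
  have h1 : 1 ≤ Real.cosh (s - δ) := Real.one_le_cosh _
  have h2 : Real.cosh (s - δ) ≤ Real.cosh (s + δ) := by
    rw [Real.cosh_le_cosh, abs_of_pos (by linarith : 0 < s + δ), abs_le]
    constructor <;> linarith
  refine mul_nonneg (by norm_num) (Real.log_nonneg ?_)
  rw [le_div_iff₀ (by linarith)]
  linarith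

private theorem red_Lam_nonneg {n : ℕ} (α : Fin n → ℂ) (hα : ∀ l, α l ≠ 0) (s θ : ℝ) (hs : 0 < s)
    (hθ : Gen α θ) : 0 ≤ Lam α (pt s θ) := by
  rw [Lam_eq_gr α hα s θ hs hθ]
  refine Finset.sum_nonneg fun l hl => ?_
  exact red_gr_nonneg s _ _ hs (Real.log_pos (Finset.mem_filter.1 hl).2)
    (lt_of_le_of_ne (Real.cos_le_one _) (hθ l))

private theorem red_arg (s : ℝ) (a : ℂ) : ((Real.exp (-s) : ℂ) * a).arg = a.arg := by
  rw [Complex.arg_real_mul _ (Real.exp_pos _)]

private theorem red_VV_shift {n : ℕ} (α : Fin n → ℂ) (s θ : ℝ) :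
    VV (fun l => (Real.exp (-s) : ℂ) * α l) 0 (pt 0 θ) = VV α 0 (pt s θ) := by
  have hpt : pt s θ = (Real.exp (-s) : ℂ) * pt 0 θ := by
    unfold pt
    rw [Complex.ofReal_exp, ← Complex.exp_add]
    congr 1
    push_cast
    ring
  unfold VV
  congr 1
  refine Finset.sum_congr rfl fun l _ => ?_
  rw [hpt, map_mul, Complex.conj_ofReal]
  congr 3
  ring

private theorem red_hh_le {n : ℕ} (α : Fin n → ℂ) (s : ℝ) (hs : 0 ≤ s) :
    hh (fun l => (Real.exp (-s) : ℂ) * α l) ≤ hh α := by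
  unfold hh
  refine Finset.sum_le_sum fun l _ => ?_
  refine Real.posLog_le_posLog (norm_nonneg _) ?_
  rw [norm_mul, Complex.norm_real, Real.norm_of_nonneg (Real.exp_pos _).le]
  have h1 : Real.exp (-s) ≤ 1 := Real.exp_le_one_iff.2 (by linarith)
  nlinarith [norm_nonneg (α l)]

private theorem red_hh_nonneg {n : ℕ} (α : Fin n → ℂ) : 0 ≤ hh α := by
  unfold hh
  exact Finset.sum_nonneg fun l _ => Real.posLog_nonneg

/-- the mean of the modulus is at most the square root of the mean of the square -/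
private theorem red_cs (D : ℝ → ℝ) (hD : Continuous D) (B : ℝ)
    (h : (2 * Real.pi)⁻¹ * ∫ θ in (0 : ℝ)..(2 * Real.pi), D θ ^ 2 ≤ B) :
    (2 * Real.pi)⁻¹ * ∫ θ in (0 : ℝ)..(2 * Real.pi), |D θ| ≤ Real.sqrt B := by
  have hpi : (0 : ℝ) < 2 * Real.pi := by positivity
  set a : ℝ := (2 * Real.pi)⁻¹ * ∫ θ in (0 : ℝ)..(2 * Real.pi), |D θ| with ha
  have hI1 : IntervalIntegrable (fun θ => |D θ|) MeasureTheory.volume 0 (2 * Real.pi) :=
    hD.abs.intervalIntegrable _ _
  have hI2 : IntervalIntegrable (fun θ => D θ ^ 2) MeasureTheory.volume 0 (2 * Real.pi) :=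
    (hD.pow 2).intervalIntegrable _ _
  have h1 : 0 ≤ (2 * Real.pi)⁻¹ * ∫ θ in (0 : ℝ)..(2 * Real.pi), (|D θ| - a) ^ 2 := by
    refine mul_nonneg (by positivity) ?_
    exact intervalIntegral.integral_nonneg hpi.le fun θ _ => sq_nonneg _
  have h2 : ∀ θ, (|D θ| - a) ^ 2 = D θ ^ 2 - 2 * a * |D θ| + a ^ 2 := by
    intro θ
    rw [← sq_abs (D θ)]
    ring
  simp_rw [h2] at h1
  rw [intervalIntegral.integral_add (hI2.sub (hI1.const_mul _)) intervalIntegrable_const,
    intervalIntegral.integral_sub hI2 (hI1.const_mul _), intervalIntegral.integral_const_mul,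
    intervalIntegral.integral_const, smul_eq_mul] at h1
  have h3 : (2 * Real.pi)⁻¹ * ((∫ θ in (0 : ℝ)..(2 * Real.pi), D θ ^ 2) -
      2 * a * (∫ θ in (0 : ℝ)..(2 * Real.pi), |D θ|) + (2 * Real.pi - 0) * a ^ 2) =
      (2 * Real.pi)⁻¹ * (∫ θ in (0 : ℝ)..(2 * Real.pi), D θ ^ 2) - a ^ 2 := by
    have h4 : (∫ θ in (0 : ℝ)..(2 * Real.pi), |D θ|) = 2 * Real.pi * a := by
      rw [ha]
      field_simp
    rw [h4]
    field_simp
    ring
  rw [h3] at h1
  exact Real.le_sqrt_of_sq_le (by linarith)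

theorem kapL_smooth {n : ℕ} (hn : 0 < n) (α : Fin n → ℂ) (hα : ∀ l, α l ≠ 0) (hh1 : hh α ≤ 1)
    (c : ℕ → ℂ) (N m : ℕ) (hm : 1 ≤ m) :
    kapL (fun l => Len.refl (α l)) c N ≤
      kapL (fun l => Len.refl ((Real.exp (-(1 / m)) : ℂ) * α l)) (smc (1 / m) c) N +
        2 * (1 + n / m + Real.sqrt (DL c N / m)) := by
  have hm' : (0 : ℝ) < m := by exact_mod_cast hm
  have hpi : (0 : ℝ) < 2 * Real.pi := by positivity
  set σ : ℝ := 1 / m with hσ
  have hσ0 : 0 < σ := by positivity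
  set β : Fin n → ℂ := fun l => (Real.exp (-σ) : ℂ) * α l with hβ
  have hβ0 : ∀ l, β l ≠ 0 := fun l => mul_ne_zero (by
    rw [Complex.ofReal_ne_zero]
    exact (Real.exp_pos _).ne') (hα l)
  have hbase := base_sq c N m (by omega)
  rw [← hσ] at hbase
  obtain ⟨hvi, hk⟩ := red_kapL (fun l => Len.refl (α l)) (fun l => norm_refl_le (α l)) c N
    (fun θ => -(VV (fun l => Len.refl (α l)) 0 (pt 0 θ) - LL c N (pt 0 θ))) (fun θ => rfl)
  obtain ⟨hvi', hk'⟩ := red_kapL (fun l => Len.refl (β l)) (fun l => norm_refl_le (β l))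
    (smc σ c) N
    (fun θ => -(VV (fun l => Len.refl (β l)) 0 (pt 0 θ) - LL (smc σ c) N (pt 0 θ))) (fun θ => rfl)
  set v : ℝ → ℝ := fun θ => -(VV (fun l => Len.refl (α l)) 0 (pt 0 θ) - LL c N (pt 0 θ)) with hv
  set v' : ℝ → ℝ := fun θ => -(VV (fun l => Len.refl (β l)) 0 (pt 0 θ) -
    LL (smc σ c) N (pt 0 θ)) with hv'
  -- the function `G`
  set G : ℝ → ℝ := fun θ => (hh α - hh β) + VV (fun l => Len.refl (β l)) 0 (pt 0 θ) -
    VV (fun l => Len.refl (α l)) 0 (pt σ θ) with hG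
  set D : ℝ → ℝ := fun θ => LL c N (pt 0 θ) - LL c N (pt σ θ) with hD
  have hDc : Continuous D :=
    ((continuous_LL _ _).comp (continuous_pt 0)).sub ((continuous_LL _ _).comp (continuous_pt σ))
  have hV1 : IntervalIntegrable (fun θ => VV (fun l => Len.refl (β l)) 0 (pt 0 θ))
      MeasureTheory.volume 0 (2 * Real.pi) := by
    have h := circleIntegrable_VV (fun l => Len.refl (β l))
    unfold CircleIntegrable at h
    simpa only [red_cm] using h
  have hV1m : ∫ θ in (0 : ℝ)..(2 * Real.pi), VV (fun l => Len.refl (β l)) 0 (pt 0 θ) = 0 := by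
    have h1 := circleAverage_VV (fun l => Len.refl (β l)) (fun l => norm_refl_le (β l))
    rw [Real.circleAverage_def, smul_eq_mul, mul_eq_zero] at h1
    have hne : ¬ (2 * Real.pi)⁻¹ = 0 := by positivity
    replace h1 := h1.resolve_left hne
    simpa only [red_cm] using h1
  have hV2 : IntervalIntegrable (fun θ => VV (fun l => Len.refl (α l)) 0 (pt σ θ))
      MeasureTheory.volume 0 (2 * Real.pi) :=
    (continuous_VV_pt _ (fun l => norm_refl_le (α l)) 0 hσ0).intervalIntegrable _ _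
  have hV2m : ∫ θ in (0 : ℝ)..(2 * Real.pi), VV (fun l => Len.refl (α l)) 0 (pt σ θ) = 0 := by
    have h1 := average_VV (fun l => Len.refl (α l)) (fun l => norm_refl_le (α l)) 0 hσ0
    rw [mul_eq_zero] at h1
    have hne : ¬ (2 * Real.pi)⁻¹ = 0 := by positivity
    exact h1.resolve_left hne
  have hGi : IntervalIntegrable G MeasureTheory.volume 0 (2 * Real.pi) :=
    (intervalIntegrable_const.add hV1).sub hV2
  have hGm : (2 * Real.pi)⁻¹ * ∫ θ in (0 : ℝ)..(2 * Real.pi), G θ ≤ 1 := by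
    have e : ∫ θ in (0 : ℝ)..(2 * Real.pi), G θ = 2 * Real.pi * (hh α - hh β) := by
      simp only [hG]
      rw [intervalIntegral.integral_sub (intervalIntegrable_const.add hV1) hV2,
        intervalIntegral.integral_add intervalIntegrable_const hV1, hV1m, hV2m,
        intervalIntegral.integral_const, smul_eq_mul]
      ring
    rw [e, ← mul_assoc, inv_mul_cancel₀ hpi.ne', one_mul]
    have := red_hh_nonneg β
    linarith
  have hmi : IntervalIntegrable (fun θ => max (v θ) 0) MeasureTheory.volume 0 (2 * Real.pi) := by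
    rw [intervalIntegrable_iff] at hvi ⊢
    exact hvi.pos_part
  have hmi' : IntervalIntegrable (fun θ => max (v' θ) 0) MeasureTheory.volume 0 (2 * Real.pi) := by
    rw [intervalIntegrable_iff] at hvi' ⊢
    exact hvi'.pos_part
  have hDi : IntervalIntegrable (fun θ => |D θ|) MeasureTheory.volume 0 (2 * Real.pi) :=
    hDc.abs.intervalIntegrable _ _
  -- the pointwise bound
  have hpoint : ∀ θ, Gen α θ → max (v θ) 0 ≤ max (v' θ) 0 + G θ + (n : ℝ) * σ + |D θ| := by
    intro θ hθ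
    have hθβ : Gen β θ := by
      intro l
      simp only [hβ, red_arg]
      exact hθ l
    have hn1 : ‖pt 0 θ‖ = 1 := by rw [norm_pt]; simp
    have h1 := Lam_circle β (pt 0 θ) hn1 (fun l => Gen_ne β hβ0 θ hθβ 0 l)
    unfold Lam at h1
    have h2 : VV β 0 (pt 0 θ) = VV α 0 (pt σ θ) := red_VV_shift α σ θ
    have h3 := red_Lam_nonneg α hα σ θ hσ0 hθ
    unfold Lam at h3
    have h4 := VV_outward (fun l => Len.refl (α l)) (fun l => norm_refl_le (α l)) σ θ hσ0.le
      (fun l => Gen_ne_refl α hα θ hθ 0 l)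
    have h5 := LL_smc_pt c N σ θ
    have h6 := red_hh_le α σ hσ0.le
    have h7 := le_abs_self (D θ)
    have hGe : G θ = hh α + VV α 0 (pt σ θ) - VV (fun l => Len.refl (α l)) 0 (pt σ θ) := by
      simp only [hG]
      rw [← h2]
      linarith
    have hG0 : 0 ≤ G θ := by rw [hGe]; exact h3
    have hD0 : 0 ≤ |D θ| := abs_nonneg _
    have hvle : v θ ≤ v' θ + G θ + (n : ℝ) * σ + |D θ| := by
      simp only [hv, hv']
      rw [h5]
      have h8 : D θ = LL c N (pt 0 θ) - LL c N (pt σ θ) := rfl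
      have h9 : G θ = (hh α - hh β) + VV (fun l => Len.refl (β l)) 0 (pt 0 θ) -
        VV (fun l => Len.refl (α l)) 0 (pt σ θ) := rfl
      have h6' : hh β ≤ hh α := h6
      linarith
    have hnσ : 0 ≤ (n : ℝ) * σ := by positivity
    refine max_le ?_ ?_
    · have := le_max_left (v' θ) 0
      linarith
    · have := le_max_right (v' θ) 0
      linarith
  have hint : ∫ θ in (0 : ℝ)..(2 * Real.pi), max (v θ) 0 ≤
      ∫ θ in (0 : ℝ)..(2 * Real.pi), (max (v' θ) 0 + G θ + (n : ℝ) * σ + |D θ|) := by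
    refine intervalIntegral.integral_mono_ae_restrict hpi.le hmi
      (((hmi'.add hGi).add intervalIntegrable_const).add hDi) ?_
    filter_upwards [red_Gen_ae α] with θ hθ
    exact hpoint θ hθ
  have hsplit : ∫ θ in (0 : ℝ)..(2 * Real.pi), (max (v' θ) 0 + G θ + (n : ℝ) * σ + |D θ|) =
      (∫ θ in (0 : ℝ)..(2 * Real.pi), max (v' θ) 0) + (∫ θ in (0 : ℝ)..(2 * Real.pi), G θ) +
        2 * Real.pi * (n * σ) + ∫ θ in (0 : ℝ)..(2 * Real.pi), |D θ| := by
    rw [intervalIntegral.integral_add ((hmi'.add hGi).add intervalIntegrable_const) hDi,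
      intervalIntegral.integral_add (hmi'.add hGi) intervalIntegrable_const,
      intervalIntegral.integral_add hmi' hGi, intervalIntegral.integral_const, smul_eq_mul]
    ring
  have hcs := red_cs D hDc (DL c N / m) hbase
  have hfin : (2 * Real.pi)⁻¹ * ∫ θ in (0 : ℝ)..(2 * Real.pi), max (v θ) 0 ≤
      (2 * Real.pi)⁻¹ * (∫ θ in (0 : ℝ)..(2 * Real.pi), max (v' θ) 0) + 1 + n * σ +
        Real.sqrt (DL c N / m) := by
    calc (2 * Real.pi)⁻¹ * ∫ θ in (0 : ℝ)..(2 * Real.pi), max (v θ) 0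
        ≤ (2 * Real.pi)⁻¹ * ∫ θ in (0 : ℝ)..(2 * Real.pi),
          (max (v' θ) 0 + G θ + (n : ℝ) * σ + |D θ|) := by gcongr
      _ = (2 * Real.pi)⁻¹ * (∫ θ in (0 : ℝ)..(2 * Real.pi), max (v' θ) 0) +
          (2 * Real.pi)⁻¹ * (∫ θ in (0 : ℝ)..(2 * Real.pi), G θ) + n * σ +
          (2 * Real.pi)⁻¹ * ∫ θ in (0 : ℝ)..(2 * Real.pi), |D θ| := by
        rw [hsplit]
        field_simp
      _ ≤ _ := by linarith
  have hns : (n : ℝ) * σ = n / m := by rw [hσ]; ring
  rw [hns] at hfin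
  rw [hk, hk']
  linarith

end Pool.Agent.Lib.MP_7ab245_nt.LgE
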