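import Mathlib
import Pool.Agent.Lib.MP_7ab245_nt.LgE.Defs
import Pool.Agent.Lib.MP_7ab245_nt.TrE.Basic

/-! The derivative of a harmonic polynomial is controlled by the Poisson integral of its modulus;
means of smoothed harmonic polynomials. -/

set_option autoImplicit false

open Polynomial Finset

namespace Pool.Agent.Lib.MP_7ab245_nt.LgE

open Pool.Agent.Lib.MP_7ab245_nt.Len
open Pool.Agent.Lib.MP_7ab245_nt.L1
open Pool.Agent.Lib.MP_7ab245_nt.TrE

private lemma schw_pt (s θ : ℝ) : pt s θ = circleMap 0 (Real.exp (-s)) θ := by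
  unfold pt circleMap
  rw [Complex.exp_add, zero_add, Complex.ofReal_exp]

private lemma schw_pt_mul (s θ : ℝ) : pt s θ = (Real.exp (-s) : ℂ) * circleMap 0 1 θ := by
  unfold pt circleMap
  rw [Complex.exp_add, Complex.ofReal_exp]
  simp

private lemma schw_norm (s θ : ℝ) : ‖pt s θ‖ = Real.exp (-s) := by
  unfold pt
  rw [Complex.norm_exp]
  simp

private lemma schw_lt {s : ℝ} (hs : 0 < s) (θ : ℝ) : ‖pt s θ‖ < 1 := by
  rw [schw_norm]
  exact Real.exp_lt_one_iff.mpr (by linarith)

theorem avg_PP_pt (W : ℂ → ℝ) (hWi : CircleIntegrable W 0 1) (s : ℝ) (hs : 0 < s) :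
    (2 * Real.pi)⁻¹ * ∫ θ in (0 : ℝ)..(2 * Real.pi), PP W (pt s θ) =
      Real.circleAverage W 0 1 := by
  have h0 : PP W 0 = Real.circleAverage W 0 1 := by
    unfold PP
    apply Real.circleAverage_congr_sphere
    intro ζ hζ
    have h1 : ‖ζ‖ = 1 := by simpa using hζ
    simp only [poissonKernel_def, sub_zero, norm_zero, h1]
    norm_num
  have h1 : Real.circleAverage (PP W) 0 (Real.exp (-s)) = PP W 0 := by
    apply InnerProductSpace.HarmonicOnNhd.circleAverage_eq
    intro z hz
    apply PP_harmonicAt W hWi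
    rw [mem_closedBall_zero_iff, abs_of_pos (Real.exp_pos _)] at hz
    exact lt_of_le_of_lt hz (Real.exp_lt_one_iff.mpr (by linarith))
  rw [Real.circleAverage_def, smul_eq_mul] at h1
  have h3 : (fun θ => PP W (pt s θ)) = fun θ => PP W (circleMap 0 (Real.exp (-s)) θ) := by
    funext θ
    rw [schw_pt]
  rw [← h0, ← h1, ← h3]

/-- the analytic polynomial with real part `LL r N` -/
private noncomputable def GG (r : ℕ → ℂ) (N : ℕ) (w : ℂ) : ℂ :=
  ∑ k ∈ Finset.Ico 1 N, r k * w ^ k / k

private lemma GG_diff (r : ℕ → ℂ) (N : ℕ) : Differentiable ℂ (GG r N) := by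
  unfold GG
  fun_prop

private lemma GG_zero (r : ℕ → ℂ) (N : ℕ) : GG r N 0 = 0 := by
  unfold GG
  refine sum_eq_zero fun k hk => ?_
  have : k ≠ 0 := by
    have := (mem_Ico.1 hk).1
    omega
  rw [zero_pow this, mul_zero, zero_div]

private lemma GG_deriv (r : ℕ → ℂ) (N : ℕ) (z : ℂ) : z * deriv (GG r N) z = SP r N z := by
  have h1 : HasDerivAt (GG r N) (∑ k ∈ Finset.Ico 1 N, r k * ((k : ℂ) * z ^ (k - 1)) / k) z := by
    unfold GG
    apply HasDerivAt.fun_sum
    intro k _
    exact ((hasDerivAt_pow k z).const_mul (r k)).div_const _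
  rw [h1.deriv]
  unfold SP
  rw [mul_sum]
  refine sum_congr rfl fun k hk => ?_
  have hk1 := (mem_Ico.1 hk).1
  have hk0 : (k : ℂ) ≠ 0 := by
    have : k ≠ 0 := by omega
    exact_mod_cast this
  have hz : z ^ k = z * z ^ (k - 1) := by
    rw [← pow_succ']
    congr 1
    omega
  rw [hz]
  field_simp

private lemma sphere_ne {z w : ℂ} (hz : ‖z‖ < 1) (hw : w ∈ Metric.sphere (0 : ℂ) |(1 : ℝ)|) :
    w - z ≠ 0 := poisson_ne hz (norm_of_mem_sphere hw)

/-- the Cauchy formula for the derivative -/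
private lemma claimA (r : ℕ → ℂ) (N : ℕ) (z : ℂ) (hz : ‖z‖ < 1) :
    Real.circleAverage (fun w => z * w / (w - z) ^ 2 * GG r N w) 0 1 = SP r N z := by
  have h1 := Complex.two_pi_I_inv_smul_circleIntegral_sub_sq_inv_smul_of_differentiable
    (U := Set.univ) isOpen_univ (c := 0) (w₀ := z) (R := 1) (f := GG r N) (Set.subset_univ _)
    (GG_diff r N).differentiableOn (by simpa using hz)
  rw [Real.circleAverage_eq_circleIntegral one_ne_zero, ← GG_deriv, ← h1]
  rw [smul_eq_mul, smul_eq_mul, mul_left_comm z]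
  congr 1
  rw [← circleIntegral.integral_const_mul z]
  apply circleIntegral.integral_congr zero_le_one
  intro w hw
  have hw1 : ‖w‖ = 1 := by simpa using hw
  have hw0 : w ≠ 0 := by
    intro h
    rw [h, norm_zero] at hw1
    exact zero_ne_one hw1
  have hwz : w - z ≠ 0 := poisson_ne hz hw1
  simp only [smul_eq_mul, sub_zero]
  field_simp

/-- the conjugate part gives nothing -/
private lemma claimB (r : ℕ → ℂ) (N : ℕ) (z : ℂ) (hz : ‖z‖ < 1) :
    Real.circleAverage (fun w => z * w / (w - z) ^ 2 * (starRingEnd ℂ) (GG r N w)) 0 1 = 0 := by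
  set r' : ℕ → ℂ := fun k => (starRingEnd ℂ) (r k) with hr'
  have h1 : Real.circleAverage (fun w => z * w / (w - z) ^ 2 * (starRingEnd ℂ) (GG r N w)) 0 1 =
      Real.circleAverage (fun w => (fun v => z * v / (1 - z * v) ^ 2 * GG r' N v) w⁻¹) 0 1 := by
    apply Real.circleAverage_congr_sphere
    intro w hw
    have hw1 := norm_of_mem_sphere hw
    have hw0 : w ≠ 0 := by
      intro h
      rw [h, norm_zero] at hw1
      exact zero_ne_one hw1
    have hwz : w - z ≠ 0 := poisson_ne hz hw1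
    have hc : (starRingEnd ℂ) w = w⁻¹ := by
      rw [Complex.inv_def, Complex.normSq_eq_norm_sq, hw1]
      simp
    have hG : (starRingEnd ℂ) (GG r N w) = GG r' N w⁻¹ := by
      unfold GG
      rw [map_sum]
      refine sum_congr rfl fun k _ => ?_
      rw [map_div₀, map_mul, map_pow, hc, Complex.conj_natCast]
    show z * w / (w - z) ^ 2 * (starRingEnd ℂ) (GG r N w) =
      z * w⁻¹ / (1 - z * w⁻¹) ^ 2 * GG r' N w⁻¹
    rw [hG]
    congr 1
    have h3 : 1 - z * w⁻¹ = (w - z) / w := by
      field_simp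
    rw [h3]
    field_simp
  rw [h1]
  rw [Real.circleAverage_zero_one_congr_inv (f := fun v => z * v / (1 - z * v) ^ 2 * GG r' N v)]
  have h2 : DiffContOnCl ℂ (fun v => z * v / (1 - z * v) ^ 2 * GG r' N v)
      (Metric.ball 0 |(1 : ℝ)|) := by
    have hne : ∀ v ∈ Metric.closedBall (0 : ℂ) 1, (1 - z * v) ^ 2 ≠ 0 := by
      intro v hv
      rw [mem_closedBall_zero_iff] at hv
      apply pow_ne_zero
      intro h
      have h3 : z * v = 1 := by
        rw [sub_eq_zero] at h
        exact h.symm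
      have h4 : ‖z * v‖ = 1 := by rw [h3, norm_one]
      rw [norm_mul] at h4
      have h5 : ‖z‖ * ‖v‖ ≤ ‖z‖ * 1 := by gcongr
      linarith
    have hd : DifferentiableOn ℂ (fun v => z * v / (1 - z * v) ^ 2 * GG r' N v)
        (Metric.closedBall 0 1) := by
      apply DifferentiableOn.mul
      · apply DifferentiableOn.div
        · fun_prop
        · fun_prop
        · exact hne
      · exact (GG_diff r' N).differentiableOn
    rw [abs_one]
    apply DifferentiableOn.diffContOnCl
    rw [closure_ball (0 : ℂ) one_ne_zero]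
    exact hd
  rw [h2.circleAverage]
  simp

private lemma norm_circleAverage_le (f : ℂ → ℂ) :
    ‖Real.circleAverage f 0 1‖ ≤ Real.circleAverage (fun w => ‖f w‖) 0 1 := by
  unfold Real.circleAverage
  rw [norm_smul, Real.norm_of_nonneg (by positivity), smul_eq_mul]
  refine mul_le_mul_of_nonneg_left ?_ (by positivity)
  exact intervalIntegral.norm_integral_le_integral_norm (by positivity)

theorem SP_le_PP (r : ℕ → ℂ) (N : ℕ) (z : ℂ) (hz : ‖z‖ < 1) :
    ‖SP r N z‖ ≤ 2 * ‖z‖ / (1 - ‖z‖ ^ 2) * PP (fun ζ => |LL r N ζ|) z := by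
  have hKc : ContinuousOn (fun w : ℂ => z * w / (w - z) ^ 2) (Metric.sphere 0 1) := by
    apply ContinuousOn.div
    · fun_prop
    · fun_prop
    · intro w hw
      have hw1 : ‖w‖ = 1 := by simpa using hw
      exact pow_ne_zero _ (poisson_ne hz hw1)
  have hGc : Continuous (GG r N) := (GG_diff r N).continuous
  have hi1 : CircleIntegrable (fun w => z * w / (w - z) ^ 2 * GG r N w) 0 1 := by
    apply ContinuousOn.circleIntegrable zero_le_one
    exact hKc.mul hGc.continuousOn
  have hi2 : CircleIntegrable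
      (fun w => z * w / (w - z) ^ 2 * (starRingEnd ℂ) (GG r N w)) 0 1 := by
    apply ContinuousOn.circleIntegrable zero_le_one
    exact hKc.mul (Complex.continuous_conj.comp hGc).continuousOn
  have h1 : SP r N z = Real.circleAverage
      (fun w => z * w / (w - z) ^ 2 * (2 * (LL r N w : ℂ))) 0 1 := by
    have h2 := Real.circleAverage_fun_add hi1 hi2
    rw [claimA r N z hz, claimB r N z hz, add_zero] at h2
    rw [← h2]
    congr 1
    funext w
    have h3 : (2 * (LL r N w : ℂ)) = GG r N w + (starRingEnd ℂ) (GG r N w) := by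
      rw [Complex.add_conj]
      unfold LL GG
      push_cast
      ring
    rw [h3]
    ring
  rw [h1]
  refine (norm_circleAverage_le _).trans (le_of_eq ?_)
  have hz2 : 0 < 1 - ‖z‖ ^ 2 := by nlinarith [norm_nonneg z]
  unfold PP
  rw [← smul_eq_mul (2 * ‖z‖ / (1 - ‖z‖ ^ 2)), ← Real.circleAverage_fun_smul]
  apply Real.circleAverage_congr_sphere
  intro w hw
  have hw1 := norm_of_mem_sphere hw
  have hwz : w - z ≠ 0 := poisson_ne hz hw1
  have hwz' : 0 < ‖w - z‖ := norm_pos_iff.mpr hwz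
  simp only [smul_eq_mul]
  rw [poissonKernel_zero_eq, norm_mul, norm_div, norm_mul, norm_mul, norm_pow, hw1,
    Complex.norm_real, Real.norm_eq_abs, Complex.norm_ofNat]
  field_simp

private lemma smc_pow (s : ℝ) (r : ℕ → ℂ) (k : ℕ) (θ : ℝ) :
    smc s r k * (circleMap 0 1 θ) ^ k = r k * (pt s θ) ^ k := by
  unfold smc
  rw [schw_pt_mul, mul_pow, ← Complex.ofReal_pow, ← Real.exp_nat_mul]
  have h : (k : ℝ) * -s = -(k * s) := by ring
  rw [h]
  ring

private lemma SP_smc' (s : ℝ) (r : ℕ → ℂ) (N : ℕ) (θ : ℝ) :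
    SP (smc s r) N (circleMap 0 1 θ) = SP r N (pt s θ) := by
  unfold SP
  exact sum_congr rfl fun k _ => smc_pow s r k θ

private lemma LL_smc' (s : ℝ) (r : ℕ → ℂ) (N : ℕ) (θ : ℝ) :
    LL (smc s r) N (circleMap 0 1 θ) = LL r N (pt s θ) := by
  unfold LL
  congr 1
  exact sum_congr rfl fun k _ => by rw [smc_pow s r k θ]

private lemma continuous_pt' (s : ℝ) : Continuous (pt s) := by
  unfold pt
  fun_prop

private lemma circleIntegrable_absLL (r : ℕ → ℂ) (N : ℕ) :
    CircleIntegrable (fun ζ => |LL r N ζ|) 0 1 := by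
  apply ContinuousOn.circleIntegrable zero_le_one
  exact (continuous_LL r N).abs.continuousOn

theorem avg_SP_smooth (r : ℕ → ℂ) (N : ℕ) (s : ℝ) (hs : 0 < s) :
    Real.circleAverage (fun ζ => ‖SP (smc s r) N ζ‖) 0 1 ≤
      s⁻¹ * Real.circleAverage (fun ζ => |LL r N ζ|) 0 1 := by
  have hi := circleIntegrable_absLL r N
  rw [← avg_PP_pt _ hi s hs]
  have hcP := continuous_PP_pt _ hi s hs
  have hcS : Continuous (SP r N) := by
    unfold SP
    fun_prop
  unfold Real.circleAverage
  rw [smul_eq_mul, mul_left_comm s⁻¹, ← intervalIntegral.integral_const_mul s⁻¹]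
  refine mul_le_mul_of_nonneg_left ?_ (inv_nonneg.mpr Real.two_pi_pos.le)
  apply intervalIntegral.integral_mono_on Real.two_pi_pos.le
  · refine Continuous.intervalIntegrable ?_ _ _
    simp only [SP_smc']
    exact (hcS.comp (continuous_pt' s)).norm
  · exact (continuous_const.mul hcP).intervalIntegrable _ _
  · intro θ _
    show ‖SP (smc s r) N (circleMap 0 1 θ)‖ ≤ _
    rw [SP_smc']
    refine (SP_le_PP r N (pt s θ) (schw_lt hs θ)).trans ?_
    refine mul_le_mul_of_nonneg_right ?_
      (PP_nonneg _ (fun ζ _ => abs_nonneg _) _ (schw_lt hs θ))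
    rw [schw_norm]
    have hq : 0 < Real.exp (-s) := Real.exp_pos _
    have hq1 : Real.exp (-s) < 1 := Real.exp_lt_one_iff.mpr (by linarith)
    have hq2 : 0 < 1 - Real.exp (-s) ^ 2 := by nlinarith
    have hsinh : Real.sinh s = (1 - Real.exp (-s) ^ 2) / (2 * Real.exp (-s)) := by
      have hEs : Real.exp (-s) * Real.exp s = 1 := by rw [← Real.exp_add]; simp
      rw [Real.sinh_eq, div_eq_div_iff two_ne_zero (by positivity)]
      linear_combination 2 * hEs
    have h1 : 2 * Real.exp (-s) / (1 - Real.exp (-s) ^ 2) = (Real.sinh s)⁻¹ := by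
      rw [hsinh, inv_div]
    rw [h1]
    have h2 : s ≤ Real.sinh s := Real.self_le_sinh_iff.mpr hs.le
    exact inv_anti₀ hs h2

private lemma abs_PP_le (f : ℂ → ℝ) (z : ℂ) (hz : ‖z‖ < 1) :
    |PP f z| ≤ PP (fun ζ => |f ζ|) z := by
  unfold PP
  refine (Real.abs_circleAverage_le_circleAverage_abs).trans (le_of_eq ?_)
  apply Real.circleAverage_congr_sphere
  intro ζ hζ
  have h1 := norm_of_mem_sphere hζ
  show |poissonKernel 0 z ζ * f ζ| = poissonKernel 0 z ζ * |f ζ|
  rw [abs_mul, abs_of_nonneg (poissonKernel_zero_nonneg hz h1)]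

theorem avg_LL_smooth (r : ℕ → ℂ) (N : ℕ) (s : ℝ) (hs : 0 < s) :
    Real.circleAverage (fun ζ => |LL (smc s r) N ζ|) 0 1 ≤
      Real.circleAverage (fun ζ => |LL r N ζ|) 0 1 := by
  have hi := circleIntegrable_absLL r N
  rw [← avg_PP_pt _ hi s hs]
  have hcP := continuous_PP_pt _ hi s hs
  unfold Real.circleAverage
  rw [smul_eq_mul]
  refine mul_le_mul_of_nonneg_left ?_ (by positivity)
  apply intervalIntegral.integral_mono_on (by positivity)
  · refine Continuous.intervalIntegrable ?_ _ _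
    simp only [LL_smc']
    exact ((continuous_LL r N).comp (continuous_pt' s)).abs
  · exact hcP.intervalIntegrable _ _
  · intro θ _
    show |LL (smc s r) N (circleMap 0 1 θ)| ≤ _
    rw [LL_smc', LL_eq_PP r N _ (schw_lt hs θ)]
    exact abs_PP_le _ _ (schw_lt hs θ)

end Pool.Agent.Lib.MP_7ab245_nt.LgE
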