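import Mathlib
import Pool.Agent.Lib.MP_7ab245_nt.LgE.Defs
import Pool.Agent.Lib.MP_7ab245_nt.LgE.Smooth
import Pool.Agent.Lib.MP_7ab245_nt.LgE.Schw
import Pool.Agent.Lib.MP_7ab245_nt.LgE.Red
import Pool.Agent.Lib.MP_7ab245_nt.LgE.Main

/-! The mean of `|V - L|`. -/

set_option autoImplicit false

open Polynomial Finset

namespace Pool.Agent.Lib.MP_7ab245_nt.LgE

open Pool.Agent.Lib.MP_7ab245_nt.Len
open Pool.Agent.Lib.MP_7ab245_nt.L1
open Pool.Agent.Lib.MP_7ab245_nt.TrE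

private theorem cb_hh {n : ℕ} (α : Fin n → ℂ) (s : ℝ) (hs : 0 ≤ s) :
    hh (fun l => (Real.exp (-s) : ℂ) * α l) ≤ hh α := by
  unfold hh
  refine Finset.sum_le_sum fun l _ => Real.posLog_le_posLog (norm_nonneg _) ?_
  rw [norm_mul, Complex.norm_real, Real.norm_of_nonneg (Real.exp_pos _).le]
  refine mul_le_of_le_one_left (norm_nonneg _) ?_
  rw [Real.exp_le_one_iff]
  linarith

private theorem cb_pw {n : ℕ} (α : Fin n → ℂ) (s : ℝ) (k : ℕ) :
    pw (fun l => (Real.exp (-s) : ℂ) * α l) k = (Real.exp (-(k * s)) : ℂ) * pw α k := by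
  unfold pw
  rw [Finset.mul_sum]
  refine Finset.sum_congr rfl fun l _ => ?_
  rw [map_mul, Complex.conj_ofReal, mul_pow, ← Complex.ofReal_pow, ← Real.exp_nat_mul]
  congr 3
  ring

theorem kapL_le2 {n : ℕ} (hn : 0 < n) (α : Fin n → ℂ) (hα : ∀ l, α l ≠ 0) (hh1 : hh α ≤ 1)
    (c r : ℕ → ℂ) (m N : ℕ) (hm : 1 ≤ m) (hmN : m ≤ N)
    (hpw : ∀ k ∈ Finset.Ico 1 m, c k + r k = pw α k) (F : ℝ) (hF1 : 1 ≤ F)
    (hnF : (n : ℝ) ≤ m * F) (hDL : DL c N ≤ m * F ^ 2)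
    (hr : Real.circleAverage (fun ζ => |LL r N ζ|) 0 1 ≤ F) :
    kapL (fun l => Len.refl (α l)) c N ≤ 9000 * F := by
  have hmR : (0 : ℝ) < m := by exact_mod_cast hm
  have hnR : (0 : ℝ) < n := by exact_mod_cast hn
  have hs : (0 : ℝ) < 1 / m := by positivity
  have hF0 : 0 < F := by linarith
  have hdat : Dat (fun l => (Real.exp (-(1 / m)) : ℂ) * α l) (smc (1 / m) c) (smc (1 / m) r)
      m N F := by
    refine ⟨hn, fun l => mul_ne_zero ?_ (hα l), (cb_hh α _ hs.le).trans hh1, hm, hmN, hF1, hnF,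
      (DL_smc_le c N _ hs.le).trans hDL, ?_, ?_, ?_, ?_⟩
    · exact_mod_cast (Real.exp_pos _).ne'
    · intro k hk
      rw [cb_pw, ← hpw k hk]
      unfold smc
      ring
    · refine (avg_SP_sq_smooth c N m hm).trans ?_
      calc m * DL c N ≤ m * (m * F ^ 2) := by gcongr
        _ = (m * F) ^ 2 := by ring
    · refine (avg_SP_smooth r N (1 / m) hs).trans ?_
      rw [one_div, inv_inv]
      gcongr
    · exact (avg_LL_smooth r N (1 / m) hs).trans hr
  have h1 := kapL_smooth hn α hα hh1 c N m hm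
  have h2 := kapL_dat _ _ _ m N F hdat
  have h3 : Real.sqrt (DL c N / m) ≤ F := by
    rw [Real.sqrt_le_left hF0.le, div_le_iff₀ hmR]
    linarith
  have h4 : (n : ℝ) / m ≤ F := by
    rw [div_le_iff₀ hmR]
    linarith
  linarith

end Pool.Agent.Lib.MP_7ab245_nt.LgE
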