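import Mathlib
import Pool.Agent.Lib.MP_7ab245_nt.LgE.Defs
import Pool.Agent.Lib.MP_7ab245_nt.LgE.Comb2

/-! The mean of `|V - L|`. -/

set_option autoImplicit false

open Polynomial Finset

namespace Pool.Agent.Lib.MP_7ab245_nt.LgE

open Pool.Agent.Lib.MP_7ab245_nt.Len
open Pool.Agent.Lib.MP_7ab245_nt.L1
open Pool.Agent.Lib.MP_7ab245_nt.TrE

theorem kapL_le {n : ℕ} (hn : 0 < n) (α : Fin n → ℂ) (hα : ∀ l, α l ≠ 0) (hh1 : hh α ≤ 1)
    (c r : ℕ → ℂ) (m N : ℕ) (hm : 1 ≤ m) (hmN : m ≤ N)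
    (hpw : ∀ k ∈ Finset.Ico 1 m, c k + r k = pw α k) (F : ℝ)
    (hF : 1 + n / m + DL c N / n + Real.circleAverage (fun ζ => |LL r N ζ|) 0 1 ≤ F) :
    kapL (fun l => Len.refl (α l)) c N ≤ 9000 * F := by
  have hmR : (0 : ℝ) < m := by exact_mod_cast hm
  have hnR : (0 : ℝ) < n := by exact_mod_cast hn
  have hs : (0 : ℝ) < 1 / m := by positivity
  have hD0 : 0 ≤ DL c N := by
    unfold DL
    exact Finset.sum_nonneg fun k _ => by positivity
  have hL0 : 0 ≤ Real.circleAverage (fun ζ => |LL r N ζ|) 0 1 :=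
    Real.circleAverage_nonneg_of_nonneg fun ζ _ => abs_nonneg _
  have hnm0 : 0 ≤ (n : ℝ) / m := by positivity
  have hDn0 : 0 ≤ DL c N / n := by positivity
  have hF1 : 1 ≤ F := by linarith
  have hF0 : 0 < F := by linarith
  have hnF : (n : ℝ) ≤ m * F := by
    have : (n : ℝ) / m ≤ F := by linarith
    rw [div_le_iff₀ hmR] at this
    linarith
  have hDF : DL c N ≤ n * F := by
    have : DL c N / n ≤ F := by linarith
    rw [div_le_iff₀ hnR] at this
    linarith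
  have hLF : Real.circleAverage (fun ζ => |LL r N ζ|) 0 1 ≤ F := by linarith
  refine kapL_le2 hn α hα hh1 c r m N hm hmN hpw F hF1 hnF ?_ hLF
  calc DL c N ≤ n * F := hDF
    _ ≤ (m * F) * F := by gcongr
    _ = m * F ^ 2 := by ring

end Pool.Agent.Lib.MP_7ab245_nt.LgE
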