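import Mathlib
import Pool.Agent.Lib.MP_7ab245_nt.LgE.EE
import Pool.Agent.Lib.MP_7ab245_nt.LgE.Comb2
import Pool.Agent.Lib.MP_7ab245_nt.LgE.RedF

/-! The lower bound for the Mahler measure. -/

set_option autoImplicit false

open Polynomial Finset

namespace Pool.Agent.Lib.MP_7ab245_nt.LgE

open Pool.Agent.Lib.MP_7ab245_nt.Len
open Pool.Agent.Lib.MP_7ab245_nt.L1
open Pool.Agent.Lib.MP_7ab245_nt.TrE

private theorem fin_roots (f : ℤ[X]) {n : ℕ} (β : Fin n → ℂ) (hβ : IsRoots f β) :
    (f.map (Int.castRingHom ℂ)).roots = (univ : Finset (Fin n)).val.map β := by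
  have h : f.map (Int.castRingHom ℂ) =
      (((univ : Finset (Fin n)).val.map β).map fun a => X - C a).prod := by
    rw [hβ, Multiset.map_map]
    rfl
  rw [h, roots_multiset_prod_X_sub_C]

/-- the power sums of the roots do not see the root `0` and the sign -/
private theorem fin_pow_sum (f f1 : ℤ[X]) (r : ℕ) (hf1 : f1 ≠ 0)
    (hf : f = X ^ r * f1 ∨ f = -(X ^ r * f1)) (τ : ℂ → ℂ) (hτ0 : τ 0 = 0)
    {n : ℕ} (β : Fin n → ℂ) (hβ : IsRoots f1 β) (k : ℕ) (hk : 1 ≤ k) :
    ((f.map (Int.castRingHom ℂ)).roots.map (fun z => τ z ^ k)).sum = ∑ i, τ (β i) ^ k := by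
  have hinj : Function.Injective (Int.castRingHom ℂ) := RingHom.injective_int _
  have h1 : (f.map (Int.castRingHom ℂ)).roots =
      ((X ^ r * f1).map (Int.castRingHom ℂ)).roots := by
    rcases hf with h | h
    · rw [h]
    · rw [h, Polynomial.map_neg, roots_neg]
  have hf1' : f1.map (Int.castRingHom ℂ) ≠ 0 := (Polynomial.map_ne_zero_iff hinj).2 hf1
  have h2 : ((X ^ r * f1).map (Int.castRingHom ℂ)).roots =
      r • ({0} : Multiset ℂ) + (univ : Finset (Fin n)).val.map β := by
    rw [Polynomial.map_mul, Polynomial.map_pow, map_X,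
      roots_mul (mul_ne_zero (pow_ne_zero _ X_ne_zero) hf1'), roots_X_pow, fin_roots f1 β hβ]
  rw [h1, h2, Multiset.map_add, Multiset.sum_add, Multiset.map_nsmul, Multiset.sum_nsmul,
    Multiset.map_singleton, Multiset.sum_singleton, hτ0, zero_pow (by omega), smul_zero, zero_add,
    Multiset.map_map]
  rfl

/-- the coefficients belonging to a polynomial -/
private theorem fin_LL (Q : ℂ[X]) (N : ℕ) (hN : Q.natDegree < N) (z : ℂ) :
    LL (fun k => -((k : ℂ) * Q.coeff k)) N z = (Q.coeff 0).re - (Q.eval z).re := by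
  unfold LL
  have h1 : Q.eval z = Q.coeff 0 + ∑ k ∈ Finset.Ico 1 N, Q.coeff k * z ^ k := by
    rw [eval_eq_sum_range' hN, Finset.range_eq_Ico, Finset.sum_eq_sum_Ico_succ_bot (by omega)]
    simp
  rw [h1, ← Complex.sub_re]
  congr 1
  rw [sub_add_cancel_left, ← Finset.sum_neg_distrib]
  refine Finset.sum_congr rfl fun k hk => ?_
  have hk1 : 1 ≤ k := (Finset.mem_Ico.1 hk).1
  have hk0 : (k : ℂ) ≠ 0 := by exact_mod_cast (by omega : k ≠ 0)
  field_simp

private theorem fin_DL (Q : ℂ[X]) (N : ℕ) (hN : Q.natDegree < N) :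
    DL (fun k => -((k : ℂ) * Q.coeff k)) N = ∑ k ∈ Q.support, k * ‖Q.coeff k‖ ^ 2 := by
  unfold DL
  have h1 : ∑ k ∈ Q.support, (k : ℝ) * ‖Q.coeff k‖ ^ 2 =
      ∑ k ∈ Finset.range N, (k : ℝ) * ‖Q.coeff k‖ ^ 2 := by
    apply Finset.sum_subset
    · intro k hk
      have h1 : Q.coeff k ≠ 0 := mem_support_iff.1 hk
      rw [Finset.mem_range]
      have := le_natDegree_of_ne_zero h1
      omega
    · intro k _ hk
      rw [notMem_support_iff] at hk
      rw [hk]; simp
  have h2 : ∑ k ∈ Finset.range N, (k : ℝ) * ‖Q.coeff k‖ ^ 2 =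
      ∑ k ∈ Finset.Ico 1 N, (k : ℝ) * ‖Q.coeff k‖ ^ 2 := by
    rw [Finset.range_eq_Ico, Finset.sum_eq_sum_Ico_succ_bot (by omega)]
    simp
  rw [h1, h2]
  refine Finset.sum_congr rfl fun k hk => ?_
  have hk1 : 1 ≤ k := (Finset.mem_Ico.1 hk).1
  have hkR : (0 : ℝ) < k := by exact_mod_cast hk1
  rw [norm_neg, norm_mul, Complex.norm_natCast]
  field_simp

private theorem fin_mean (Q : ℂ[X]) (N : ℕ) (hN : Q.natDegree < N) :
    Real.circleAverage (fun ζ => |LL (fun k => -((k : ℂ) * Q.coeff k)) N ζ|) 0 1 ≤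
      2 * Real.circleAverage (fun z => |(Q.eval z).re|) 0 1 := by
  have hc : Continuous fun z : ℂ => (Q.eval z).re :=
    Complex.continuous_re.comp Q.continuous
  have hi : CircleIntegrable (fun z : ℂ => (Q.eval z).re) 0 1 :=
    hc.continuousOn.circleIntegrable (by norm_num)
  have hk : CircleIntegrable (fun _ : ℂ => (Q.coeff 0).re) 0 1 := circleIntegrable_const _ _ _
  have hia : CircleIntegrable (fun z : ℂ => |(Q.eval z).re|) 0 1 := hi.abs
  have hfun : (fun ζ => LL (fun k => -((k : ℂ) * Q.coeff k)) N ζ) =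
      fun ζ => (Q.coeff 0).re - (Q.eval ζ).re := by
    funext ζ
    exact fin_LL Q N hN ζ
  have h0 : (Q.coeff 0).re = Real.circleAverage (fun z => (Q.eval z).re) 0 1 := by
    have h1 := circleAverage_LL (fun k => -((k : ℂ) * Q.coeff k)) N
    have h2 : LL (fun k => -((k : ℂ) * Q.coeff k)) N =
      fun ζ => (Q.coeff 0).re - (Q.eval ζ).re := hfun
    rw [h2, Real.circleAverage_fun_sub hk hi, Real.circleAverage_const] at h1
    linarith
  have h1 : |(Q.coeff 0).re| ≤ Real.circleAverage (fun z => |(Q.eval z).re|) 0 1 := by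
    rw [h0]
    exact Real.abs_circleAverage_le_circleAverage_abs
  have h2 : Real.circleAverage (fun ζ => |LL (fun k => -((k : ℂ) * Q.coeff k)) N ζ|) 0 1 ≤
      Real.circleAverage (fun z => |(Q.coeff 0).re| + |(Q.eval z).re|) 0 1 := by
    refine Real.circleAverage_mono ?_ ((circleIntegrable_const _ _ _).add hia) fun ζ _ => ?_
    · exact (circleIntegrable_LL _ N).abs
    · rw [fin_LL Q N hN ζ]
      exact abs_sub _ _
  have h3 : Real.circleAverage (fun z => |(Q.coeff 0).re| + |(Q.eval z).re|) 0 1 =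
      |(Q.coeff 0).re| + Real.circleAverage (fun z => |(Q.eval z).re|) 0 1 := by
    rw [Real.circleAverage_fun_add (circleIntegrable_const _ _ _) hia, Real.circleAverage_const]
  linarith

private theorem fin_EE (X X1 a1 F : ℝ) (hX1 : 0 < X1) (hX : X1 ≤ 2 * X) (ha1 : 0 ≤ a1)
    (hF : F = X1 + Real.sqrt (X1 * a1)) : EE (9002 * F) a1 ≤ 360080 * EE X a1 := by
  have hF0 : 0 < F := by rw [hF]; have := Real.sqrt_nonneg (X1 * a1); linarith
  have hX0 : 0 < X := by linarith
  have h1 : EE (9002 * F) a1 ≤ 9002 * EE F a1 := by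
    rw [← EE_smul 9002 F a1 (by norm_num)]
    exact EE_mono _ _ _ _ (by positivity) le_rfl ha1 (by linarith)
  have h2 : EE F a1 ≤ 20 * EE X1 a1 := by rw [hF]; exact EE_sqrt X1 a1 hX1 ha1
  have h3 : EE X1 a1 ≤ 2 * EE X a1 := by
    rw [← EE_smul 2 X a1 (by norm_num)]
    exact EE_mono _ _ _ _ hX1 hX ha1 (by linarith)
  linarith

theorem energy_main2 : ∃ c : ℝ, 0 < c ∧ ∀ (u g f : ℤ[X]) (e m : ℕ) (τ : ℂ → ℂ) (P R : ℂ[X])
    (D X a E : ℝ), 0 < e → 1 ≤ m → (u.map (Int.castRingHom ℂ)).mahlerMeasure = 1 →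
    Irreducible g → 1 < (g.map (Int.castRingHom ℂ)).mahlerMeasure → f = u * g ^ e →
    (∀ z, τ z = z ∨ (1 < ‖z‖ ∧ τ z = (starRingEnd ℂ z)⁻¹)) →
    (∀ k, 1 ≤ k → k < m → -(k : ℂ) * (P.coeff k + R.coeff k) =
      starRingEnd ℂ ((f.map (Int.castRingHom ℂ)).roots.map (fun z => τ z ^ k)).sum) →
    D = f.natDegree / (e * g.natDegree) →
    X = 1 + f.natDegree / m + Real.circleAverage (fun z => |(R.eval z).re|) 0 1 →
    a = (∑ k ∈ P.support, k * ‖P.coeff k‖ ^ 2) / f.natDegree →
    E = X + a / Real.log (2 + a / X) →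
    c * min 1 (e / (D * E) ^ 3) ≤ Real.log (f.map (Int.castRingHom ℂ)).mahlerMeasure := by
  obtain ⟨c1, hc1, hgen⟩ := gen_mainF
  refine ⟨min (1 / 2) (c1 / 360080 ^ 3), lt_min (by norm_num) (by positivity), ?_⟩
  intro u g f e m τ P R D x a E he hm hMu hirr hM hf hτ hPR hD hx ha hE
  change mm u = 1 at hMu
  change 1 < mm g at hM
  change _ ≤ Real.log (mm f)
  have hmmf : mm f = mm g ^ e := by rw [hf, mm_mul, mm_pow, hMu, one_mul]
  have hMf1 : 1 < mm f := by
    rw [hmmf]
    exact one_lt_pow₀ hM he.ne'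
  have hlogf : Real.log (mm f) = e * Real.log (mm g) := by
    rw [hmmf, Real.log_pow]
  have hlog0 : 0 ≤ Real.log (mm f) := Real.log_nonneg hMf1.le
  have hune : u ≠ 0 := by
    rintro rfl
    unfold mm at hMu
    simp at hMu
  have hgne : g ≠ 0 := hirr.ne_zero
  have hfne : f ≠ 0 := by rw [hf]; exact mul_ne_zero hune (pow_ne_zero e hgne)
  have hdeg : f.natDegree = u.natDegree + e * g.natDegree := by
    rw [hf, natDegree_mul hune (pow_ne_zero e hgne), natDegree_pow]
  have hmR : (0 : ℝ) < m := by exact_mod_cast hm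
  have heR : (0 : ℝ) < e := by exact_mod_cast he
  have hc0 : 0 < min (1 / 2) (c1 / 360080 ^ 3) := lt_min (by norm_num) (by positivity)
  rcases Nat.eq_zero_or_pos g.natDegree with hn0 | hgpos
  · have hD0 : D = 0 := by rw [hD, hn0]; simp
    have h1 : min 1 ((e : ℝ) / (D * E) ^ 3) ≤ 0 := by
      refine (min_le_right _ _).trans (le_of_eq ?_)
      rw [hD0]
      simp
    nlinarith
  have hgR : (0 : ℝ) < g.natDegree := by exact_mod_cast hgpos
  by_cases hM2 : mm f < 2
  · have hgf : mm g ≤ mm f := by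
      rw [hmmf]
      exact le_self_pow₀ hM.le he.ne'
    have hMg2 : mm g < 2 := lt_of_le_of_lt hgf hM2
    have humon := monic_or u hune (by rw [hMu]; norm_num)
    have hgmon := monic_or g hgne hMg2
    obtain ⟨g', hg', hgg'⟩ : ∃ g' : ℤ[X], g'.Monic ∧ (g' = g ∨ g' = -g) := by
      rcases hgmon with h | h
      · exact ⟨g, h, Or.inl rfl⟩
      · exact ⟨-g, h, Or.inr rfl⟩
    obtain ⟨u', hu', huu'⟩ : ∃ u' : ℤ[X], u'.Monic ∧ (u' = u ∨ u' = -u) := by
      rcases humon with h | h
      · exact ⟨u, h, Or.inl rfl⟩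
      · exact ⟨-u, h, Or.inr rfl⟩
    have hmg : mm g' = mm g := by
      rcases hgg' with rfl | rfl
      · rfl
      · exact mm_neg g
    have hmu : mm u' = 1 := by
      rcases huu' with rfl | rfl
      · exact hMu
      · rw [mm_neg]; exact hMu
    have hirr' : Irreducible g' := by
      rcases hgg' with rfl | rfl
      · exact hirr
      · have := (Associated.refl g).neg_left
        exact this.irreducible_iff.mpr hirr
    have hdg : g'.natDegree = g.natDegree := by
      rcases hgg' with rfl | rfl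
      · rfl
      · exact natDegree_neg g
    have hff : f = u' * g' ^ e ∨ f = -(u' * g' ^ e) := by
      have h1 : g' ^ e = g ^ e ∨ g' ^ e = -g ^ e := by
        rcases hgg' with rfl | rfl
        · exact Or.inl rfl
        · rcases Nat.even_or_odd e with h | h
          · left; exact h.neg_pow g
          · right; exact h.neg_pow g
      rw [hf]
      rcases h1 with h1 | h1 <;> rcases huu' with h2 | h2 <;> rw [h1, h2]
      · left; rfl
      · right; ring
      · right; ring
      · left; ring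
    have hM' : 1 < mm g' := by rw [hmg]; exact hM
    have hg0 := coeff_zero_ne_zero g' hirr' hM'
    obtain ⟨r, u1, hu1, hu10⟩ : ∃ (r : ℕ) (u1 : ℤ[X]), u' = X ^ r * u1 ∧ u1.coeff 0 ≠ 0 := by
      obtain ⟨u1, h1, h2⟩ := exists_eq_pow_rootMultiplicity_mul_and_not_dvd u' hu'.ne_zero 0
      rw [C_0, sub_zero] at h1 h2
      exact ⟨_, u1, h1, fun h => h2 (X_dvd_iff.mpr h)⟩
    have hu1m : u1.Monic := by
      rw [hu1] at hu'
      exact (monic_X_pow r).of_mul_monic_left hu'
    have hMu1 : mm u1 = 1 := by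
      have h1 : mm (X ^ r : ℤ[X]) = 1 := by rw [mm_pow, mm_X, one_pow]
      rw [hu1, mm_mul, h1, one_mul] at hmu
      exact hmu
    set f1 : ℤ[X] := u1 * g' ^ e with hf1
    have hf1m : f1.Monic := hu1m.mul (hg'.pow e)
    have hff1 : f = X ^ r * f1 ∨ f = -(X ^ r * f1) := by
      rw [hf1, ← mul_assoc, ← hu1]
      exact hff
    have hf10 : f1.coeff 0 ≠ 0 := by
      rw [hf1, mul_coeff_zero, coeff_zero_eq_eval_zero (g' ^ e), eval_pow,
        ← coeff_zero_eq_eval_zero]
      exact mul_ne_zero hu10 (pow_ne_zero e hg0)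
    obtain ⟨β, hβ⟩ := exists_isRoots f1 hf1m
    have hβ0 : ∀ l, β l ≠ 0 := hβ.ne_zero hf10
    have hn1g : f1.natDegree = u1.natDegree + e * g.natDegree := by
      rw [hf1, hu1m.natDegree_mul (hg'.pow e), hg'.natDegree_pow, hdg]
    have heg : 0 < e * g.natDegree := Nat.mul_pos he hgpos
    have hn1pos : 0 < f1.natDegree := by omega
    have hn1n : f1.natDegree ≤ f.natDegree := by
      have h1 : f.natDegree = (X ^ r * f1).natDegree := by
        rcases hff1 with h | h
        · rw [h]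
        · rw [h, natDegree_neg]
      rw [h1, (monic_X_pow r).natDegree_mul hf1m, natDegree_X_pow]
      omega
    have hhβ : hh β ≤ 1 := by
      rw [hh_eq_log_mahler f1 β hβ]
      change Real.log (mm f1) ≤ 1
      have h1 : mm f1 = mm f := by rw [hf1, mm_mul, mm_pow, hMu1, one_mul, hmg, hmmf]
      rw [h1]
      have h2 : Real.log (mm f) ≤ Real.log 2 := Real.log_le_log (by linarith) hM2.le
      have := Real.log_two_lt_d9
      linarith
    -- the partly reflected roots
    have hτ0 : τ 0 = 0 := by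
      rcases hτ 0 with h | ⟨h, _⟩
      · exact h
      · rw [norm_zero] at h
        exact absurd h (by norm_num)
    set y : Fin f1.natDegree → ℂ := fun l => τ (β l) with hy
    have hy0 : ∀ l, y l ≠ 0 := by
      intro l
      rcases hτ (β l) with h | ⟨_, h⟩
      · simp only [hy, h]
        exact hβ0 l
      · simp only [hy, h]
        exact inv_ne_zero ((_root_.map_ne_zero _).2 (hβ0 l))
    have hyr : ∀ l, Len.refl (y l) = Len.refl (β l) := by
      intro l
      rcases hτ (β l) with h | ⟨h1, h⟩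
      · simp only [hy, h]
      · have h2 : ‖y l‖ ≤ 1 := by
          simp only [hy, h]
          rw [norm_inv, RCLike.norm_conj]
          exact inv_le_one_of_one_le₀ h1.le
        rw [refl_of_le h2, refl_of_lt h1]
        simp only [hy, h]
    have hhy : hh y ≤ 1 := by
      refine le_trans (Finset.sum_le_sum fun l _ => ?_) hhβ
      rcases hτ (β l) with h | ⟨h1, h⟩
      · simp only [hy, h]
        exact le_rfl
      · have h2 : ‖y l‖ ≤ 1 := by
          simp only [hy, h]
          rw [norm_inv, RCLike.norm_conj]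
          exact inv_le_one_of_one_le₀ h1.le
        rw [(Real.posLog_eq_zero_iff _).2 (by rw [abs_of_nonneg (norm_nonneg _)]; exact h2)]
        exact Real.posLog_nonneg
    -- the coefficient sequences
    obtain ⟨N, hN⟩ : ∃ N, N = max (max P.natDegree R.natDegree) m + 1 := ⟨_, rfl⟩
    have hPN : P.natDegree < N := by
      have h1 := le_max_left P.natDegree R.natDegree
      have h2 := le_max_left (max P.natDegree R.natDegree) m
      omega
    have hRN : R.natDegree < N := by
      have h1 := le_max_right P.natDegree R.natDegree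
      have h2 := le_max_left (max P.natDegree R.natDegree) m
      omega
    have hmN : m ≤ N := by
      have h2 := le_max_right (max P.natDegree R.natDegree) m
      omega
    obtain ⟨c, hc⟩ : ∃ c : ℕ → ℂ, c = fun k : ℕ => -((k : ℂ) * P.coeff k) := ⟨_, rfl⟩
    obtain ⟨s, hs⟩ : ∃ s : ℕ → ℂ, s = fun k : ℕ => -((k : ℂ) * R.coeff k) := ⟨_, rfl⟩
    obtain ⟨A, hA⟩ : ∃ A : ℝ, A = ∑ k ∈ P.support, k * ‖P.coeff k‖ ^ 2 := ⟨_, rfl⟩
    obtain ⟨ρ, hρ⟩ : ∃ ρ : ℝ, ρ = Real.circleAverage (fun z => |(R.eval z).re|) 0 1 := ⟨_, rfl⟩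
    have hDLc : DL c N = A := by rw [hc, hA]; exact fin_DL P N hPN
    have hA0 : 0 ≤ A := by rw [← hDLc]; exact DL_nonneg _ _
    have hρ0 : 0 ≤ ρ := by
      rw [hρ]
      exact Real.circleAverage_nonneg_of_nonneg fun _ _ => abs_nonneg _
    have hmean : Real.circleAverage (fun ζ => |LL s N ζ|) 0 1 ≤ 2 * ρ := by
      rw [hs, hρ]
      exact fin_mean R N hRN
    have hpw : ∀ k ∈ Finset.Ico 1 m, c k + s k = pw y k := by
      intro k hk
      have hk1 : 1 ≤ k := (Finset.mem_Ico.1 hk).1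
      have hkm : k < m := (Finset.mem_Ico.1 hk).2
      have h1 := hPR k hk1 hkm
      rw [fin_pow_sum f f1 r hf1m.ne_zero hff1 τ hτ0 β hβ k hk1] at h1
      have h2 : pw y k = starRingEnd ℂ (∑ i, τ (β i) ^ k) := by
        unfold pw
        rw [map_sum]
        simp only [map_pow, hy]
      rw [h2, ← h1, hc, hs]
      ring
    have hn1R : (0 : ℝ) < f1.natDegree := by exact_mod_cast hn1pos
    have hfR : (0 : ℝ) < f.natDegree := by
      have : 0 < f.natDegree := by omega
      exact_mod_cast this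
    obtain ⟨X1, hX1⟩ : ∃ X1 : ℝ, X1 = 1 + f1.natDegree / m + 2 * ρ := ⟨_, rfl⟩
    obtain ⟨a1, ha1⟩ : ∃ a1 : ℝ, a1 = A / f1.natDegree := ⟨_, rfl⟩
    have hq1 : 0 ≤ (f1.natDegree : ℝ) / m := by positivity
    have ha10 : 0 ≤ a1 := by rw [ha1]; positivity
    have hX11 : 1 ≤ X1 := by rw [hX1]; linarith
    have hX10 : 0 < X1 := by linarith
    obtain ⟨F, hF⟩ : ∃ F : ℝ, F = X1 + Real.sqrt (X1 * a1) := ⟨_, rfl⟩
    have hsq := Real.sqrt_nonneg (X1 * a1)
    have hF1 : 1 ≤ F := by rw [hF]; linarith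
    have hnX : (f1.natDegree : ℝ) ≤ m * X1 := by
      rw [hX1]
      have h1 : (f1.natDegree : ℝ) = m * (f1.natDegree / m) := by field_simp
      nlinarith
    have hnF : (f1.natDegree : ℝ) ≤ m * F := by
      refine hnX.trans (mul_le_mul_of_nonneg_left ?_ hmR.le)
      rw [hF]; linarith
    have hAF : A ≤ m * F ^ 2 := by
      have h1 : A = f1.natDegree * a1 := by rw [ha1]; field_simp
      have h2 : X1 * a1 ≤ F ^ 2 := by
        have h3 : Real.sqrt (X1 * a1) ^ 2 = X1 * a1 := Real.sq_sqrt (by positivity)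
        rw [← h3]
        exact pow_le_pow_left₀ hsq (by rw [hF]; linarith) 2
      calc A = f1.natDegree * a1 := h1
        _ ≤ m * X1 * a1 := mul_le_mul_of_nonneg_right hnX ha10
        _ = m * (X1 * a1) := by ring
        _ ≤ m * F ^ 2 := mul_le_mul_of_nonneg_left h2 hmR.le
    have hkap := kapL_le2 hn1pos y hy0 hhy c s m N hm hmN hpw F hF1 hnF (by
      rw [hDLc]; exact hAF) (by
      refine hmean.trans ?_
      have h1 : X1 ≤ F := by rw [hF]; linarith
      linarith)
    simp only [hyr] at hkap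
    have hml := mlogL_le f1 β hβ c N
    have hmlF : 1 + mlogL f1 c N ≤ 9002 * F := by linarith
    have hgen1 := hgen u1 g' e he hMu1 hirr' hM' f1
      (f1.natDegree / (e * g'.natDegree)) rfl rfl c N (9002 * F) a1 hmlF (by rw [hDLc, ha1])
    change _ ≤ Real.log (mm g') at hgen1
    rw [hmg, hdg] at hgen1
    obtain ⟨D1, hD1def⟩ : ∃ D1 : ℝ, D1 = f1.natDegree / (e * g.natDegree) := ⟨_, rfl⟩
    rw [← hD1def] at hgen1
    have hD1pos : 0 < D1 := by rw [hD1def]; positivity
    -- comparison with `X`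
    have hx1 : 1 ≤ x := by
      rw [hx, ← hρ]
      have : (0 : ℝ) ≤ f.natDegree / m := by positivity
      linarith
    have hx0 : 0 < x := by linarith
    have hX1x : X1 ≤ 2 * x := by
      rw [hx, hX1, ← hρ]
      have h1 : (f1.natDegree : ℝ) / m ≤ f.natDegree / m := by
        apply div_le_div_of_nonneg_right _ hmR.le
        exact_mod_cast hn1n
      have : (0 : ℝ) ≤ f.natDegree / m := by positivity
      linarith
    have ha0 : 0 ≤ a := by rw [ha, ← hA]; positivity
    obtain ⟨t, ht⟩ : ∃ t : ℝ, t = f1.natDegree / f.natDegree := ⟨_, rfl⟩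
    have ht0 : 0 < t := by rw [ht]; positivity
    have ht1 : t ≤ 1 := by
      rw [ht, div_le_one hfR]
      exact_mod_cast hn1n
    have ha1t : a1 = a / t := by
      rw [ha1, ha, ht, ← hA]
      field_simp
    have hD1t : D1 = t * D := by
      rw [hD1def, ht, hD]
      have : (0 : ℝ) < e * g.natDegree := by positivity
      field_simp
    have hDpos : 0 < D := by
      rw [hD]
      have : (0 : ℝ) < e * g.natDegree := by positivity
      positivity
    have hEE : E = EE x a := by rw [hE]; rfl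
    have hE0 : 0 < E := by
      rw [hEE]
      exact lt_of_lt_of_le hx0 (le_EE x a hx0 ha0)
    have hDE : 0 < D * E := mul_pos hDpos hE0
    have hQ : D1 * EE (9002 * F) a1 ≤ 360080 * (D * E) := by
      have h1 := fin_EE x X1 a1 F hX10 hX1x ha10 hF
      have h2 := EE_shrink t x a hx0 ha0 ht0 ht1
      calc D1 * EE (9002 * F) a1 ≤ D1 * (360080 * EE x a1) :=
            mul_le_mul_of_nonneg_left h1 hD1pos.le
        _ = 360080 * (D * (t * EE x (a / t))) := by rw [hD1t, ha1t]; ring
        _ ≤ 360080 * (D * EE x a) := by gcongr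
        _ = 360080 * (D * E) := by rw [hEE]
    have hQ0 : 0 < D1 * EE (9002 * F) a1 :=
      mul_pos hD1pos (lt_of_lt_of_le (by linarith) (le_EE (9002 * F) a1 (by linarith) ha10))
    have hfin : c1 / (360080 * (D * E)) ^ 3 ≤ Real.log (mm g) := by
      refine le_trans ?_ hgen1
      apply div_le_div_of_nonneg_left hc1.le (by positivity)
      exact pow_le_pow_left₀ hQ0.le hQ 3
    rw [hlogf]
    calc min (1 / 2) (c1 / 360080 ^ 3) * min 1 ((e : ℝ) / (D * E) ^ 3)
        ≤ (c1 / 360080 ^ 3) * ((e : ℝ) / (D * E) ^ 3) := by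
          apply mul_le_mul (min_le_right _ _) (min_le_right _ _) _ (by positivity)
          exact le_min (by norm_num) (by positivity)
      _ = e * (c1 / (360080 * (D * E)) ^ 3) := by
          rw [mul_pow 360080 (D * E) 3]
          field_simp
      _ ≤ _ := mul_le_mul_of_nonneg_left hfin heR.le
  · push Not at hM2
    have hlog2 := Real.log_two_gt_d9
    have h1 : Real.log 2 ≤ Real.log (mm f) := Real.log_le_log (by norm_num) hM2
    have h2 : min (1 / 2) (c1 / 360080 ^ 3) * min 1 ((e : ℝ) / (D * E) ^ 3) ≤ 1 / 2 * 1 := by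
      refine le_trans (mul_le_mul_of_nonneg_left (min_le_left _ _) hc0.le) ?_
      exact mul_le_mul_of_nonneg_right (min_le_left _ _) zero_le_one
    linarith

end Pool.Agent.Lib.MP_7ab245_nt.LgE
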